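import Pool.Agent.Helper7.Simplex.Defs

open MeasureTheory ProbabilityTheory Matrix
open scoped ENNReal

namespace Pool.Agent.Helper7.Simplex

namespace J7756

theorem E_det {d : ℕ} (G : Matrix (Fin d) (Fin d) ℝ) (hG : IsUnit G.det) (u : Fin d → ℝ) :
    (G + vecMulVec u u).det = G.det * (1 + u ⬝ᵥ (G⁻¹ *ᵥ u)) ∧
    (G - vecMulVec u u).det = G.det * (1 - u ⬝ᵥ (G⁻¹ *ᵥ u)) := by
  have key : ∀ a b : Fin d → ℝ, (G + vecMulVec a b).det = G.det * (1 + b ⬝ᵥ (G⁻¹ *ᵥ a)) := by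
    intro a b
    rw [vecMulVec_eq Unit, det_add_replicateCol_mul_replicateRow hG]
    congr 1
    rw [det_unique, Matrix.add_apply, one_apply_eq]
    congr 1
    rw [mul_apply, dotProduct_mulVec]
    simp only [dotProduct]
    refine Finset.sum_congr rfl fun i _ => ?_
    rfl
  refine ⟨key u u, ?_⟩
  have h := key (-u) u
  rw [neg_vecMulVec, mulVec_neg, dotProduct_neg, ← sub_eq_add_neg, ← sub_eq_add_neg] at h
  exact h

open scoped MatrixOrder in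
theorem E_sqrt {d : ℕ} (G : Matrix (Fin d) (Fin d) ℝ) (hG : G.PosSemidef) :
    ∃ B : Matrix (Fin d) (Fin d) ℝ, G = Bᵀ * B := by
  obtain ⟨B, hB⟩ := CStarAlgebra.nonneg_iff_eq_star_mul_self.mp hG.nonneg
  refine ⟨B, ?_⟩
  rw [hB, star_eq_conjTranspose, conjTranspose_eq_transpose_of_trivial]

theorem E_factor {d : ℕ} {ι : Type*} [Fintype ι] (w : ι → Fin d → ℝ)
    (hdet : 0 < (∑ i, vecMulVec (w i) (w i)).det) :
    ∃ (S : Matrix (Fin d) (Fin d) ℝ) (w' : ι → Fin d → ℝ), S.det ≠ 0 ∧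
      |S.det| = √((∑ i, vecMulVec (w i) (w i)).det) ∧ (∀ i, S *ᵥ w' i = w i) ∧
      ∑ i, vecMulVec (w' i) (w' i) = 1 ∧
      ∀ i, w' i ⬝ᵥ w' i = w i ⬝ᵥ ((∑ j, vecMulVec (w j) (w j))⁻¹ *ᵥ w i) := by
  have hps : (∑ i, vecMulVec (w i) (w i)).PosSemidef := by
    refine posSemidef_sum _ fun i _ => ?_
    have := posSemidef_vecMulVec_self_star (w i)
    rwa [star_trivial] at this
  obtain ⟨B, hB⟩ := E_sqrt _ hps
  have hdet2 : (∑ i, vecMulVec (w i) (w i)).det = B.det ^ 2 := by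
    rw [hB, det_mul, det_transpose, sq]
  have hBdet : B.det ≠ 0 := by
    intro h
    rw [hdet2, h] at hdet
    norm_num at hdet
  have hunit : IsUnit (Bᵀ).det := by
    rw [det_transpose]
    exact isUnit_iff_ne_zero.2 hBdet
  have hunitB : IsUnit B.det := isUnit_iff_ne_zero.2 hBdet
  refine ⟨Bᵀ, fun i => (Bᵀ)⁻¹ *ᵥ w i, ?_, ?_, ?_, ?_, ?_⟩
  · rw [det_transpose]; exact hBdet
  · rw [det_transpose, hdet2, Real.sqrt_sq_eq_abs]
  · intro i
    rw [mulVec_mulVec, mul_nonsing_inv _ hunit, one_mulVec]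
  · have h1 : ∀ i, vecMulVec ((Bᵀ)⁻¹ *ᵥ w i) ((Bᵀ)⁻¹ *ᵥ w i) =
        (Bᵀ)⁻¹ * vecMulVec (w i) (w i) * B⁻¹ := by
      intro i
      rw [mul_vecMulVec, vecMulVec_mul]
      congr 1
      rw [← transpose_nonsing_inv, mulVec_transpose]
    rw [Finset.sum_congr rfl fun i _ => h1 i, ← Finset.sum_mul, ← Finset.mul_sum, hB,
      ← Matrix.mul_assoc, nonsing_inv_mul _ hunit, Matrix.one_mul, mul_nonsing_inv _ hunitB]
  · intro i
    rw [hB, Matrix.mul_inv_rev, ← mulVec_mulVec, dotProduct_mulVec (w i)]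
    congr 1
    beta_reduce
    rw [← transpose_nonsing_inv, mulVec_transpose]

end J7756

namespace J7757

theorem E_extremal {d : ℕ} 
    (hdet2 : ∀ (G : Matrix (Fin d) (Fin d) ℝ), IsUnit G.det → ∀ u : Fin d → ℝ,
      (G + vecMulVec u u).det = G.det * (1 + u ⬝ᵥ (G⁻¹ *ᵥ u)) ∧
      (G - vecMulVec u u).det = G.det * (1 - u ⬝ᵥ (G⁻¹ *ᵥ u)))
    {ι : Type*} [Fintype ι] (w : ι → Fin d → ℝ) (b : ℕ) (hb : 2 ≤ b)
    (A : ℝ) (hA : Real.exp A = (b : ℝ) / ((b : ℝ) - 1)) (hN : Fintype.card ι ≤ b * d)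
    (hdet : 0 < (∑ i, vecMulVec (w i) (w i)).det) :
    ∃ (m : ℕ) (f : Fin m → ι), 0 < (∑ j, vecMulVec (w (f j)) (w (f j))).det ∧
      (∑ i, vecMulVec (w i) (w i)).det * Real.exp (-(Fintype.card ι * A)) ≤
        (∑ j, vecMulVec (w (f j)) (w (f j))).det * Real.exp (-(m * A)) ∧
      ∀ j, 1 / (b : ℝ) ≤ w (f j) ⬝ᵥ ((∑ j, vecMulVec (w (f j)) (w (f j)))⁻¹ *ᵥ w (f j)) ∧
        w (f j) ⬝ᵥ ((∑ j, vecMulVec (w (f j)) (w (f j)))⁻¹ *ᵥ w (f j)) ≤ 1 / ((b : ℝ) - 1) := by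
  classical
  have hb1 : (0 : ℝ) < (b : ℝ) - 1 := by
    have : (2 : ℝ) ≤ b := by exact_mod_cast hb
    linarith
  have hb0 : (0 : ℝ) < b := by linarith
  obtain ⟨F, hF⟩ : ∃ F : (m : ℕ) → (Fin m → ι) → ℝ, ∀ m f, F m f =
      (∑ j, vecMulVec (w (f j)) (w (f j))).det * Real.exp (-(m * A)) := ⟨_, fun _ _ => rfl⟩
  let e := Fintype.equivFin ι
  have hsum0 : ∑ j, vecMulVec (w (e.symm j)) (w (e.symm j)) = ∑ i, vecMulVec (w i) (w i) :=
    Equiv.sum_comp e.symm (fun i => vecMulVec (w i) (w i))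
  have hF0 : F (Fintype.card ι) e.symm = (∑ i, vecMulVec (w i) (w i)).det *
      Real.exp (-(Fintype.card ι * A)) := by
    rw [hF, hsum0]
  have hmaxex : ∃ (m : ℕ) (f : Fin m → ι), m ≤ b * d + 1 ∧
      ∀ (m' : ℕ) (f' : Fin m' → ι), m' ≤ b * d + 1 → F m' f' ≤ F m f := by
    have : Nonempty (Σ m : Fin (b * d + 2), (Fin m → ι)) :=
      ⟨⟨⟨Fintype.card ι, by omega⟩, e.symm⟩⟩
    obtain ⟨⟨m, f⟩, hmax⟩ := Finite.exists_max
      (fun p : (Σ m : Fin (b * d + 2), (Fin m → ι)) => F p.1 p.2)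
    refine ⟨m, f, by have := m.2; omega, fun m' f' hm' => ?_⟩
    exact hmax ⟨⟨m', by omega⟩, f'⟩
  obtain ⟨m, f, hm, hmax⟩ := hmaxex
  have hcmp : F (Fintype.card ι) e.symm ≤ F m f := hmax _ _ (by omega)
  have hdetpos : 0 < (∑ j, vecMulVec (w (f j)) (w (f j))).det := by
    have h1 : 0 < F m f := by
      refine lt_of_lt_of_le ?_ hcmp
      rw [hF0]
      exact mul_pos hdet (Real.exp_pos _)
    rw [hF] at h1
    exact pos_of_mul_pos_left h1 (Real.exp_pos _).le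
  refine ⟨m, f, hdetpos, ?_, ?_⟩
  · rw [← hF0, ← hF]
    exact hcmp
  obtain ⟨G, hG⟩ : ∃ G : Matrix (Fin d) (Fin d) ℝ, G = ∑ j, vecMulVec (w (f j)) (w (f j)) := ⟨_, rfl⟩
  rw [← hG] at hdetpos ⊢
  have hGu : IsUnit G.det := hdetpos.ne'.isUnit
  obtain ⟨c, hc⟩ : ∃ c : Fin m → ℝ, ∀ j, c j = w (f j) ⬝ᵥ (G⁻¹ *ᵥ w (f j)) := ⟨_, fun _ => rfl⟩
  have hlow : ∀ j, 1 / (b : ℝ) ≤ c j := by
    intro j
    cases m with
    | zero => exact j.elim0
    | succ k =>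
      have h1 := hmax k (fun i => f (j.succAbove i)) (by omega)
      have h2 : ∑ i, vecMulVec (w (f (j.succAbove i))) (w (f (j.succAbove i))) =
          G - vecMulVec (w (f j)) (w (f j)) := by
        rw [hG, Fin.sum_univ_succAbove _ j]
        abel
      rw [hF, hF, h2, (hdet2 G hGu (w (f j))).2, ← hc, ← hG] at h1
      have h3 : Real.exp (-((k : ℝ) * A)) = Real.exp (-(((k + 1 : ℕ) : ℝ) * A)) * Real.exp A := by
        rw [← Real.exp_add]
        congr 1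
        push_cast
        ring
      rw [h3] at h1
      have h4 : 0 < G.det * Real.exp (-(((k + 1 : ℕ) : ℝ) * A)) := mul_pos hdetpos (Real.exp_pos _)
      have h5 : (G.det * Real.exp (-(((k + 1 : ℕ) : ℝ) * A))) * ((1 - c j) * Real.exp A) ≤
          (G.det * Real.exp (-(((k + 1 : ℕ) : ℝ) * A))) * 1 := by
        calc (G.det * Real.exp (-(((k + 1 : ℕ) : ℝ) * A))) * ((1 - c j) * Real.exp A) =
            G.det * (1 - c j) * (Real.exp (-(((k + 1 : ℕ) : ℝ) * A)) * Real.exp A) := by ring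
          _ ≤ _ := h1
          _ = _ := by ring
      have h6 := le_of_mul_le_mul_left h5 h4
      rw [hA, mul_div_assoc', div_le_one hb1] at h6
      rw [div_le_iff₀ hb0]
      linarith
  have htr : ∑ j, c j = d := by
    have h1 : ∀ j, c j = (G⁻¹ * vecMulVec (w (f j)) (w (f j))).trace := by
      intro j
      rw [hc, mul_vecMulVec, trace_vecMulVec, dotProduct_comm]
    rw [Finset.sum_congr rfl (fun j _ => h1 j), ← trace_sum, ← Finset.mul_sum, ← hG,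
      nonsing_inv_mul G hGu, trace_one, Fintype.card_fin]
  have hmbd : m ≤ b * d := by
    have h1 : ∑ j : Fin m, (1 / (b : ℝ)) ≤ ∑ j, c j := Finset.sum_le_sum fun j _ => hlow j
    rw [htr, Finset.sum_const, Finset.card_univ, Fintype.card_fin, nsmul_eq_mul, mul_one_div,
      div_le_iff₀ hb0] at h1
    have h2 : (m : ℝ) ≤ ((b * d : ℕ) : ℝ) := by
      push_cast
      linarith
    exact_mod_cast h2
  intro j
  rw [← hc]
  refine ⟨hlow j, ?_⟩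
  have h1 := hmax (m + 1) (Fin.cons (f j) f) (by omega)
  have h2 : ∑ i, vecMulVec (w ((Fin.cons (f j) f : Fin (m + 1) → ι) i))
      (w ((Fin.cons (f j) f : Fin (m + 1) → ι) i)) =
      G + vecMulVec (w (f j)) (w (f j)) := by
    rw [hG, Fin.sum_univ_succ]
    simp only [Fin.cons_zero, Fin.cons_succ]
    abel
  rw [hF, hF, h2, (hdet2 G hGu (w (f j))).1, ← hc, ← hG] at h1
  have h3 : Real.exp (-((m : ℝ) * A)) = Real.exp (-(((m + 1 : ℕ) : ℝ) * A)) * Real.exp A := by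
    rw [← Real.exp_add]
    congr 1
    push_cast
    ring
  rw [h3] at h1
  have h4 : 0 < G.det * Real.exp (-(((m + 1 : ℕ) : ℝ) * A)) := mul_pos hdetpos (Real.exp_pos _)
  have h5 : (G.det * Real.exp (-(((m + 1 : ℕ) : ℝ) * A))) * (1 + c j) ≤
      (G.det * Real.exp (-(((m + 1 : ℕ) : ℝ) * A))) * Real.exp A := by
    calc (G.det * Real.exp (-(((m + 1 : ℕ) : ℝ) * A))) * (1 + c j) =
        G.det * (1 + c j) * Real.exp (-(((m + 1 : ℕ) : ℝ) * A)) := by ring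
      _ ≤ _ := h1
      _ = _ := by ring
  have h6 := le_of_mul_le_mul_left h5 h4
  rw [hA, le_div_iff₀ hb1] at h6
  rw [le_div_iff₀ hb1]
  linarith

end J7757

namespace J7758

theorem E_core {d : ℕ}
    (hfac : ∀ (m : ℕ) (w : Fin m → Fin d → ℝ), 0 < (∑ i, vecMulVec (w i) (w i)).det →
      ∃ (S : Matrix (Fin d) (Fin d) ℝ) (w' : Fin m → Fin d → ℝ), S.det ≠ 0 ∧
      |S.det| = √((∑ i, vecMulVec (w i) (w i)).det) ∧ (∀ i, S *ᵥ w' i = w i) ∧
      ∑ i, vecMulVec (w' i) (w' i) = 1 ∧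
      ∀ i, w' i ⬝ᵥ w' i = w i ⬝ᵥ ((∑ j, vecMulVec (w j) (w j))⁻¹ *ᵥ w i))
    {ι : Type*} [Fintype ι] (w : ι → Fin d → ℝ) (h : Fin d → ℝ)
    (hh : ∀ i, h ⬝ᵥ w i = 1) (b : ℕ) (hb : 2 ≤ b)
    (hext : ∀ A : ℝ, Real.exp A = (b : ℝ) / ((b : ℝ) - 1) → 
      ∃ (m : ℕ) (f : Fin m → ι), 0 < (∑ j, vecMulVec (w (f j)) (w (f j))).det ∧
      (∑ i, vecMulVec (w i) (w i)).det * Real.exp (-(Fintype.card ι * A)) ≤
        (∑ j, vecMulVec (w (f j)) (w (f j))).det * Real.exp (-(m * A)) ∧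
      ∀ j, 1 / (b : ℝ) ≤ w (f j) ⬝ᵥ ((∑ j, vecMulVec (w (f j)) (w (f j)))⁻¹ *ᵥ w (f j)) ∧
        w (f j) ⬝ᵥ ((∑ j, vecMulVec (w (f j)) (w (f j)))⁻¹ *ᵥ w (f j)) ≤ 1 / ((b : ℝ) - 1))
    (hV : ∀ (m : ℕ) (w : Fin m → Fin d → ℝ) (S : Matrix (Fin d) (Fin d) ℝ),
      ∑ i, vecMulVec (w i) (w i) = 1 → S.det ≠ 0 → (∀ i, h ⬝ᵥ (S *ᵥ w i) = 1) →
      (∀ i, 1 / (b : ℝ) ≤ w i ⬝ᵥ w i) → (∀ i, w i ⬝ᵥ w i ≤ 1 / ((b : ℝ) - 1)) →
      ENNReal.ofReal (|S.det| * Real.exp (-(m * Ab b + d * Bb b) / 2)) ≤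
        Vexp (fun i => S *ᵥ w i) h) :
    ENNReal.ofReal (√((∑ i, vecMulVec (w i) (w i)).det) *
      Real.exp (-(Fintype.card ι * Ab b + d * Bb b) / 2)) ≤ Vexp w h := by
  classical
  have hb1 : (0 : ℝ) < (b : ℝ) - 1 := by
    have : (2 : ℝ) ≤ b := by exact_mod_cast hb
    linarith
  have hb0 : (0 : ℝ) < (b : ℝ) := by linarith
  obtain ⟨m, f, hdet, hcmp, hlev⟩ := hext (Ab b) (by
    unfold Ab
    exact Real.exp_log (div_pos hb0 hb1))
  obtain ⟨S, w', hS0, hS1, hS2, hS3, hS4⟩ := hfac m (fun j => w (f j)) hdet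
  have hV' := hV m w' S hS3 hS0 (fun i => by rw [hS2 i]; exact hh _)
    (fun i => by rw [hS4 i]; exact (hlev i).1) (fun i => by rw [hS4 i]; exact (hlev i).2)
  have hfun : (fun i => S *ᵥ w' i) = fun j => w (f j) := funext hS2
  rw [hfun, hS1] at hV'
  have hsub : Vexp (fun j => w (f j)) h ≤ Vexp w h := by
    unfold Vexp
    apply lintegral_mono_set
    rintro x ⟨θ, hθ, rfl⟩
    refine ⟨fun i => ∑ j ∈ Finset.univ.filter (fun j => f j = i), θ j,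
      fun i => Finset.sum_nonneg fun j _ => hθ j, ?_⟩
    have : ∀ i, (∑ j ∈ Finset.univ.filter (fun j => f j = i), θ j) • w i
        = ∑ j ∈ Finset.univ.filter (fun j => f j = i), θ j • w (f j) := by
      intro i
      rw [Finset.sum_smul]
      apply Finset.sum_congr rfl
      intro j hj
      rw [(Finset.mem_filter.mp hj).2]
    simp only [this]
    exact (Finset.sum_fiberwise Finset.univ f (fun j => θ j • w (f j))).symm
  refine le_trans (ENNReal.ofReal_le_ofReal ?_) (le_trans hV' hsub)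
  have e1 : Real.exp (-(Fintype.card ι * Ab b + d * Bb b) / 2)
      = √(Real.exp (-(Fintype.card ι * Ab b))) * Real.exp (-(d * Bb b) / 2) := by
    rw [Real.sqrt_eq_rpow, ← Real.exp_mul, ← Real.exp_add]
    congr 1; ring
  have e2 : Real.exp (-(m * Ab b + d * Bb b) / 2)
      = √(Real.exp (-(m * Ab b))) * Real.exp (-(d * Bb b) / 2) := by
    rw [Real.sqrt_eq_rpow, ← Real.exp_mul, ← Real.exp_add]
    congr 1; ring
  rw [e1, e2, ← mul_assoc, ← mul_assoc, ← Real.sqrt_mul' _ (Real.exp_pos _).le,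
    ← Real.sqrt_mul' _ (Real.exp_pos _).le]
  exact mul_le_mul_of_nonneg_right (Real.sqrt_le_sqrt hcmp) (Real.exp_pos _).le

end J7758

end Pool.Agent.Helper7.Simplex
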