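import Pool.Agent.Helper7.Simplex.Defs

open MeasureTheory ProbabilityTheory Matrix
open scoped ENNReal

namespace Pool.Agent.Helper7.Simplex

namespace J7615

theorem psd_mul7615 {ι : Type*} [Fintype ι] (A G : ι → ι → ℝ)
    (hA : ∀ x : ι → ℝ, 0 ≤ ∑ i, ∑ j, x i * x j * A i j)
    (B : ι → ι → ℝ) (hB : ∀ i j, B i j = ∑ k, G i k * G j k) (x : ι → ℝ) :
    0 ≤ ∑ i, ∑ j, x i * x j * (A i j * B i j) := by
  have h : ∑ i, ∑ j, x i * x j * (A i j * B i j) =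
      ∑ k, ∑ i, ∑ j, (x i * G i k) * (x j * G j k) * A i j := by
    rw [Finset.sum_comm (f := fun k i => ∑ j, (x i * G i k) * (x j * G j k) * A i j)]
    apply Finset.sum_congr rfl
    intro i _
    rw [Finset.sum_comm]
    apply Finset.sum_congr rfl
    intro j _
    rw [hB, Finset.mul_sum, Finset.mul_sum]
    apply Finset.sum_congr rfl
    intro k _
    ring
  rw [h]
  exact Finset.sum_nonneg fun k _ => hA fun i => x i * G i k

theorem frame_two {d : ℕ} {ι : Type*} [Fintype ι] (w : ι → Fin d → ℝ)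
    (hI : ∑ i, vecMulVec (w i) (w i) = 1) (hc : ∀ i, 0 < w i ⬝ᵥ w i) :
    (∑ i, (1 - w i ⬝ᵥ w i) * (2 * (w i ⬝ᵥ w i) - 1) / (w i ⬝ᵥ w i) ≤
      ∑ i, ∑ j, (w i ⬝ᵥ w j) ^ 2 *
        (1 - (w i ⬝ᵥ w j) / √((w i ⬝ᵥ w i) * (w j ⬝ᵥ w j)))) ∧
    (∑ i, (1 - w i ⬝ᵥ w i) * (2 * (w i ⬝ᵥ w i) - 1) / (w i ⬝ᵥ w i) ≤
      ∑ i, ∑ j, (w i ⬝ᵥ w j) ^ 2 *
        (1 - ((w i ⬝ᵥ w j) / √((w i ⬝ᵥ w i) * (w j ⬝ᵥ w j))) ^ 2)) := by
  classical
  have hIe : ∀ a b, ∑ i, w i a * w i b = if a = b then 1 else 0 := by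
    intro a b
    have := congrFun (congrFun hI a) b
    simpa [Matrix.sum_apply, vecMulVec_apply, Matrix.one_apply] using this
  have hid0 : ∀ i k, ∑ j, (w i ⬝ᵥ w j) * (w j ⬝ᵥ w k) = w i ⬝ᵥ w k := by
    intro i k
    simp only [dotProduct]
    calc ∑ j, (∑ a, w i a * w j a) * (∑ b, w j b * w k b)
        = ∑ a, ∑ b, w i a * w k b * ∑ j, w j a * w j b := by
          simp_rw [Finset.sum_mul_sum, Finset.mul_sum]
          rw [Finset.sum_comm]
          apply Finset.sum_congr rfl; intro a _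
          rw [Finset.sum_comm]
          apply Finset.sum_congr rfl; intro b _
          apply Finset.sum_congr rfl; intro j _
          ring
      _ = ∑ a, w i a * w k a := by simp [hIe]
  have hsym0 : ∀ i j, w i ⬝ᵥ w j = w j ⬝ᵥ w i := fun i j => dotProduct_comm _ _
  generalize hP : (fun i j => w i ⬝ᵥ w j) = P at *
  have hPe : ∀ i j, w i ⬝ᵥ w j = P i j := fun i j => by rw [← hP]
  simp only [hPe] at hc hid0 hsym0 ⊢
  set G : ι → ι → ℝ := fun i j => (if i = j then 1 else 0) - P i j with hG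
  have hGG : ∀ i j, G i j = ∑ k, G i k * G j k := by
    intro i j
    have e : ∀ k, G i k * G j k = (if i = k then (if j = k then 1 else 0) else 0) -
        (if i = k then P j k else 0) - (if j = k then P i k else 0) + P i k * P k j := by
      intro k
      simp only [hG]
      rw [hsym0 k j]
      split_ifs <;> ring
    simp_rw [e]
    rw [Finset.sum_add_distrib, Finset.sum_sub_distrib, Finset.sum_sub_distrib, hid0]
    simp only [Finset.sum_ite_eq, Finset.mem_univ, if_true]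
    simp only [hG]
    rw [hsym0 j i]
    by_cases hij : i = j
    · subst hij; simp
    · have hji : ¬ j = i := fun h => hij h.symm
      simp [hij, hji]
  have hsum : ∀ i, ∑ j, P i j ^ 2 = P i i := by
    intro i
    rw [← hid0 i i]
    apply Finset.sum_congr rfl
    intro j _
    rw [hsym0 j i]; ring
  have hsum' : ∀ j, ∑ i, P i j ^ 2 = P j j := by
    intro j
    rw [← hsum j]
    apply Finset.sum_congr rfl
    intro i _
    rw [hsym0 i j]
  have hGii : ∀ i, G i i = 1 - P i i := by intro i; simp [hG]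
  have hGij : ∀ i j, i ≠ j → G i j = - P i j := by intro i j h; simp [hG, h]
  have hq : ∀ i, 0 ≤ 1 - P i i := by
    intro i
    rw [← hGii, hGG]
    exact Finset.sum_nonneg fun k _ => mul_self_nonneg _
  constructor
  · -- part 1
    have p0 : ∀ x : ι → ℝ, 0 ≤ ∑ i, ∑ j, x i * x j * (fun _ _ => (1 : ℝ)) i j := by
      intro x
      simp only [mul_one]
      rw [← Finset.sum_mul_sum]
      exact mul_self_nonneg _
    have p1 := psd_mul7615 _ G p0 G hGG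
    have p2 := psd_mul7615 _ G p1 G hGG
    have p3 := psd_mul7615 _ G p2 G hGG
    set x : ι → ℝ := fun i => 1 / √(P i i) with hx
    have hx2 : ∀ i, x i * x i = 1 / P i i := by
      intro i
      simp only [hx]
      rw [div_mul_div_comm, Real.mul_self_sqrt (hc i).le]; ring
    have h3 := p3 x
    have e1 : ∀ i j, x i * x j * (1 * G i j * G i j * G i j) =
        -(P i j ^ 3 * (x i * x j)) +
          (if i = j then ((1 - P i i) ^ 3 + P i i ^ 3) / P i i else 0) := by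
      intro i j
      by_cases hij : i = j
      · subst hij
        rw [if_pos rfl, hGii, hx2]
        ring
      · rw [if_neg hij, hGij i j hij]; ring
    simp_rw [e1] at h3
    simp_rw [Finset.sum_add_distrib] at h3
    simp only [Finset.sum_ite_eq, Finset.mem_univ, if_true, Finset.sum_neg_distrib] at h3
    have e2 : ∀ i j, P i j ^ 2 * (1 - P i j / √(P i i * P j j)) =
        P i j ^ 2 - P i j ^ 3 * (x i * x j) := by
      intro i j
      rw [Real.sqrt_mul (hc i).le]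
      simp only [hx]
      ring
    simp_rw [e2, Finset.sum_sub_distrib, hsum]
    have e3 : ∀ i, (1 - P i i) * (2 * P i i - 1) / P i i =
        P i i - ((1 - P i i) ^ 3 + P i i ^ 3) / P i i := by
      intro i
      have := (hc i).ne'
      field_simp
      ring
    simp_rw [e3, Finset.sum_sub_distrib]
    linarith
  · -- part 2
    have hcs : ∀ i j, i ≠ j → P i j ^ 2 ≤ (1 - P i i) * (1 - P j j) := by
      intro i j hij
      have h1 := Finset.sum_mul_sq_le_sq_mul_sq Finset.univ (fun k => G i k) (fun k => G j k)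
      have h2 : ∑ k, G i k ^ 2 = G i i := by
        rw [hGG i i]; exact Finset.sum_congr rfl fun k _ => by ring
      have h3 : ∑ k, G j k ^ 2 = G j j := by
        rw [hGG j j]; exact Finset.sum_congr rfl fun k _ => by ring
      rw [← hGG i j, h2, h3, hGij i j hij, hGii, hGii] at h1
      simpa using h1
    set u : ι → ℝ := fun i => (1 - P i i) ^ 2 / P i i ^ 2 with hu
    have e1 : ∀ i j, P i j ^ 2 - (P i j ^ 2 * ((u i + u j) / 2) +
        (if i = j then P i i ^ 2 - P i i ^ 2 * u i else 0)) ≤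
        P i j ^ 2 * (1 - (P i j / √(P i i * P j j)) ^ 2) := by
      intro i j
      have ci := hc i
      have cj := hc j
      rw [div_pow, Real.sq_sqrt (by positivity)]
      by_cases hij : i = j
      · subst hij
        rw [if_pos rfl]
        have e : P i i ^ 2 / (P i i * P i i) = 1 := by field_simp
        rw [e]
        apply le_of_eq; ring
      · rw [if_neg hij]
        have h1 := hcs i j hij
        have h2 : P i j ^ 2 / (P i i * P j j) ≤ ((1 - P i i) / P i i) * ((1 - P j j) / P j j) := by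
          rw [div_mul_div_comm]
          gcongr
        have h3 : ((1 - P i i) / P i i) * ((1 - P j j) / P j j) ≤ (u i + u j) / 2 := by
          have e3 : u i = ((1 - P i i) / P i i) ^ 2 := by simp only [hu]; rw [div_pow]
          have e4 : u j = ((1 - P j j) / P j j) ^ 2 := by simp only [hu]; rw [div_pow]
          rw [e3, e4]
          nlinarith [sq_nonneg ((1 - P i i) / P i i - (1 - P j j) / P j j)]
        have h4 := mul_le_mul_of_nonneg_left (h2.trans h3) (sq_nonneg (P i j))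
        linarith
    refine le_trans (le_of_eq ?_) (Finset.sum_le_sum fun i _ => Finset.sum_le_sum fun j _ => e1 i j)
    simp_rw [Finset.sum_sub_distrib, hsum, Finset.sum_add_distrib]
    simp only [Finset.sum_ite_eq, Finset.mem_univ, if_true]
    have e5 : ∑ i, ∑ j, P i j ^ 2 * ((u i + u j) / 2) = ∑ i, u i * P i i := by
      have e6 : ∀ i j, P i j ^ 2 * ((u i + u j) / 2) = u i / 2 * P i j ^ 2 + u j / 2 * P i j ^ 2 := by
        intro i j; ring
      simp_rw [e6, Finset.sum_add_distrib]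
      rw [Finset.sum_comm (f := fun i j => u j / 2 * P i j ^ 2)]
      simp_rw [← Finset.mul_sum, hsum, hsum']
      rw [← Finset.sum_add_distrib]
      exact Finset.sum_congr rfl fun i _ => by ring
    rw [e5, ← Finset.sum_add_distrib, ← Finset.sum_sub_distrib]
    apply Finset.sum_congr rfl
    intro i _
    have ci := (hc i).ne'
    simp only [hu]
    field_simp
    ring

end J7615

namespace J7843

section aux
variable {d : ℕ} {ι : Type*} [Fintype ι]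

theorem aux_trace (w : ι → Fin d → ℝ) (hI : ∑ i, vecMulVec (w i) (w i) = 1) :
    ∑ i, w i ⬝ᵥ w i = d := by
  have h := congrArg Matrix.trace hI
  rw [Matrix.trace_sum, Matrix.trace_one, Fintype.card_fin] at h
  rw [← h]
  exact Finset.sum_congr rfl fun i _ => (Matrix.trace_vecMulVec _ _).symm

theorem aux_row (w : ι → Fin d → ℝ) (hI : ∑ i, vecMulVec (w i) (w i) = 1) (i : ι) :
    ∑ j, (w i ⬝ᵥ w j) ^ 2 = w i ⬝ᵥ w i := by
  have h : w i ⬝ᵥ ((∑ j, vecMulVec (w j) (w j)) *ᵥ w i) = w i ⬝ᵥ w i := by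
    rw [hI, Matrix.one_mulVec]
  rw [← h, Matrix.sum_mulVec, dotProduct_sum]
  refine Finset.sum_congr rfl fun j _ => ?_
  rw [Matrix.vecMulVec_mulVec]
  simp only [dotProduct_smul, MulOpposite.smul_eq_mul_unop, MulOpposite.unop_op]
  rw [dotProduct_comm (w j) (w i), sq]

theorem aux_cs (w : ι → Fin d → ℝ) (i j : ι) :
    (w i ⬝ᵥ w j) ^ 2 ≤ (w i ⬝ᵥ w i) * (w j ⬝ᵥ w j) := by
  have h := Finset.sum_mul_sq_le_sq_mul_sq Finset.univ (w i) (w j)
  simpa only [dotProduct, sq] using h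

theorem aux_le_one (w : ι → Fin d → ℝ) (hI : ∑ i, vecMulVec (w i) (w i) = 1) (i : ι)
    (hc : 0 < w i ⬝ᵥ w i) : w i ⬝ᵥ w i ≤ 1 := by
  have h := aux_row w hI i
  have h2 : (w i ⬝ᵥ w i) ^ 2 ≤ ∑ j, (w i ⬝ᵥ w j) ^ 2 :=
    Finset.single_le_sum (f := fun j => (w i ⬝ᵥ w j) ^ 2) (fun j _ => sq_nonneg _)
      (Finset.mem_univ i)
  rw [h, sq] at h2
  exact le_of_mul_le_mul_right (by linarith) hc

theorem aux_rho (w : ι → Fin d → ℝ) (i j : ι) (hi : 0 < w i ⬝ᵥ w i) (hj : 0 < w j ⬝ᵥ w j) :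
    -1 ≤ (w i ⬝ᵥ w j) / √((w i ⬝ᵥ w i) * (w j ⬝ᵥ w j)) ∧
      (w i ⬝ᵥ w j) / √((w i ⬝ᵥ w i) * (w j ⬝ᵥ w j)) ≤ 1 := by
  rw [← abs_le, abs_div, abs_of_nonneg (Real.sqrt_nonneg _),
    div_le_one (Real.sqrt_pos.2 (mul_pos hi hj))]
  exact Real.abs_le_sqrt (aux_cs w i j)

theorem aux_rho_sq (w : ι → Fin d → ℝ) (i j : ι) (hi : 0 < w i ⬝ᵥ w i) (hj : 0 < w j ⬝ᵥ w j) :
    ((w i ⬝ᵥ w j) / √((w i ⬝ᵥ w i) * (w j ⬝ᵥ w j))) ^ 2 =
      (w i ⬝ᵥ w j) ^ 2 / ((w i ⬝ᵥ w i) * (w j ⬝ᵥ w j)) := by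
  rw [div_pow, Real.sq_sqrt (mul_pos hi hj).le]

end aux

theorem B_two
    (hPol : ∀ r : ℝ, -1 ≤ r → r ≤ 1 → 0.2 * (1 - r) + 0.14 * (1 - r ^ 2) ≤ Pol (√(1 - r)))
    (hscal : ∀ c : ℝ, 1 / 2 ≤ c → c ≤ 1 →
      -(c * Real.log c) - (1 - c) * Real.log 2 ≤ 0.34 * ((1 - c) * (2 * c - 1) / c))
    {d : ℕ} {ι : Type*} [Fintype ι] (w : ι → Fin d → ℝ)
    (hI : ∑ i, vecMulVec (w i) (w i) = 1) (hc : ∀ i, 1 / 2 ≤ w i ⬝ᵥ w i)
    (hframe : (∀ i, 0 < w i ⬝ᵥ w i) →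
    (∑ i, (1 - w i ⬝ᵥ w i) * (2 * (w i ⬝ᵥ w i) - 1) / (w i ⬝ᵥ w i) ≤
      ∑ i, ∑ j, (w i ⬝ᵥ w j) ^ 2 *
        (1 - (w i ⬝ᵥ w j) / √((w i ⬝ᵥ w i) * (w j ⬝ᵥ w j)))) ∧
    (∑ i, (1 - w i ⬝ᵥ w i) * (2 * (w i ⬝ᵥ w i) - 1) / (w i ⬝ᵥ w i) ≤
      ∑ i, ∑ j, (w i ⬝ᵥ w j) ^ 2 *
        (1 - ((w i ⬝ᵥ w j) / √((w i ⬝ᵥ w i) * (w j ⬝ᵥ w j))) ^ 2))) :
    -(Fintype.card ι * Ab 2 + d * Bb 2) ≤ Expo w := by
  have hpos : ∀ i, 0 < w i ⬝ᵥ w i := fun i => lt_of_lt_of_le (by norm_num) (hc i)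
  obtain ⟨hf1, hf2⟩ := hframe hpos
  have hA : Ab 2 = Real.log 2 := by
    unfold Ab
    norm_num
  have hB : Bb 2 = -Real.log 2 := by
    unfold Bb
    norm_num
  have htr := aux_trace w hI
  have h1 : 0.2 * (∑ i, ∑ j, (w i ⬝ᵥ w j) ^ 2 *
        (1 - (w i ⬝ᵥ w j) / √((w i ⬝ᵥ w i) * (w j ⬝ᵥ w j)))) +
      0.14 * (∑ i, ∑ j, (w i ⬝ᵥ w j) ^ 2 *
        (1 - ((w i ⬝ᵥ w j) / √((w i ⬝ᵥ w i) * (w j ⬝ᵥ w j))) ^ 2)) ≤
      ∑ i, ∑ j, (w i ⬝ᵥ w j) ^ 2 *
        Pol (√(1 - (w i ⬝ᵥ w j) / √((w i ⬝ᵥ w i) * (w j ⬝ᵥ w j)))) := by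
    rw [Finset.mul_sum, Finset.mul_sum, ← Finset.sum_add_distrib]
    refine Finset.sum_le_sum fun i _ => ?_
    rw [Finset.mul_sum, Finset.mul_sum, ← Finset.sum_add_distrib]
    refine Finset.sum_le_sum fun j _ => ?_
    obtain ⟨hr1, hr2⟩ := aux_rho w i j (hpos i) (hpos j)
    have h3 := mul_le_mul_of_nonneg_left (hPol _ hr1 hr2) (sq_nonneg (w i ⬝ᵥ w j))
    linarith
  have h2 : ∑ i, (-((w i ⬝ᵥ w i) * Real.log (w i ⬝ᵥ w i)) - (1 - w i ⬝ᵥ w i) * Real.log 2) ≤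
      ∑ i, 0.34 * ((1 - w i ⬝ᵥ w i) * (2 * (w i ⬝ᵥ w i) - 1) / (w i ⬝ᵥ w i)) :=
    Finset.sum_le_sum fun i _ => hscal _ (hc i) (aux_le_one w hI i (hpos i))
  rw [← Finset.mul_sum, Finset.sum_sub_distrib, Finset.sum_neg_distrib, ← Finset.sum_mul,
    Finset.sum_sub_distrib, htr, Finset.sum_const, Finset.card_univ, nsmul_eq_mul, mul_one] at h2
  unfold Expo
  rw [hA, hB]
  linarith

theorem B_three
    (hPol : ∀ r : ℝ, -1 ≤ r → r ≤ 1 → 0.2622 * (1 - r ^ 2) ≤ Pol (√(1 - r)))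
    (hset : ∀ (b : ℕ) (_ : 3 ≤ b),
    ∃ a : ℝ, 0 ≤ a ∧ a ≤ 1 ∧ Ab b - a / b ≤ 0.2622 ∧
      ∀ {ι : Type} (Y : Finset ι) (c : ι → ℝ), (∀ i ∈ Y, 1 / (b : ℝ) ≤ c i) →
        (∀ i ∈ Y, c i ≤ 1 / ((b : ℝ) - 1)) →
        ∑ i ∈ Y, (-(c i * Real.log (c i)) - Ab b - Bb b * c i) ≤
          (Ab b * (Y.card : ℝ) - 1) * (∑ i ∈ Y, c i - 1) - a * (∑ i ∈ Y, c i - 1) ^ 2)
    {ι : Type} [Fintype ι]
    (hbern : ∀ (A a : ℝ) (c f : ι → ℝ),
      (∀ Y : Finset ι, ∑ i ∈ Y, f i ≤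
        (A * (Y.card : ℝ) - 1) * (∑ i ∈ Y, c i - 1) - a * (∑ i ∈ Y, c i - 1) ^ 2) →
      ∀ (p : ι → ℝ), (∀ i, 0 ≤ p i) → (∀ i, p i ≤ 1) → (∑ i, c i * p i = 1) →
      ∑ i, p i * f i ≤ A * ∑ i, c i * p i * (1 - p i) - a * ∑ i, (c i) ^ 2 * p i * (1 - p i))
    {d : ℕ} (w : ι → Fin d → ℝ)
    (hI : ∑ i, vecMulVec (w i) (w i) = 1) (b : ℕ) (hb : 3 ≤ b)
    (hc : ∀ i, 1 / (b : ℝ) ≤ w i ⬝ᵥ w i) (hc' : ∀ i, w i ⬝ᵥ w i ≤ 1 / ((b : ℝ) - 1)) :
    -(Fintype.card ι * Ab b + d * Bb b) ≤ Expo w := by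
  have hb0 : (0 : ℝ) < b := by
    have : 0 < b := by omega
    exact_mod_cast this
  have hpos : ∀ i, 0 < w i ⬝ᵥ w i := fun i => lt_of_lt_of_le (by positivity) (hc i)
  have htr := aux_trace w hI
  obtain ⟨a, ha0, ha1, haA, hset'⟩ := hset b hb
  set c : ι → ℝ := fun i => w i ⬝ᵥ w i with hcdef
  set f : ι → ℝ := fun i => -(c i * Real.log (c i)) - Ab b - Bb b * c i with hfdef
  have hcpos : ∀ i, 0 < c i := hpos
  let p : ι → ι → ℝ := fun i j => (w i ⬝ᵥ w j) ^ 2 / (c i * c j)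
  have hp0 : ∀ i j, 0 ≤ p i j := fun i j =>
    div_nonneg (sq_nonneg _) (mul_pos (hcpos i) (hcpos j)).le
  have hp1 : ∀ i j, p i j ≤ 1 := fun i j =>
    (div_le_one (mul_pos (hcpos i) (hcpos j))).2 (aux_cs w i j)
  have hsum : ∀ i, ∑ j, c j * p i j = 1 := by
    intro i
    have e : ∀ j, c j * p i j = (w i ⬝ᵥ w j) ^ 2 / c i := by
      intro j
      have h1 := (hcpos i).ne'
      have h2 := (hcpos j).ne'
      show c j * ((w i ⬝ᵥ w j) ^ 2 / (c i * c j)) = _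
      field_simp
    simp only [e]
    rw [← Finset.sum_div, aux_row w hI i]
    exact div_self (hcpos i).ne'
  have hsum' : ∀ j, ∑ i, c i * p i j = 1 := by
    intro j
    rw [← hsum j]
    refine Finset.sum_congr rfl fun i _ => ?_
    show c i * ((w i ⬝ᵥ w j) ^ 2 / (c i * c j)) = c i * ((w j ⬝ᵥ w i) ^ 2 / (c j * c i))
    rw [dotProduct_comm (w i) (w j), mul_comm (c i) (c j)]
  have hrow : ∀ i, ∑ j, p i j * f j ≤ 0.2622 * ∑ j, c j * p i j * (1 - p i j) := by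
    intro i
    have h1 := hbern (Ab b) a c f
      (fun Y => hset' Y c (fun i _ => hc i) (fun i _ => hc' i)) (p i) (hp0 i) (hp1 i) (hsum i)
    have h2 : (1 / (b : ℝ)) * ∑ j, c j * p i j * (1 - p i j) ≤
        ∑ j, (c j) ^ 2 * p i j * (1 - p i j) := by
      rw [Finset.mul_sum]
      refine Finset.sum_le_sum fun j _ => ?_
      have h3 : 0 ≤ c j * (p i j * (1 - p i j)) :=
        mul_nonneg (hcpos j).le (mul_nonneg (hp0 i j) (sub_nonneg.2 (hp1 i j)))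
      have h4 := mul_le_mul_of_nonneg_right (hc j) h3
      calc 1 / (b : ℝ) * (c j * p i j * (1 - p i j)) = 1 / (b : ℝ) * (c j * (p i j * (1 - p i j))) := by ring
        _ ≤ c j * (c j * (p i j * (1 - p i j))) := h4
        _ = _ := by ring
    have h5 : 0 ≤ ∑ j, c j * p i j * (1 - p i j) :=
      Finset.sum_nonneg fun j _ => mul_nonneg (mul_nonneg (hcpos j).le (hp0 i j))
        (sub_nonneg.2 (hp1 i j))
    have h6 := mul_le_mul_of_nonneg_left h2 ha0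
    have h7 := mul_le_mul_of_nonneg_right haA h5
    have h8 : (Ab b - a / b) * ∑ j, c j * p i j * (1 - p i j) =
        Ab b * ∑ j, c j * p i j * (1 - p i j) -
          a * (1 / (b : ℝ) * ∑ j, c j * p i j * (1 - p i j)) := by ring
    linarith
  have hall : ∑ j, f j ≤ 0.2622 * ∑ i, ∑ j, (w i ⬝ᵥ w j) ^ 2 *
      (1 - ((w i ⬝ᵥ w j) / √((w i ⬝ᵥ w i) * (w j ⬝ᵥ w j))) ^ 2) := by
    have h1 : ∑ i, c i * ∑ j, p i j * f j ≤
        ∑ i, c i * (0.2622 * ∑ j, c j * p i j * (1 - p i j)) :=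
      Finset.sum_le_sum fun i _ => mul_le_mul_of_nonneg_left (hrow i) (hcpos i).le
    have h2 : ∑ i, c i * ∑ j, p i j * f j = ∑ j, f j := by
      simp only [Finset.mul_sum]
      rw [Finset.sum_comm]
      refine Finset.sum_congr rfl fun j _ => ?_
      have : ∀ i, c i * (p i j * f j) = (c i * p i j) * f j := fun i => by ring
      simp only [this]
      rw [← Finset.sum_mul, hsum', one_mul]
    rw [h2] at h1
    refine h1.trans (le_of_eq ?_)
    rw [Finset.mul_sum]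
    refine Finset.sum_congr rfl fun i _ => ?_
    rw [mul_left_comm, Finset.mul_sum]
    congr 1
    refine Finset.sum_congr rfl fun j _ => ?_
    rw [aux_rho_sq w i j (hpos i) (hpos j)]
    have h1 := (hcpos i).ne'
    have h2 := (hcpos j).ne'
    show c i * (c j * ((w i ⬝ᵥ w j) ^ 2 / (c i * c j)) * (1 - (w i ⬝ᵥ w j) ^ 2 / (c i * c j))) =
      (w i ⬝ᵥ w j) ^ 2 * (1 - (w i ⬝ᵥ w j) ^ 2 / (c i * c j))
    field_simp
  have hpol : 0.2622 * ∑ i, ∑ j, (w i ⬝ᵥ w j) ^ 2 *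
      (1 - ((w i ⬝ᵥ w j) / √((w i ⬝ᵥ w i) * (w j ⬝ᵥ w j))) ^ 2) ≤
      ∑ i, ∑ j, (w i ⬝ᵥ w j) ^ 2 *
        Pol (√(1 - (w i ⬝ᵥ w j) / √((w i ⬝ᵥ w i) * (w j ⬝ᵥ w j)))) := by
    rw [Finset.mul_sum]
    refine Finset.sum_le_sum fun i _ => ?_
    rw [Finset.mul_sum]
    refine Finset.sum_le_sum fun j _ => ?_
    obtain ⟨hr1, hr2⟩ := aux_rho w i j (hpos i) (hpos j)
    have h3 := mul_le_mul_of_nonneg_left (hPol _ hr1 hr2) (sq_nonneg (w i ⬝ᵥ w j))
    linarith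
  have hfs : ∑ j, f j = -∑ i, c i * Real.log (c i) - Fintype.card ι * Ab b - Bb b * d := by
    show ∑ j, (-(c j * Real.log (c j)) - Ab b - Bb b * c j) = _
    rw [Finset.sum_sub_distrib, Finset.sum_sub_distrib, Finset.sum_neg_distrib, ← Finset.mul_sum,
      Finset.sum_const, Finset.card_univ, nsmul_eq_mul, htr]
  unfold Expo
  have : ∑ i, (w i ⬝ᵥ w i) * Real.log (w i ⬝ᵥ w i) = ∑ i, c i * Real.log (c i) := rfl
  rw [this]
  linarith

end J7843

end Pool.Agent.Helper7.Simplex
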