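import Pool.Agent.Helper7.Simplex.Defs

open MeasureTheory ProbabilityTheory Matrix
open scoped ENNReal

namespace Pool.Agent.Helper7.Simplex

namespace J7763

theorem R_det {k : ℕ} {ι : Type*} [Fintype ι] (x : ι → Fin k → ℝ) (h0 : ∑ i, x i = 0)
    (h1 : ∑ i, vecMulVec (x i) (x i) = 1) :
    (∑ i, vecMulVec (Matrix.vecCons 1 (x i) : Fin (k + 1) → ℝ)
      (Matrix.vecCons 1 (x i) : Fin (k + 1) → ℝ)).det = Fintype.card ι := by
  classical
  have hx : ∀ a, ∑ i, x i a = 0 := by
    intro a
    have := congrFun h0 a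
    simpa using this
  have hd : (∑ i, vecMulVec (Matrix.vecCons 1 (x i) : Fin (k + 1) → ℝ)
      (Matrix.vecCons 1 (x i) : Fin (k + 1) → ℝ)) =
      Matrix.diagonal (Matrix.vecCons (Fintype.card ι : ℝ) (fun _ => 1) : Fin (k + 1) → ℝ) := by
    ext a b
    rw [Matrix.sum_apply]
    simp only [vecMulVec_apply]
    refine Fin.cases ?_ (fun a => ?_) a
    · refine Fin.cases ?_ (fun b => ?_) b
      · simp
      · simp only [Matrix.cons_val_zero, Matrix.cons_val_succ, one_mul]
        rw [hx, Matrix.diagonal_apply_ne _ (Fin.succ_ne_zero b).symm]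
    · refine Fin.cases ?_ (fun b => ?_) b
      · simp only [Matrix.cons_val_zero, Matrix.cons_val_succ, mul_one]
        rw [hx, Matrix.diagonal_apply_ne _ (Fin.succ_ne_zero a)]
      · simp only [Matrix.cons_val_succ]
        have h2 := congrFun (congrFun h1 a) b
        rw [Matrix.sum_apply] at h2
        simp only [vecMulVec_apply] at h2
        rw [h2]
        by_cases hab : a = b
        · subst hab
          simp
        · rw [Matrix.one_apply_ne hab, Matrix.diagonal_apply_ne _
            (fun h => hab (Fin.succ_injective _ h))]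
  rw [hd, Matrix.det_diagonal, Fin.prod_univ_succ]
  simp

theorem R_block {k : ℕ} {ι : Type*} [Fintype ι] (p : ι → Fin (k + 1)) (w : Fin (k + 1) → Fin (k + 1) → ℝ) :
    (∑ i, vecMulVec (w (p i)) (w (p i))).det =
      (∏ a, (((Finset.univ.filter (fun i => p i = a)).card : ℕ) : ℝ)) *
        (Matrix.of w).det ^ 2 := by
  classical
  have hd : (∑ i, vecMulVec (w (p i)) (w (p i))) =
      (Matrix.of w)ᵀ * Matrix.diagonal
        (fun a => (((Finset.univ.filter (fun i => p i = a)).card : ℕ) : ℝ)) * Matrix.of w := by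
    ext b c
    rw [Matrix.sum_apply, Matrix.mul_apply]
    simp only [vecMulVec_apply, Matrix.mul_diagonal, Matrix.transpose_apply, Matrix.of_apply]
    rw [← Finset.sum_fiberwise (s := Finset.univ) (g := p)]
    refine Finset.sum_congr rfl fun a _ => ?_
    have : ∀ i ∈ Finset.univ.filter (fun i => p i = a), w (p i) b * w (p i) c = w a b * w a c := by
      intro i hi
      rw [(Finset.mem_filter.mp hi).2]
    rw [Finset.sum_congr rfl this, Finset.sum_const, nsmul_eq_mul]
    ring
  rw [hd, Matrix.det_mul, Matrix.det_mul, Matrix.det_transpose, Matrix.det_diagonal]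
  ring

end J7763

namespace J7765

theorem R_prod {k l : ℕ} (hl : 1 ≤ l) (m : Fin (k + 1) → ℕ) (hm : ∀ a, m a = l ∨ m a = l + 1) :
    Real.exp (((∑ a, m a : ℕ) : ℝ) * Ab (l + 1) + ((k + 1 : ℕ) : ℝ) * Bb (l + 1)) =
      ∏ a, (m a : ℝ) := by
  have hl0 : (0:ℝ) < l := by exact_mod_cast hl
  have hAb : Ab (l + 1) = Real.log (l + 1) - Real.log l := by
    unfold Ab
    have : (((l + 1 : ℕ) : ℝ) - 1) = l := by push_cast; ring
    rw [this, Real.log_div (by positivity) hl0.ne']
    push_cast
    rfl
  have hBb : Bb (l + 1) = (l + 1) * Real.log l - l * Real.log (l + 1) := by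
    unfold Bb
    have : (((l + 1 : ℕ) : ℝ) - 1) = l := by push_cast; ring
    rw [this]
    push_cast
    rfl
  have key : ∀ a, (m a : ℝ) * Ab (l + 1) + Bb (l + 1) = Real.log (m a) := by
    intro a
    rw [hAb, hBb]
    rcases hm a with h | h
    · rw [h]; ring
    · rw [h]; push_cast; ring
  have e : (((∑ a, m a : ℕ) : ℝ) * Ab (l + 1) + ((k + 1 : ℕ) : ℝ) * Bb (l + 1))
      = ∑ a, Real.log (m a) := by
    rw [← Finset.sum_congr rfl (fun a _ => key a), Finset.sum_add_distrib, ← Finset.sum_mul]
    simp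
  rw [e, Real.exp_sum]
  apply Finset.prod_congr rfl
  intro a _
  apply Real.exp_log
  rcases hm a with h | h
  · rw [h]; exact hl0
  · rw [h]; positivity

end J7765

end Pool.Agent.Helper7.Simplex
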