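import Pool.Agent.Helper7.Simplex.Defs

open MeasureTheory ProbabilityTheory Matrix
open scoped ENNReal

namespace Pool.Agent.Helper7.Simplex

variable {V : Type*} [NormedAddCommGroup V] [InnerProductSpace ℝ V] [FiniteDimensional ℝ V]

namespace J7761

theorem R_frame {n : ℕ} (hV : Module.finrank ℝ V = n) (v : Fin (n + 1) → V)
    (hv : ∀ i j, i ≠ j → dist (v i) (v j) = √2) (x : V) :
    ∑ i, (inner ℝ (v i - ((n : ℝ) + 1)⁻¹ • ∑ j, v j) x) ^ 2 = ‖x‖ ^ 2 := by
  have hn1 : ((n : ℝ) + 1) ≠ 0 := by positivity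
  set c : V := ((n : ℝ) + 1)⁻¹ • ∑ j, v j with hc
  set u : Fin (n + 1) → V := fun i => v i - c with hu
  have hsum : ∑ i, u i = 0 := by
    simp only [hu, Finset.sum_sub_distrib, Finset.sum_const, Finset.card_univ, Fintype.card_fin]
    rw [hc, ← Nat.cast_smul_eq_nsmul ℝ, smul_smul]
    push_cast
    rw [mul_inv_cancel₀ hn1, one_smul, sub_self]
  have hdist : ∀ i j, i ≠ j → ‖u i - u j‖ ^ 2 = 2 := by
    intro i j hij
    have h1 : u i - u j = v i - v j := by simp [hu]
    rw [h1, ← dist_eq_norm, hv i j hij]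
    exact Real.sq_sqrt (by norm_num)
  have hexp : ∀ i j, ‖u i - u j‖ ^ 2 = ‖u i‖ ^ 2 + ‖u j‖ ^ 2 - 2 * inner ℝ (u i) (u j) := by
    intro i j
    rw [norm_sub_sq_real]; ring
  set Q : ℝ := ∑ j, ‖u j‖ ^ 2 with hQ
  have hrow : ∀ i, ∑ j, ‖u i - u j‖ ^ 2 = 2 * n := by
    intro i
    rw [← Finset.add_sum_erase _ _ (Finset.mem_univ i)]
    rw [sub_self, norm_zero]
    rw [Finset.sum_congr rfl (fun j hj => hdist i j (Finset.ne_of_mem_erase hj).symm)]
    rw [Finset.sum_const, Finset.card_erase_of_mem (Finset.mem_univ i), Finset.card_univ, Fintype.card_fin]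
    simp
    ring
  have hrow2 : ∀ i, ∑ j, ‖u i - u j‖ ^ 2 = ((n : ℝ) + 1) * ‖u i‖ ^ 2 + Q := by
    intro i
    simp_rw [hexp]
    rw [Finset.sum_sub_distrib, Finset.sum_add_distrib, ← Finset.mul_sum, ← inner_sum, hsum, inner_zero_right]
    rw [Finset.sum_const, Finset.card_univ, Fintype.card_fin, nsmul_eq_mul]
    push_cast
    ring
  have hQn : Q = n := by
    have h1 : ∑ i, ∑ j, ‖u i - u j‖ ^ 2 = ((n : ℝ) + 1) * (2 * n) := by
      rw [Finset.sum_congr rfl (fun i _ => hrow i), Finset.sum_const, Finset.card_univ, Fintype.card_fin, nsmul_eq_mul]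
      push_cast; ring
    have h2 : ∑ i, ∑ j, ‖u i - u j‖ ^ 2 = ((n : ℝ) + 1) * Q + ((n : ℝ) + 1) * Q := by
      rw [Finset.sum_congr rfl (fun i _ => hrow2 i), Finset.sum_add_distrib, ← Finset.mul_sum, Finset.sum_const,
        Finset.card_univ, Fintype.card_fin, nsmul_eq_mul]
      push_cast; ring
    have h3 : ((n : ℝ) + 1) * Q = ((n : ℝ) + 1) * n := by linarith
    exact mul_left_cancel₀ hn1 h3
  have hnorm : ∀ i, ((n : ℝ) + 1) * ‖u i‖ ^ 2 = n := by
    intro i
    have := hrow i
    rw [hrow2 i, hQn] at this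
    linarith
  have hgram : ∀ i j, inner ℝ (u i) (u j) = (if i = j then (1 : ℝ) else 0) - ((n : ℝ) + 1)⁻¹ := by
    intro i j
    have hni : ‖u i‖ ^ 2 = 1 - ((n : ℝ) + 1)⁻¹ := by
      have := hnorm i
      field_simp
      linarith
    have hnj : ‖u j‖ ^ 2 = 1 - ((n : ℝ) + 1)⁻¹ := by
      have := hnorm j
      field_simp
      linarith
    by_cases hij : i = j
    · subst hij
      rw [real_inner_self_eq_norm_sq, hni]; simp
    · have h1 := hexp i j
      rw [hdist i j hij, hni, hnj] at h1
      simp [hij]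
      linarith
  have hinner : ∀ (b : Fin (n + 1) → ℝ) (i : Fin (n + 1)),
      inner ℝ (u i) (∑ j, b j • u j) = b i - ((n : ℝ) + 1)⁻¹ * ∑ j, b j := by
    intro b i
    rw [inner_sum]
    simp_rw [inner_smul_right, hgram, mul_sub, Finset.sum_sub_distrib]
    simp [mul_comm, Finset.sum_mul]
  have hli : LinearIndependent ℝ (fun i : Fin n => u i.succ) := by
    rw [Fintype.linearIndependent_iff]
    intro a ha
    set b : Fin (n + 1) → ℝ := Fin.cons 0 a with hb
    have hb0 : ∑ j, b j • u j = 0 := by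
      rw [Fin.sum_univ_succ]
      simp [hb, ha]
    have hbi : ∀ i, b i = ((n : ℝ) + 1)⁻¹ * ∑ j, b j := by
      intro i
      have := hinner b i
      rw [hb0, inner_zero_right] at this
      linarith
    have h0 : b 0 = 0 := by simp [hb]
    have hz : ((n : ℝ) + 1)⁻¹ * ∑ j, b j = 0 := by rw [← hbi 0, h0]
    intro i
    have := hbi i.succ
    rw [hz] at this
    simpa [hb] using this
  have hspan : Submodule.span ℝ (Set.range (fun i : Fin n => u i.succ)) = ⊤ := by
    rcases Nat.eq_zero_or_pos n with h0 | hpos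
    · subst h0
      rw [eq_top_iff]
      intro y _
      have : Subsingleton V := Module.finrank_zero_iff.mp hV
      have : y = 0 := Subsingleton.elim _ _
      rw [this]
      exact Submodule.zero_mem _
    · have : Nonempty (Fin n) := ⟨⟨0, hpos⟩⟩
      exact hli.span_eq_top_of_card_eq_finrank (by simp [hV])
  have hx : x ∈ Submodule.span ℝ (Set.range (fun i : Fin n => u i.succ)) := by rw [hspan]; trivial
  obtain ⟨a, ha⟩ := (Submodule.mem_span_range_iff_exists_fun ℝ).mp hx
  set b : Fin (n + 1) → ℝ := Fin.cons 0 a with hb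
  have hxb : x = ∑ j, b j • u j := by
    rw [Fin.sum_univ_succ]
    simp [hb, ha]
  have hnx : ‖x‖ ^ 2 = ∑ i, (b i) ^ 2 - ((n : ℝ) + 1)⁻¹ * (∑ j, b j) ^ 2 := by
    rw [← real_inner_self_eq_norm_sq]
    nth_rewrite 1 [hxb]
    rw [sum_inner]
    simp_rw [inner_smul_left, hxb, hinner]
    simp only [conj_trivial, mul_sub, Finset.sum_sub_distrib]
    rw [← Finset.sum_mul]
    congr 1
    · exact Finset.sum_congr rfl (fun i _ => by ring)
    · ring
  have hux : ∀ i, inner ℝ (v i - c) x = b i - ((n : ℝ) + 1)⁻¹ * ∑ j, b j := by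
    intro i
    have := hinner b i
    rw [← hxb] at this
    exact this
  simp_rw [hux]
  rw [hnx]
  simp_rw [sub_sq]
  rw [Finset.sum_add_distrib, Finset.sum_sub_distrib, Finset.sum_const, Finset.card_univ, Fintype.card_fin, nsmul_eq_mul]
  have h5 : ∑ i, 2 * b i * (((n : ℝ) + 1)⁻¹ * ∑ j, b j) = 2 * (((n : ℝ) + 1)⁻¹) * (∑ j, b j) ^ 2 := by
    rw [← Finset.sum_mul, ← Finset.mul_sum]; ring
  rw [h5]
  push_cast
  field_simp
  ring

end J7761

namespace J7762

/-- the `k`-dimensional volume of the orthogonal projection of `K` onto `E` -/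
noncomputable def projVol [MeasurableSpace V] [BorelSpace V] (k : ℕ) (E : Submodule ℝ V)
    (K : Set V) : ℝ≥0∞ :=
  μHE[k] (E.starProjection '' K)

theorem projVol_eq [MeasurableSpace V] [BorelSpace V] (E : Submodule ℝ V) (K : Set V) :
    projVol (Module.finrank ℝ E) E K =
      volume ((fun x => (stdOrthonormalBasis ℝ E).repr (E.orthogonalProjectionOnto x)) '' K) := by
  have e1 : E.starProjection '' K = Subtype.val '' (E.orthogonalProjectionOnto '' K) := by
    rw [Set.image_image]
    rfl
  unfold projVol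
  rw [e1, isometry_subtype_coe.euclideanHausdorffMeasure_image,
    ← (stdOrthonormalBasis ℝ E).repr.isometry.euclideanHausdorffMeasure_image,
    EuclideanSpace.euclideanHausdorffMeasure_eq_volume, Set.image_image]

theorem j7762_polar {ι : Type*} [Fintype ι] (w : ι → V)
    (hf : ∀ x : V, ∑ i, (inner ℝ (w i) x) ^ 2 = ‖x‖ ^ 2)
    (x y : V) : ∑ i, inner ℝ (w i) x * inner ℝ (w i) y = inner ℝ x y := by
  have h1 := hf (x + y)
  have h2 := hf x
  have h3 := hf y
  have h4 : ∑ i, (inner ℝ (w i) (x + y)) ^ 2 =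
      ∑ i, (inner ℝ (w i) x) ^ 2 + 2 * ∑ i, inner ℝ (w i) x * inner ℝ (w i) y +
        ∑ i, (inner ℝ (w i) y) ^ 2 := by
    rw [Finset.mul_sum, ← Finset.sum_add_distrib, ← Finset.sum_add_distrib]
    refine Finset.sum_congr rfl fun i _ => ?_
    rw [inner_add_right]
    ring
  have h5 := norm_add_sq_real x y
  rw [h4, h2, h3, h5] at h1
  linarith

theorem j7762_ofLp {ι : Type*} [Fintype ι] (S : Set (EuclideanSpace ℝ ι)) :
    volume S = volume ((fun z : EuclideanSpace ℝ ι => (WithLp.ofLp z : ι → ℝ)) '' S) := by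
  have h := EuclideanSpace.volume_preserving_symm_measurableEquiv_toLp ι
  have e : (fun z : EuclideanSpace ℝ ι => (WithLp.ofLp z : ι → ℝ)) '' S =
      (MeasurableEquiv.toLp 2 (ι → ℝ)) ⁻¹' S := by
    ext z
    constructor
    · rintro ⟨y, hy, rfl⟩
      exact hy
    · intro hz
      exact ⟨WithLp.toLp 2 z, hz, rfl⟩
  rw [e]
  have h2 := h.symm
  exact (h2.measure_preimage_equiv S).symm

theorem R_coord [MeasurableSpace V] [BorelSpace V] {n k : ℕ} (v : Fin (n + 1) → V)
    (hf : ∀ x : V,
      ∑ i, (inner ℝ (v i - ((n : ℝ) + 1)⁻¹ • ∑ j, v j) x) ^ 2 = ‖x‖ ^ 2)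
    (E : Submodule ℝ (V)) (hE : Module.finrank ℝ E = k) :
    ∃ x : Fin (n + 1) → Fin k → ℝ,
      projVol k E (convexHull ℝ (Set.range v)) = volume (convexHull ℝ (Set.range x)) ∧
      ∑ i, x i = 0 ∧ ∑ i, vecMulVec (x i) (x i) = 1 ∧
      ∀ i j, v i - v j ∈ Eᗮ → x i = x j := by
  subst hE
  set c : V := ((n : ℝ) + 1)⁻¹ • ∑ j, v j with hc
  set b := stdOrthonormalBasis ℝ E with hb
  let L : V →ₗ[ℝ] (Fin (Module.finrank ℝ E) → ℝ) :=
    { toFun := fun y => WithLp.ofLp (b.repr (E.orthogonalProjectionOnto y))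
      map_add' := fun y z => by rw [map_add, map_add]; rfl
      map_smul' := fun r y => by rw [map_smul, map_smul]; rfl }
  have hL : ∀ y a, L y a = inner ℝ (b a : V) y := by
    intro y a
    show (b.repr (E.orthogonalProjectionOnto y)) a = _
    rw [b.repr_apply_apply]
    exact Submodule.inner_orthogonalProjectionOnto_eq_of_mem_left (b a) y
  refine ⟨fun i => L (v i - c), ?_, ?_, ?_, ?_⟩
  · have e1 : projVol (Module.finrank ℝ E) E (convexHull ℝ (Set.range v)) = volume (L '' convexHull ℝ (Set.range v)) := by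
      rw [projVol_eq, j7762_ofLp, Set.image_image]
      rfl
    have e2 : Set.range (fun i => L (v i - c)) = (fun z => z + -(L c)) '' (L '' Set.range v) := by
      rw [Set.image_image, ← Set.range_comp]
      congr 1
      funext i
      show L (v i - c) = L (v i) + -(L c)
      rw [map_sub, sub_eq_add_neg]
    have e3 : convexHull ℝ (Set.range (fun i => L (v i - c))) =
        (fun z => z + -(L c)) '' (L '' convexHull ℝ (Set.range v)) := by
      rw [e2, LinearMap.image_convexHull]
      have h1 := AffineMap.image_convexHull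
        ((AffineEquiv.constVAdd ℝ (Fin (Module.finrank ℝ E) → ℝ) (-(L c))).toAffineMap)
        (L '' Set.range v)
      have h2 : (⇑((AffineEquiv.constVAdd ℝ (Fin (Module.finrank ℝ E) → ℝ) (-(L c))).toAffineMap)) =
          (fun z : Fin (Module.finrank ℝ E) → ℝ => z + -(L c)) := by
        funext z
        show -(L c) +ᵥ z = z + -(L c)
        rw [vadd_eq_add, add_comm]
      rw [h2] at h1
      exact h1.symm
    rw [e1, e3, Set.image_add_right, measure_preimage_add_right]
  · rw [← map_sum, Finset.sum_sub_distrib, Finset.sum_const, Finset.card_univ, Fintype.card_fin]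
    have : (n + 1) • c = ∑ j, v j := by
      rw [hc, ← Nat.cast_smul_eq_nsmul ℝ, smul_smul]
      push_cast
      rw [mul_inv_cancel₀ (by positivity), one_smul]
    rw [this, sub_self, map_zero]
  · ext a b'
    rw [Matrix.sum_apply]
    have e1 : ∀ i, vecMulVec (L (v i - c)) (L (v i - c)) a b' =
        inner ℝ (v i - c) (b a : V) *
          inner ℝ (v i - c) (b b' : V) := by
      intro i
      rw [vecMulVec_apply, hL, hL, real_inner_comm, real_inner_comm (v i - c)]
    rw [Finset.sum_congr rfl (fun i _ => e1 i), j7762_polar (fun i => v i - c) hf]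
    have h1 := b.orthonormal
    rw [orthonormal_iff_ite] at h1
    have h2 := h1 a b'
    rw [Matrix.one_apply]
    exact h2
  · intro i j hij
    show L (v i - c) = L (v j - c)
    have h1 : L (v i - v j) = 0 := by
      funext a
      rw [hL]
      exact (Submodule.mem_orthogonal _ _).1 hij _ (b a).2
    have h2 : v i - c = (v i - v j) + (v j - c) := by abel
    rw [h2, map_add, h1, zero_add]

end J7762

namespace J7764

theorem R_finrank {n k : ℕ} (hV : Module.finrank ℝ V = n) (v : Fin (n + 1) → V)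
    (hv : ∀ i j, i ≠ j → dist (v i) (v j) = √2)
    (hf : ∀ x : V,
      ∑ i, (inner ℝ (v i - ((n : ℝ) + 1)⁻¹ • ∑ j, v j) x) ^ 2 = ‖x‖ ^ 2)
    (p : Fin (n + 1) → Fin (k + 1)) (hp : Function.Surjective p) :
    Module.finrank ℝ ((Submodule.span ℝ {x | ∃ i j, p i = p j ∧ x = v i - v j})ᗮ :
      Submodule ℝ (V)) = k := by
  classical
  obtain ⟨u, hu⟩ : ∃ u : Fin (n + 1) → V,
    u = fun i => v i - ((n : ℝ) + 1)⁻¹ • ∑ j, v j := ⟨_, rfl⟩
  have hn1 : ((n : ℝ) + 1) ≠ 0 := by positivity
  have husum : ∑ i, u i = 0 := by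
    rw [hu]
    rw [Finset.sum_sub_distrib, Finset.sum_const, Finset.card_univ, Fintype.card_fin,
      ← Nat.cast_smul_eq_nsmul ℝ, smul_smul]
    push_cast
    rw [mul_inv_cancel₀ hn1, one_smul, sub_self]
  have huv : ∀ i j, u i - u j = v i - v j := by
    intro i j; rw [hu]; simp
  let A : V →ₗ[ℝ] (Fin (n + 1) → ℝ) :=
    { toFun := fun x i => inner ℝ (u i) x
      map_add' := by intro x y; funext i; simp [inner_add_right]
      map_smul' := by intro a x; funext i; simp [inner_smul_right] }
  have hA : ∀ x i, A x i = inner ℝ (u i) x := fun x i => rfl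
  have hAinj : Function.Injective A := by
    rw [injective_iff_map_eq_zero]
    intro x hx
    have h1 := hf x
    have h2 : ∑ i, (inner ℝ (v i - ((n : ℝ) + 1)⁻¹ • ∑ j, v j) x) ^ 2 = (0:ℝ) := by
      apply Finset.sum_eq_zero
      intro i _
      have h3 : A x i = 0 := by rw [hx]; rfl
      rw [hA, hu] at h3
      simp only at h3
      rw [h3]; ring
    rw [h2] at h1
    have h4 : ‖x‖ = 0 := by
      have := h1.symm
      rwa [sq_eq_zero_iff] at this
    exact norm_eq_zero.mp h4
  let S : (Fin (n + 1) → ℝ) →ₗ[ℝ] ℝ :=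
    { toFun := fun b => ∑ i, b i
      map_add' := by intro x y; simp [Finset.sum_add_distrib]
      map_smul' := by intro a x; simp [Finset.mul_sum] }
  have hS : ∀ b, S b = ∑ i, b i := fun b => rfl
  let B : (Fin (k + 1) → ℝ) →ₗ[ℝ] (Fin (n + 1) → ℝ) :=
    { toFun := fun γ i => γ (p i)
      map_add' := by intro x y; rfl
      map_smul' := by intro a x; rfl }
  have hB : ∀ γ i, B γ i = γ (p i) := fun γ i => rfl
  have hBinj : Function.Injective B := by
    intro γ γ' h
    funext a
    obtain ⟨i, rfl⟩ := hp a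
    exact congrFun h i
  have hS1 : S (fun _ => 1) = (n : ℝ) + 1 := by
    rw [hS]; simp
  have hSne : S ≠ 0 := by
    intro h
    rw [h] at hS1
    simp at hS1
    exact hn1 hS1.symm
  have hSBne : S.comp B ≠ 0 := by
    intro h
    have h1 : (S.comp B) (fun _ => 1) = (n : ℝ) + 1 := hS1
    rw [h] at h1
    simp at h1
    exact hn1 h1.symm
  have hkerS : Module.finrank ℝ (LinearMap.ker S) = n := by
    have := Module.Dual.finrank_ker_add_one_of_ne_zero hSne
    rw [Module.finrank_fintype_fun_eq_card, Fintype.card_fin] at this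
    omega
  have hkerSB : Module.finrank ℝ (LinearMap.ker (S.comp B)) = k := by
    have := Module.Dual.finrank_ker_add_one_of_ne_zero hSBne
    rw [Module.finrank_fintype_fun_eq_card, Fintype.card_fin] at this
    omega
  have hSA : ∀ x, S (A x) = 0 := by
    intro x
    rw [hS]
    simp_rw [hA]
    rw [← sum_inner, husum, inner_zero_left]
  have hrange : LinearMap.range A = LinearMap.ker S := by
    apply Submodule.eq_of_le_of_finrank_eq
    · rintro _ ⟨x, rfl⟩
      exact hSA x
    · rw [LinearMap.finrank_range_of_inj hAinj, hkerS]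
      exact hV
  have hmemW : ∀ x, x ∈ (Submodule.span ℝ {x | ∃ i j, p i = p j ∧ x = v i - v j})ᗮ ↔
      ∀ i j, p i = p j → A x i = A x j := by
    intro x
    rw [Submodule.mem_orthogonal]
    constructor
    · intro h i j hij
      have h1 := h (v i - v j) (Submodule.subset_span ⟨i, j, hij, rfl⟩)
      rw [← huv, inner_sub_left] at h1
      rw [hA, hA]
      linarith
    · intro h w hw
      induction hw using Submodule.span_induction with
      | mem w hw =>
        obtain ⟨i, j, hij, rfl⟩ := hw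
        have h1 := h i j hij
        rw [hA, hA] at h1
        rw [← huv, inner_sub_left, h1, sub_self]
      | zero => exact inner_zero_left _
      | add a b _ _ iha ihb => rw [inner_add_left, iha, ihb, add_zero]
      | smul a b _ ihb => rw [inner_smul_left, ihb, mul_zero]
  have hmap : ((Submodule.span ℝ {x | ∃ i j, p i = p j ∧ x = v i - v j})ᗮ).map A
      = (LinearMap.ker (S.comp B)).map B := by
    ext b
    constructor
    · rintro ⟨x, hx, rfl⟩
      have hx' := (hmemW x).mp hx
      choose s hs using hp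
      have h1 : B (fun a => A x (s a)) = A x := by
        funext i
        rw [hB]
        exact hx' _ _ (hs (p i))
      refine ⟨fun a => A x (s a), ?_, h1⟩
      show S (B (fun a => A x (s a))) = 0
      rw [h1, hSA]
    · rintro ⟨γ, hγ, rfl⟩
      have h1 : B γ ∈ LinearMap.range A := by
        rw [hrange]
        exact hγ
      obtain ⟨x, hx⟩ := h1
      refine ⟨x, ?_, hx⟩
      apply (hmemW x).mpr
      intro i j hij
      rw [hx, hB, hB, hij]
  have e1 := (Submodule.equivMapOfInjective A hAinj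
    ((Submodule.span ℝ {x | ∃ i j, p i = p j ∧ x = v i - v j})ᗮ)).finrank_eq
  have e2 := (Submodule.equivMapOfInjective B hBinj (LinearMap.ker (S.comp B))).finrank_eq
  rw [e1, hmap, ← e2, hkerSB]

end J7764

end Pool.Agent.Helper7.Simplex
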