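import Pool.Agent.Helper7.Simplex.Defs

open MeasureTheory ProbabilityTheory Matrix
open scoped ENNReal

namespace Pool.Agent.Helper7.Simplex

namespace J7838

private theorem s2pi_pos : 0 < Real.sqrt (2 * Real.pi) := Real.sqrt_pos.2 (by positivity)

private theorem gpdf_pos' (u : ℝ) : 0 < gpdf u := by
  unfold gpdf
  have := s2pi_pos
  positivity

private theorem log_gpdf (u : ℝ) : Real.log (gpdf u) = -Real.log (Real.sqrt (2 * Real.pi)) - u ^ 2 / 2 := by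
  unfold gpdf
  rw [Real.log_mul (inv_ne_zero s2pi_pos.ne') (Real.exp_pos _).ne', Real.log_inv, Real.log_exp]
  ring

theorem M_pointwise
    (hb : ∀ u, 0 < gtail u ∧ gtail u < 1 ∧ gtail (-u) = 1 - gtail u ∧ HasDerivAt gtail (-gpdf u) u)
    {d : ℕ} {ι : Type*} [Fintype ι] (w : ι → Fin d → ℝ)
    (hI : ∑ i, vecMulVec (w i) (w i) = 1)
    (hK : ∀ t : ι → ℝ,
      0 < (∑ i, Real.exp (t i) • vecMulVec (w i) (w i)).det ∧
      ∑ i, (w i ⬝ᵥ w i) * t i + (1 / 2) * ∑ i, ∑ j, (w i ⬝ᵥ w j) ^ 2 * KK (t i - t j) ≤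
      Real.log (∑ i, Real.exp (t i) • vecMulVec (w i) (w i)).det)
    (hc : ∀ i, 0 < w i ⬝ᵥ w i) (y : Fin d → ℝ) :
    (∏ k, gpdf (y k)) *
      Real.exp ((1 / 2) * ∑ i, (w i ⬝ᵥ w i) * Real.log (w i ⬝ᵥ w i) +
        (1 / 2) * ∑ i, ∑ j, (w i ⬝ᵥ w j) ^ 2 *
          KK ((1 / 2) * (Real.log (w i ⬝ᵥ w i) - Real.log (w j ⬝ᵥ w j)) +
            ell ((w i ⬝ᵥ y) / √(w i ⬝ᵥ w i)) - ell ((w j ⬝ᵥ y) / √(w j ⬝ᵥ w j)))) ≤
    Real.exp (-∑ i, (-((w i ⬝ᵥ w i) * Real.log (gtail ((w i ⬝ᵥ y) / √(w i ⬝ᵥ w i)))))) *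
      (∑ i, (√(w i ⬝ᵥ w i) * lam ((w i ⬝ᵥ y) / √(w i ⬝ᵥ w i))) • vecMulVec (w i) (w i)).det := by
  -- entries of `hI`
  have hent : ∀ k l, ∑ i, w i k * w i l = if k = l then (1 : ℝ) else 0 := by
    intro k l
    have h := congrFun (congrFun hI k) l
    rw [Matrix.sum_apply] at h
    simp only [vecMulVec_apply, Matrix.one_apply] at h
    exact h
  have htr : ∑ i, (w i ⬝ᵥ w i) = (d : ℝ) := by
    have h := congrArg Matrix.trace hI
    rw [Matrix.trace_sum, Matrix.trace_one, Fintype.card_fin] at h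
    rw [← h]
    refine Finset.sum_congr rfl fun i _ => ?_
    rw [Matrix.trace_vecMulVec]
  have hyy : ∑ i, (w i ⬝ᵥ y) ^ 2 = ∑ k, y k ^ 2 := by
    have h1 : ∀ i, (w i ⬝ᵥ y) ^ 2 = ∑ k, ∑ l, (w i k * w i l) * (y k * y l) := by
      intro i
      rw [sq, dotProduct, Finset.sum_mul_sum]
      refine Finset.sum_congr rfl fun k _ => Finset.sum_congr rfl fun l _ => ?_
      ring
    simp_rw [h1]
    rw [Finset.sum_comm]
    refine Finset.sum_congr rfl fun k _ => ?_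
    rw [Finset.sum_comm]
    have h2 : ∀ l, ∑ i, (w i k * w i l) * (y k * y l) =
        (if k = l then (1 : ℝ) else 0) * (y k * y l) := by
      intro l
      rw [← Finset.sum_mul, hent k l]
    simp_rw [h2]
    simp [sq]
  set c : ι → ℝ := fun i => w i ⬝ᵥ w i with hcdef
  set u : ι → ℝ := fun i => (w i ⬝ᵥ y) / √(w i ⬝ᵥ w i) with hudef
  have hlam : ∀ v, 0 < lam v := fun v => div_pos (gpdf_pos' v) (hb v).1
  have hell : ∀ v, ell v = Real.log (gpdf v) - Real.log (gtail v) := by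
    intro v
    unfold ell lam
    exact Real.log_div (gpdf_pos' v).ne' (hb v).1.ne'
  let t : ι → ℝ := fun i => (1 / 2) * Real.log (c i) + ell (u i)
  have hexp : ∀ i, Real.exp (t i) = √(c i) * lam (u i) := by
    intro i
    have h1 : (1 / 2) * Real.log (c i) = Real.log (√(c i)) := by
      rw [Real.log_sqrt (hc i).le]; ring
    show Real.exp ((1 / 2) * Real.log (c i) + ell (u i)) = _
    rw [Real.exp_add, h1, Real.exp_log (Real.sqrt_pos.2 (hc i))]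
    unfold ell
    rw [Real.exp_log (hlam _)]
  obtain ⟨hpos, hineq⟩ := hK t
  have hdet : (∑ i, (√(c i) * lam (u i)) • vecMulVec (w i) (w i)).det =
      (∑ i, Real.exp (t i) • vecMulVec (w i) (w i)).det := by
    congr 1
    refine Finset.sum_congr rfl fun i _ => ?_
    rw [hexp]
  have hlogprod : (∏ k, gpdf (y k)) = Real.exp (∑ i, c i * Real.log (gpdf (u i))) := by
    have h1 : (∏ k, gpdf (y k)) = Real.exp (∑ k, Real.log (gpdf (y k))) := by
      rw [Real.exp_sum]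
      refine Finset.prod_congr rfl fun k _ => ?_
      rw [Real.exp_log (gpdf_pos' _)]
    rw [h1]
    congr 1
    simp_rw [log_gpdf]
    have h2 : ∀ i, c i * (-Real.log √(2 * Real.pi) - u i ^ 2 / 2) =
        -Real.log √(2 * Real.pi) * c i - (w i ⬝ᵥ y) ^ 2 / 2 := by
      intro i
      have h3 : c i * u i ^ 2 = (w i ⬝ᵥ y) ^ 2 := by
        show (w i ⬝ᵥ w i) * ((w i ⬝ᵥ y) / √(w i ⬝ᵥ w i)) ^ 2 = _
        rw [div_pow, Real.sq_sqrt (hc i).le]
        field_simp [(hc i).ne']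
      calc c i * (-Real.log √(2 * Real.pi) - u i ^ 2 / 2)
          = -Real.log √(2 * Real.pi) * c i - (c i * u i ^ 2) / 2 := by ring
        _ = _ := by rw [h3]
    simp_rw [h2]
    rw [Finset.sum_sub_distrib, Finset.sum_sub_distrib, ← Finset.mul_sum, ← Finset.sum_div,
      ← Finset.sum_div, hyy]
    have h4 : ∑ i, c i = (d : ℝ) := htr
    rw [h4]
    simp
    ring
  rw [hdet, hlogprod, ← Real.exp_log hpos, ← Real.exp_add, ← Real.exp_add, Real.exp_le_exp]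
  have hKK : ∀ i j, KK ((1 / 2) * (Real.log (c i) - Real.log (c j)) + ell (u i) - ell (u j)) =
      KK (t i - t j) := by
    intro i j
    congr 1
    show _ = (1 / 2) * Real.log (c i) + ell (u i) - ((1 / 2) * Real.log (c j) + ell (u j))
    ring
  have hct : ∑ i, c i * t i = (1 / 2) * ∑ i, c i * Real.log (c i) +
      ∑ i, c i * Real.log (gpdf (u i)) - ∑ i, c i * Real.log (gtail (u i)) := by
    rw [Finset.mul_sum, ← Finset.sum_add_distrib, ← Finset.sum_sub_distrib]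
    refine Finset.sum_congr rfl fun i _ => ?_
    show c i * ((1 / 2) * Real.log (c i) + ell (u i)) = _
    rw [hell]
    ring
  have hneg : -∑ i, (-(c i * Real.log (gtail (u i)))) = ∑ i, c i * Real.log (gtail (u i)) := by
    rw [Finset.sum_neg_distrib, neg_neg]
  rw [hneg]
  have hsum : ∑ i, ∑ j, (w i ⬝ᵥ w j) ^ 2 *
      KK ((1 / 2) * (Real.log (c i) - Real.log (c j)) + ell (u i) - ell (u j)) =
      ∑ i, ∑ j, (w i ⬝ᵥ w j) ^ 2 * KK (t i - t j) :=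
    Finset.sum_congr rfl fun i _ => Finset.sum_congr rfl fun j _ => by rw [hKK]
  rw [hsum]
  have h5 : ∑ i, c i * t i + (1 / 2) * ∑ i, ∑ j, (w i ⬝ᵥ w j) ^ 2 * KK (t i - t j) ≤
      Real.log (∑ i, Real.exp (t i) • vecMulVec (w i) (w i)).det := hineq
  rw [hct] at h5
  linarith

theorem M_phi
    (hb : ∀ u, 0 < gtail u ∧ gtail u < 1 ∧ gtail (-u) = 1 - gtail u ∧ HasDerivAt gtail (-gpdf u) u)
    (c : ℝ) (hc : 0 < c) (s : ℝ) :
    HasDerivAt (fun s => -(c * Real.log (gtail (s / √c)))) (√c * lam (s / √c)) s ∧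
    0 < √c * lam (s / √c) ∧ 0 < -(c * Real.log (gtail (s / √c))) := by
  obtain ⟨h1, h2, -, h4⟩ := hb (s / √c)
  have hs : 0 < √c := Real.sqrt_pos.2 hc
  refine ⟨?_, mul_pos hs (div_pos (gpdf_pos' _) h1), ?_⟩
  · have h5 : HasDerivAt (fun s : ℝ => s / √c) (1 / √c) s := (hasDerivAt_id s).div_const _
    have h4' : HasDerivAt (fun s : ℝ => gtail (s / √c)) (-gpdf (s / √c) * (1 / √c)) s :=
      HasDerivAt.comp (h₂ := gtail) (h := fun s : ℝ => s / √c) s h4 h5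
    have h6 := ((h4'.log h1.ne').const_mul c).neg
    refine h6.congr_deriv ?_
    unfold lam
    have h7 : c = √c * √c := (Real.mul_self_sqrt hc.le).symm

    field_simp
    rw [Real.sq_sqrt hc.le]
  · have h5 : Real.log (gtail (s / √c)) < 0 := Real.log_neg h1 h2
    nlinarith

end J7838

namespace J7840

theorem M_jensen {α : Type*} [MeasurableSpace α] (μ : Measure α) [IsProbabilityMeasure μ]
    (f : α → ℝ) (hf : Integrable f μ) :
    ENNReal.ofReal (Real.exp (∫ x, f x ∂μ)) ≤ ∫⁻ x, ENNReal.ofReal (Real.exp (f x)) ∂μ := by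
  obtain ⟨m, hm⟩ : ∃ m, m = ∫ x, f x ∂μ := ⟨_, rfl⟩
  rw [← hm]
  have hg : Integrable (fun x => Real.exp m * (f x + (1 - m))) μ :=
    (hf.add (integrable_const (1 - m))).const_mul _
  have hgi : ∫ x, Real.exp m * (f x + (1 - m)) ∂μ = Real.exp m := by
    rw [integral_const_mul, integral_add hf (integrable_const _), ← hm, integral_const]
    simp
  have hle : ∀ x, Real.exp m * (f x + (1 - m)) ≤ Real.exp (f x) := by
    intro x
    have h1 := Real.add_one_le_exp (f x - m)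
    have h2 : Real.exp (f x) = Real.exp m * Real.exp (f x - m) := by
      rw [← Real.exp_add]; congr 1; ring
    rw [h2]
    apply mul_le_mul_of_nonneg_left _ (Real.exp_pos m).le
    linarith
  have h3 : ENNReal.ofReal (∫ x, Real.exp m * (f x + (1 - m)) ∂μ) ≤
      ∫⁻ x, ENNReal.ofReal (Real.exp m * (f x + (1 - m))) ∂μ := by
    have hfin : ∫⁻ x, ENNReal.ofReal (Real.exp m * (f x + (1 - m))) ∂μ ≠ ⊤ :=
      hg.lintegral_lt_top.ne
    rw [integral_eq_lintegral_pos_part_sub_lintegral_neg_part hg]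
    refine le_trans (ENNReal.ofReal_le_ofReal (sub_le_self _ ENNReal.toReal_nonneg)) ?_
    rw [ENNReal.ofReal_toReal hfin]
  rw [hgi] at h3
  exact h3.trans (lintegral_mono fun x => ENNReal.ofReal_le_ofReal (hle x))

end J7840

namespace J7841

theorem M_main
    (hb : ∀ u, 0 < gtail u ∧ gtail u < 1 ∧ gtail (-u) = 1 - gtail u ∧ HasDerivAt gtail (-gpdf u) u)
    (hgrow : Continuous ell ∧ ∃ C : ℝ, 0 ≤ C ∧ ∀ u, |ell u| ≤ C * (1 + u ^ 2))
    {d : ℕ}
    (hdens : ∀ (f : (Fin d → ℝ) → ℝ≥0∞), Measurable f →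
      ∫⁻ y, f y ∂(Measure.pi (fun _ : Fin d => gaussianReal 0 1)) =
      ∫⁻ y : Fin d → ℝ, f y * ENNReal.ofReal (∏ i, gpdf (y i)))
    (hpair : ∀ (a b : Fin d → ℝ), a ⬝ᵥ a = 1 → b ⬝ᵥ b = 1 → ∀ (δ : ℝ),
      Integrable (fun y => KK (δ + ell (a ⬝ᵥ y) - ell (b ⬝ᵥ y)))
        (Measure.pi (fun _ : Fin d => gaussianReal 0 1)) ∧
      Pol (√(1 - a ⬝ᵥ b)) ≤ ∫ y, KK (δ + ell (a ⬝ᵥ y) - ell (b ⬝ᵥ y))
        ∂(Measure.pi (fun _ : Fin d => gaussianReal 0 1)))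
    (hjensen : ∀ (μ : Measure (Fin d → ℝ)) [IsProbabilityMeasure μ] (f : (Fin d → ℝ) → ℝ),
      Integrable f μ →
      ENNReal.ofReal (Real.exp (∫ x, f x ∂μ)) ≤ ∫⁻ x, ENNReal.ofReal (Real.exp (f x)) ∂μ)
    {ι : Type*} [Fintype ι] (w : ι → Fin d → ℝ)
    (hI : ∑ i, vecMulVec (w i) (w i) = 1)
    (S : Matrix (Fin d) (Fin d) ℝ) (hS : S.det ≠ 0) (h : Fin d → ℝ)
    (hh : ∀ i, h ⬝ᵥ (S *ᵥ w i) = 1)
    (hphi : ∀ (c : ℝ), 0 < c → ∀ (s : ℝ),
      HasDerivAt (fun s => -(c * Real.log (gtail (s / √c)))) (√c * lam (s / √c)) s ∧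
      0 < √c * lam (s / √c) ∧ 0 < -(c * Real.log (gtail (s / √c))))
    (hpoint : (∀ i, 0 < w i ⬝ᵥ w i) → ∀ y : Fin d → ℝ,
      (∏ k, gpdf (y k)) *
      Real.exp ((1 / 2) * ∑ i, (w i ⬝ᵥ w i) * Real.log (w i ⬝ᵥ w i) +
        (1 / 2) * ∑ i, ∑ j, (w i ⬝ᵥ w j) ^ 2 *
          KK ((1 / 2) * (Real.log (w i ⬝ᵥ w i) - Real.log (w j ⬝ᵥ w j)) +
            ell ((w i ⬝ᵥ y) / √(w i ⬝ᵥ w i)) - ell ((w j ⬝ᵥ y) / √(w j ⬝ᵥ w j)))) ≤
      Real.exp (-∑ i, (-((w i ⬝ᵥ w i) * Real.log (gtail ((w i ⬝ᵥ y) / √(w i ⬝ᵥ w i)))))) *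
      (∑ i, (√(w i ⬝ᵥ w i) * lam ((w i ⬝ᵥ y) / √(w i ⬝ᵥ w i))) • vecMulVec (w i) (w i)).det)
    (htrans : (∀ y : Fin d → ℝ, y ≠ 0 → ∃ i, w i ⬝ᵥ y ≠ 0) → ∀ (φ φ' : ι → ℝ → ℝ),
      (∀ i s, HasDerivAt (φ i) (φ' i s) s) → (∀ i s, 0 < φ' i s) → (∀ i s, 0 < φ i s) →
      ∫⁻ y : Fin d → ℝ, ENNReal.ofReal (Real.exp (-∑ i, φ i (w i ⬝ᵥ y)) * |S.det| *
      (∑ i, φ' i (w i ⬝ᵥ y) • vecMulVec (w i) (w i)).det) ≤ Vexp (fun i => S *ᵥ w i) h) :
    ENNReal.ofReal (|S.det| * Real.exp (Expo w / 2)) ≤ Vexp (fun i => S *ᵥ w i) h := by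
  classical
  have hw : ∀ i, w i ≠ 0 := by
    intro i hi
    have h1 := hh i
    rw [hi, Matrix.mulVec_zero, dotProduct_zero] at h1
    exact zero_ne_one h1
  have hc : ∀ i, 0 < w i ⬝ᵥ w i := by
    intro i
    have h0 : 0 ≤ w i ⬝ᵥ w i := Finset.sum_nonneg (fun k _ => mul_self_nonneg _)
    rcases h0.lt_or_eq with h1 | h1
    · exact h1
    · exact absurd (dotProduct_self_eq_zero.mp h1.symm) (hw i)
  have hspan : ∀ y : Fin d → ℝ, y ≠ 0 → ∃ i, w i ⬝ᵥ y ≠ 0 := by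
    intro y hy
    by_contra hcon
    push Not at hcon
    apply hy
    have h1 : (∑ i, vecMulVec (w i) (w i)) *ᵥ y = y := by rw [hI, one_mulVec]
    rw [← h1, Matrix.sum_mulVec]
    apply Finset.sum_eq_zero
    intro i _
    rw [Matrix.vecMulVec_mulVec]
    simp [hcon i]
  have T := htrans hspan
    (fun i s => -((w i ⬝ᵥ w i) * Real.log (gtail (s / √(w i ⬝ᵥ w i)))))
    (fun i s => √(w i ⬝ᵥ w i) * lam (s / √(w i ⬝ᵥ w i)))
    (fun i s => (hphi _ (hc i) s).1) (fun i s => (hphi _ (hc i) s).2.1)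
    (fun i s => (hphi _ (hc i) s).2.2)
  refine le_trans ?_ T
  -- the function f
  obtain ⟨f, hf⟩ : ∃ f : (Fin d → ℝ) → ℝ, f = fun y =>
      ((1 / 2) * ∑ i, (w i ⬝ᵥ w i) * Real.log (w i ⬝ᵥ w i) +
        (1 / 2) * ∑ i, ∑ j, (w i ⬝ᵥ w j) ^ 2 *
          KK ((1 / 2) * (Real.log (w i ⬝ᵥ w i) - Real.log (w j ⬝ᵥ w j)) +
            ell ((w i ⬝ᵥ y) / √(w i ⬝ᵥ w i)) - ell ((w j ⬝ᵥ y) / √(w j ⬝ᵥ w j)))) := ⟨_, rfl⟩
  have hKK : Continuous KK := by
    unfold KK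
    fun_prop
  have hell := hgrow.1
  have hdot : ∀ i, Continuous (fun y : Fin d → ℝ => w i ⬝ᵥ y) := by
    intro i
    simp only [dotProduct]
    fun_prop
  have hfc : Continuous f := by
    rw [hf]
    refine Continuous.add continuous_const (Continuous.mul continuous_const ?_)
    refine continuous_finsetSum _ (fun i _ => continuous_finsetSum _ (fun j _ => ?_))
    refine Continuous.mul continuous_const (hKK.comp ?_)
    refine Continuous.sub (Continuous.add continuous_const (hell.comp ?_)) (hell.comp ?_)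
    · exact (hdot i).div_const _
    · exact (hdot j).div_const _
  -- pair facts
  have hab : ∀ i, ((√(w i ⬝ᵥ w i))⁻¹ • w i) ⬝ᵥ ((√(w i ⬝ᵥ w i))⁻¹ • w i) = 1 := by
    intro i
    rw [smul_dotProduct, dotProduct_smul, smul_eq_mul, smul_eq_mul]
    have h1 : √(w i ⬝ᵥ w i) ≠ 0 := (Real.sqrt_pos.mpr (hc i)).ne'
    have h2 : √(w i ⬝ᵥ w i) * √(w i ⬝ᵥ w i) = w i ⬝ᵥ w i := Real.mul_self_sqrt (hc i).le
    nth_rewrite 3 [← h2]
    field_simp
  have hay : ∀ i (y : Fin d → ℝ), ((√(w i ⬝ᵥ w i))⁻¹ • w i) ⬝ᵥ y = (w i ⬝ᵥ y) / √(w i ⬝ᵥ w i) := by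
    intro i y
    rw [smul_dotProduct, smul_eq_mul, div_eq_inv_mul]
  have habij : ∀ i j, ((√(w i ⬝ᵥ w i))⁻¹ • w i) ⬝ᵥ ((√(w j ⬝ᵥ w j))⁻¹ • w j) =
      (w i ⬝ᵥ w j) / √((w i ⬝ᵥ w i) * (w j ⬝ᵥ w j)) := by
    intro i j
    rw [smul_dotProduct, dotProduct_smul, smul_eq_mul, smul_eq_mul, Real.sqrt_mul (hc i).le]
    field_simp
  have hP : ∀ i j, Integrable (fun y => KK ((1 / 2) * (Real.log (w i ⬝ᵥ w i) - Real.log (w j ⬝ᵥ w j)) +
            ell ((w i ⬝ᵥ y) / √(w i ⬝ᵥ w i)) - ell ((w j ⬝ᵥ y) / √(w j ⬝ᵥ w j))))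
        (Measure.pi (fun _ : Fin d => gaussianReal 0 1)) ∧
      Pol (√(1 - (w i ⬝ᵥ w j) / √((w i ⬝ᵥ w i) * (w j ⬝ᵥ w j)))) ≤
        ∫ y, KK ((1 / 2) * (Real.log (w i ⬝ᵥ w i) - Real.log (w j ⬝ᵥ w j)) +
            ell ((w i ⬝ᵥ y) / √(w i ⬝ᵥ w i)) - ell ((w j ⬝ᵥ y) / √(w j ⬝ᵥ w j)))
        ∂(Measure.pi (fun _ : Fin d => gaussianReal 0 1)) := by
    intro i j
    have h1 := hpair _ _ (hab i) (hab j) ((1 / 2) * (Real.log (w i ⬝ᵥ w i) - Real.log (w j ⬝ᵥ w j)))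
    rw [habij] at h1
    simp only [hay] at h1
    exact h1
  have hfi : Integrable f (Measure.pi (fun _ : Fin d => gaussianReal 0 1)) := by
    rw [hf]
    refine Integrable.add (integrable_const _) (Integrable.const_mul ?_ _)
    refine integrable_finsetSum _ (fun i _ => integrable_finsetSum _ (fun j _ => ?_))
    exact (hP i j).1.const_mul _
  have hint : Expo w / 2 ≤ ∫ y, f y ∂(Measure.pi (fun _ : Fin d => gaussianReal 0 1)) := by
    rw [hf]
    rw [integral_add (integrable_const _) (Integrable.const_mul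
      (integrable_finsetSum _ (fun i _ => integrable_finsetSum _ (fun j _ =>
        (hP i j).1.const_mul _))) _)]
    rw [integral_const, probReal_univ, one_smul]
    rw [integral_const_mul, integral_finsetSum _ (fun i _ => integrable_finsetSum _ (fun j _ =>
        (hP i j).1.const_mul _))]
    unfold Expo
    rw [add_div]
    refine add_le_add (le_of_eq (by ring)) ?_
    rw [show ∀ x : ℝ, x / 2 = (1 / 2) * x from fun x => by ring]
    refine mul_le_mul_of_nonneg_left ?_ (by norm_num)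
    refine Finset.sum_le_sum (fun i _ => ?_)
    rw [integral_finsetSum _ (fun j _ => (hP i j).1.const_mul _)]
    refine Finset.sum_le_sum (fun j _ => ?_)
    rw [integral_const_mul]
    exact mul_le_mul_of_nonneg_left (hP i j).2 (sq_nonneg _)
  have hg : ∀ y : Fin d → ℝ, 0 ≤ ∏ k, gpdf (y k) := by
    intro y
    refine Finset.prod_nonneg (fun k _ => ?_)
    unfold gpdf
    positivity
  calc ENNReal.ofReal (|S.det| * Real.exp (Expo w / 2))
      ≤ ENNReal.ofReal |S.det| * ENNReal.ofReal (Real.exp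
          (∫ y, f y ∂(Measure.pi (fun _ : Fin d => gaussianReal 0 1)))) := by
        rw [ENNReal.ofReal_mul (abs_nonneg _)]
        gcongr
    _ ≤ ENNReal.ofReal |S.det| * ∫⁻ y, ENNReal.ofReal (Real.exp (f y))
          ∂(Measure.pi (fun _ : Fin d => gaussianReal 0 1)) := by
        gcongr
        exact hjensen _ f hfi
    _ = ∫⁻ y : Fin d → ℝ, ENNReal.ofReal |S.det| *
          (ENNReal.ofReal (Real.exp (f y)) * ENNReal.ofReal (∏ i, gpdf (y i))) := by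
        rw [hdens _ (by fun_prop), lintegral_const_mul' _ _ ENNReal.ofReal_ne_top]
    _ ≤ _ := by
        refine lintegral_mono (fun y => ?_)
        simp only
        rw [← ENNReal.ofReal_mul (Real.exp_pos _).le, ← ENNReal.ofReal_mul (abs_nonneg _)]
        refine ENNReal.ofReal_le_ofReal ?_
        have h4 := hpoint hc y
        have h5 := mul_le_mul_of_nonneg_left h4 (abs_nonneg S.det)
        have h6 : f y = ((1 / 2) * ∑ i, (w i ⬝ᵥ w i) * Real.log (w i ⬝ᵥ w i) +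
        (1 / 2) * ∑ i, ∑ j, (w i ⬝ᵥ w j) ^ 2 *
          KK ((1 / 2) * (Real.log (w i ⬝ᵥ w i) - Real.log (w j ⬝ᵥ w j)) +
            ell ((w i ⬝ᵥ y) / √(w i ⬝ᵥ w i)) - ell ((w j ⬝ᵥ y) / √(w j ⬝ᵥ w j)))) := by
          rw [hf]
        rw [h6]
        refine le_trans (le_of_eq ?_) (le_trans h5 (le_of_eq ?_))
        · ring
        · ring

end J7841

end Pool.Agent.Helper7.Simplex
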