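import Pool.Agent.Helper7.Simplex.Defs

open MeasureTheory ProbabilityTheory Matrix
open scoped ENNReal

namespace Pool.Agent.Helper7.Simplex

namespace J7441

theorem K_logdet {d : ℕ} (X Y : Matrix (Fin d) (Fin d) ℝ) (hX : X.PosDef) (hY : Y.PosDef) :
    Real.log Y.det ≤ Real.log X.det + (X⁻¹ * (Y - X)).trace := by
  have hXi : (X⁻¹).PosDef := hX.inv
  have hT : ∃ T : Matrix (Fin d) (Fin d) ℝ, T.IsHermitian ∧ T * T = X⁻¹ := by
    open scoped MatrixOrder in
    exact ⟨CFC.sqrt X⁻¹, (CFC.sqrt_nonneg X⁻¹).posSemidef.isHermitian,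
      CFC.sqrt_mul_sqrt_self X⁻¹ hXi.posSemidef.nonneg⟩
  obtain ⟨T, hTh, hTT⟩ := hT
  have hdX : 0 < X.det := hX.det_pos
  have hdY : 0 < Y.det := hY.det_pos
  have hdet2 : T.det * T.det = (X.det)⁻¹ := by
    rw [← Matrix.det_mul, hTT, Matrix.det_nonsing_inv, Ring.inverse_eq_inv']
  have hdT : T.det ≠ 0 := by
    intro h
    rw [h, zero_mul] at hdet2
    exact (inv_pos.mpr hdX).ne hdet2
  have hunit : IsUnit T := (Matrix.isUnit_iff_isUnit_det T).mpr (isUnit_iff_ne_zero.mpr hdT)
  have hinj : Function.Injective T.mulVec := Matrix.mulVec_injective_of_isUnit hunit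
  have hZ : (Tᴴ * Y * T).PosDef := hY.conjTranspose_mul_mul_same hinj
  rw [hTh.eq] at hZ
  have hdetZ : (T * Y * T).det = (X.det)⁻¹ * Y.det := by
    rw [Matrix.det_mul, Matrix.det_mul, ← hdet2]; ring
  have htrZ : (T * Y * T).trace = (X⁻¹ * Y).trace := by
    rw [Matrix.trace_mul_comm, ← Matrix.mul_assoc, hTT]
  have h1 : Real.log (T * Y * T).det ≤ (T * Y * T).trace - d := by
    rw [hZ.isHermitian.det_eq_prod_eigenvalues, hZ.isHermitian.trace_eq_sum_eigenvalues]
    have hne : ∀ i ∈ Finset.univ, ((hZ.isHermitian.eigenvalues i : ℝ) : ℝ) ≠ 0 := fun i _ =>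
      (hZ.eigenvalues_pos i).ne'
    have e1 : Real.log (∏ i, ((hZ.isHermitian.eigenvalues i : ℝ) : ℝ)) =
        ∑ i, Real.log (hZ.isHermitian.eigenvalues i) := Real.log_prod hne
    have e2 : ∑ i, Real.log (hZ.isHermitian.eigenvalues i) ≤
        ∑ i : Fin d, (hZ.isHermitian.eigenvalues i - 1) :=
      Finset.sum_le_sum fun i _ => Real.log_le_sub_one_of_pos (hZ.eigenvalues_pos i)
    rw [Finset.sum_sub_distrib, Finset.sum_const, Finset.card_univ, Fintype.card_fin,
      nsmul_eq_mul, mul_one] at e2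
    exact e1.le.trans e2
  have h2 : (X⁻¹ * (Y - X)).trace = (X⁻¹ * Y).trace - d := by
    have hu : IsUnit X.det := isUnit_iff_ne_zero.mpr hdX.ne'
    rw [Matrix.mul_sub, Matrix.trace_sub, Matrix.nonsing_inv_mul X hu, Matrix.trace_one,
      Fintype.card_fin]
  rw [hdetZ, htrZ, Real.log_mul (inv_pos.mpr hdX).ne' hdY.ne', Real.log_inv] at h1
  rw [h2]
  linarith

end J7441

namespace J7442

open scoped MatrixOrder Matrix.Norms.L2Operator in
theorem psd_factor {d : ℕ} {Q : Matrix (Fin d) (Fin d) ℝ} (hQ : Q.PosSemidef) :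
    ∃ R : Matrix (Fin d) (Fin d) ℝ, Q = Rᴴ * R := by
  obtain ⟨B, h⟩ := CStarAlgebra.nonneg_iff_eq_star_mul_self.mp hQ.nonneg
  exact ⟨B, h⟩

theorem K_inv {d : ℕ} (B Q : Matrix (Fin d) (Fin d) ℝ) (hB : B.PosSemidef) (hB1 : (1 - B).PosDef)
    (hQ : Q.PosSemidef) : Q.trace + (B * Q).trace ≤ ((1 - B)⁻¹ * Q).trace := by
  have hM : ((1 - B)⁻¹).PosDef := hB1.inv
  have hu : IsUnit (1 - B).det := (Matrix.isUnit_iff_isUnit_det _).1 hB1.isUnit
  have h1 : (1 - B) * (1 - B)⁻¹ = 1 := Matrix.mul_nonsing_inv _ hu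
  have h2 : (1 - B)⁻¹ * (1 - B) = 1 := Matrix.nonsing_inv_mul _ hu
  set M := (1 - B)⁻¹ with hMdef
  have e1 : M = 1 + B * M := by
    rw [sub_mul, one_mul] at h1
    rw [← h1]; abel
  have e2 : M = 1 + M * B := by
    rw [mul_sub, mul_one] at h2
    rw [← h2]; abel
  have e3 : M = 1 + B + B * M * B := by
    calc M = 1 + B * M := e1
      _ = 1 + B * (1 + M * B) := by rw [← e2]
      _ = 1 + B + B * M * B := by rw [mul_add, mul_one, ← mul_assoc]; abel
  have hN : (B * M * B).PosSemidef := by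
    have := hM.posSemidef.conjTranspose_mul_mul_same B
    rwa [hB.isHermitian.eq] at this
  have htr : 0 ≤ (B * M * B * Q).trace := by
    obtain ⟨R, rfl⟩ := psd_factor hQ
    rw [← mul_assoc, Matrix.trace_mul_comm, ← mul_assoc]
    exact (hN.mul_mul_conjTranspose_same R).trace_nonneg
  have : (M * Q).trace = Q.trace + (B * Q).trace + (B * M * B * Q).trace := by
    conv_lhs => rw [e3]
    rw [add_mul, add_mul, one_mul, Matrix.trace_add, Matrix.trace_add]
  rw [this]
  linarith

end J7442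

namespace J7443

theorem K_step {d : ℕ}
    (hlog : ∀ X Y : Matrix (Fin d) (Fin d) ℝ, X.PosDef → Y.PosDef →
      Real.log Y.det ≤ Real.log X.det + (X⁻¹ * (Y - X)).trace)
    (hinv : ∀ B Q : Matrix (Fin d) (Fin d) ℝ, B.PosSemidef → (1 - B).PosDef → Q.PosSemidef →
      Q.trace + (B * Q).trace ≤ ((1 - B)⁻¹ * Q).trace)
    (Q C Y : Matrix (Fin d) (Fin d) ℝ) (hQ : Q.PosSemidef) (hC : C.PosSemidef) (hQC : Q + C = 1)
    (hY : Y.PosSemidef) (hCY : (C - Y).PosSemidef) (hpd : (Q + Y).PosDef) (s : ℝ) (hs : 0 ≤ s) :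
    s * (Q.trace + (Q * C).trace) - (1 - Real.exp (-s)) * (Q * Y).trace ≤
      Real.log (Real.exp s • Q + Y).det - Real.log (Q + Y).det := by
  have hposdef : ∀ v : ℝ, 0 ≤ v → (Real.exp v • Q + Y).PosDef := by
    intro v hv
    have h1 : Real.exp v • Q + Y = (Q + Y) + (Real.exp v - 1) • Q := by
      rw [sub_smul, one_smul]; abel
    rw [h1]
    exact hpd.add_posSemidef (hQ.smul (by linarith [Real.one_le_exp hv]))
  have hstep : ∀ u h : ℝ, 0 ≤ u → 0 ≤ h →
      (1 - Real.exp (-h)) * ((Q.trace + (Q*C).trace) - Real.exp (-(u+h)) * (Q*Y).trace) ≤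
      Real.log (Real.exp (u+h) • Q + Y).det - Real.log (Real.exp u • Q + Y).det := by
    intro u h hu hh
    have hv : 0 ≤ u + h := by linarith
    have h1 := hlog _ _ (hposdef (u+h) hv) (hposdef u hu)
    have huv : Real.exp u = Real.exp (u + h) * Real.exp (-h) := by
      rw [← Real.exp_add]; congr 1; ring
    generalize u + h = v at *
    set B : Matrix (Fin d) (Fin d) ℝ := C - Real.exp (-v) • Y with hB
    have h1B : 1 - B = Q + Real.exp (-v) • Y := by rw [← hQC, hB]; abel
    have hZ : Real.exp v • Q + Y = Real.exp v • (1 - B) := by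
      rw [h1B, smul_add, smul_smul, ← Real.exp_add]; simp
    have hBpsd : B.PosSemidef := by
      have : B = (C - Y) + (1 - Real.exp (-v)) • Y := by
        rw [hB, sub_smul, one_smul]; abel
      rw [this]
      refine hCY.add (hY.smul ?_)
      have : Real.exp (-v) ≤ 1 := Real.exp_le_one_iff.2 (by linarith)
      linarith
    have h1Bpd : (1 - B).PosDef := by
      have : 1 - B = Real.exp (-v) • (Real.exp v • Q + Y) := by
        rw [hZ, smul_smul, ← Real.exp_add]; simp
      rw [this]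
      exact (hposdef v hv).smul (Real.exp_pos _)
    have h2 := hinv B Q hBpsd h1Bpd hQ
    have hXZ : (Real.exp u • Q + Y) - (Real.exp v • Q + Y) = (Real.exp u - Real.exp v) • Q := by
      rw [sub_smul]; abel
    have hne : Real.exp v ≠ 0 := (Real.exp_pos v).ne'
    have hinvsm : (Real.exp v • (1 - B))⁻¹ = (Real.exp v)⁻¹ • (1 - B)⁻¹ := by
      haveI : Invertible (Real.exp v) := invertibleOfNonzero hne
      rw [Matrix.inv_smul _ _ (isUnit_iff_ne_zero.2 h1Bpd.det_pos.ne')]
      rw [invOf_eq_inv]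
    rw [hXZ, hZ, hinvsm, Matrix.smul_mul, Matrix.mul_smul, Matrix.trace_smul, Matrix.trace_smul,
      smul_eq_mul, smul_eq_mul, ← hZ] at h1
    have h3 : (B * Q).trace = (Q * C).trace - Real.exp (-v) * (Q * Y).trace := by
      rw [hB, Matrix.sub_mul, Matrix.trace_sub, Matrix.smul_mul, Matrix.trace_smul, smul_eq_mul,
        Matrix.trace_mul_comm C Q, Matrix.trace_mul_comm Y Q]
    rw [h3] at h2
    have h4 : (Real.exp v)⁻¹ * ((Real.exp u - Real.exp v) * ((1 - B)⁻¹ * Q).trace) =
        - ((1 - Real.exp (-h)) * ((1 - B)⁻¹ * Q).trace) := by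
      rw [huv]; field_simp; ring
    rw [h4] at h1
    have h5 : 0 ≤ 1 - Real.exp (-h) := by
      have : Real.exp (-h) ≤ 1 := Real.exp_le_one_iff.2 (by linarith)
      linarith
    have h6 := mul_le_mul_of_nonneg_left h2 h5
    nlinarith [h6, h1]
  set a := Q.trace + (Q * C).trace with ha
  set b := (Q * Y).trace with hb
  have hind : ∀ (h : ℝ), 0 ≤ h → ∀ k : ℕ,
      (k : ℝ) * (1 - Real.exp (-h)) * a - Real.exp (-h) * (1 - Real.exp (-(k * h))) * b ≤
      Real.log (Real.exp (k * h) • Q + Y).det - Real.log (Q + Y).det := by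
    intro h hh k
    induction k with
    | zero => simp
    | succ k ih =>
      have h1 := hstep (k * h) h (by positivity) hh
      have e1 : (k : ℝ) * h + h = ((k + 1 : ℕ) : ℝ) * h := by push_cast; ring
      have e2 : Real.exp (-(((k + 1 : ℕ) : ℝ) * h)) = Real.exp (-(k * h)) * Real.exp (-h) := by
        rw [← Real.exp_add]; congr 1; push_cast; ring
      rw [e1, e2] at h1
      rw [e2]
      push_cast at *
      nlinarith [h1, ih]
  have hn : ∀ n : ℕ, 
      (((n + 1 : ℕ) : ℝ) * (1 - Real.exp (-(s / ((n + 1 : ℕ) : ℝ))))) * a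
        - Real.exp (-(s / ((n + 1 : ℕ) : ℝ))) * (1 - Real.exp (-s)) * b ≤
      Real.log (Real.exp s • Q + Y).det - Real.log (Q + Y).det := by
    intro n
    have h0 : ((n + 1 : ℕ) : ℝ) ≠ 0 := by positivity
    have h1 := hind (s / ((n + 1 : ℕ) : ℝ)) (by positivity) (n + 1)
    have e1 : ((n + 1 : ℕ) : ℝ) * (s / ((n + 1 : ℕ) : ℝ)) = s := by field_simp
    rw [e1] at h1
    exact h1
  have hdiv : Filter.Tendsto (fun n : ℕ => s / ((n + 1 : ℕ) : ℝ)) Filter.atTop (nhds 0) := by
    have h1 := (tendsto_const_div_atTop_nhds_zero_nat s)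
    exact h1.comp (Filter.tendsto_add_atTop_nat 1)
  have hexp : Filter.Tendsto (fun n : ℕ => Real.exp (-(s / ((n + 1 : ℕ) : ℝ)))) Filter.atTop
      (nhds 1) := by
    have := (Real.continuous_exp.tendsto 0).comp (by simpa using hdiv.neg)
    simpa [Function.comp_def] using this
  have hfirst : Filter.Tendsto
      (fun n : ℕ => ((n + 1 : ℕ) : ℝ) * (1 - Real.exp (-(s / ((n + 1 : ℕ) : ℝ)))))
      Filter.atTop (nhds s) := by
    refine tendsto_of_tendsto_of_tendsto_of_le_of_le
      (g := fun n : ℕ => s / (1 + s / ((n + 1 : ℕ) : ℝ))) (h := fun _ => s) ?_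
      tendsto_const_nhds ?_ ?_
    · have h1 : Filter.Tendsto (fun n : ℕ => s / (1 + s / ((n + 1 : ℕ) : ℝ))) Filter.atTop
          (nhds (s / (1 + 0))) :=
        tendsto_const_nhds.div (tendsto_const_nhds.add hdiv) (by norm_num)
      simpa using h1
    · intro n
      show _ ≤ _
      beta_reduce
      have h0 : (0:ℝ) < ((n + 1 : ℕ) : ℝ) := by positivity
      have hx : 0 ≤ s / ((n + 1 : ℕ) : ℝ) := by positivity
      have e1 : s = ((n + 1 : ℕ) : ℝ) * (s / ((n + 1 : ℕ) : ℝ)) := by field_simp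
      generalize ((n + 1 : ℕ) : ℝ) = N at *
      generalize hxx : s / N = x at *
      have h2 : Real.exp (-x) ≤ 1 / (1 + x) := by
        rw [Real.exp_neg, inv_eq_one_div]
        apply one_div_le_one_div_of_le (by positivity)
        linarith [Real.add_one_le_exp x]
      have h3 : x / (1 + x) ≤ 1 - Real.exp (-x) := by
        have : x / (1 + x) = 1 - 1 / (1 + x) := by field_simp; ring
        linarith
      calc s / (1 + x) = N * (x / (1 + x)) := by rw [e1]; ring
        _ ≤ N * (1 - Real.exp (-x)) := by exact mul_le_mul_of_nonneg_left h3 h0.le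
    · intro n
      show _ ≤ _
      beta_reduce
      have h0 : (0:ℝ) < ((n + 1 : ℕ) : ℝ) := by positivity
      have hx : 0 ≤ s / ((n + 1 : ℕ) : ℝ) := by positivity
      have e1 : s = ((n + 1 : ℕ) : ℝ) * (s / ((n + 1 : ℕ) : ℝ)) := by field_simp
      generalize ((n + 1 : ℕ) : ℝ) = N at *
      generalize hxx : s / N = x at *
      have h3 : 1 - Real.exp (-x) ≤ x := by linarith [Real.add_one_le_exp (-x)]
      calc N * (1 - Real.exp (-x)) ≤ N * x := mul_le_mul_of_nonneg_left h3 h0.le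
        _ = s := e1.symm
  have hlim := (hfirst.mul_const a).sub ((hexp.mul_const (1 - Real.exp (-s))).mul_const b)
  have := le_of_tendsto hlim (Filter.Eventually.of_forall hn)
  simpa using this

end J7443

namespace J7444

/-- weighted sum of rank one projections -/
noncomputable def SW7444 {d : ℕ} {ι : Type*} [Fintype ι] (w : ι → Fin d → ℝ) (a : ι → ℝ) :
    Matrix (Fin d) (Fin d) ℝ := ∑ i, a i • vecMulVec (w i) (w i)

theorem SW7444_add {d : ℕ} {ι : Type*} [Fintype ι] (w : ι → Fin d → ℝ) (a b : ι → ℝ) :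
    SW7444 w a + SW7444 w b = SW7444 w (fun i => a i + b i) := by
  unfold SW7444
  rw [← Finset.sum_add_distrib]
  exact Finset.sum_congr rfl fun i _ => (add_smul _ _ _).symm

theorem SW7444_sub {d : ℕ} {ι : Type*} [Fintype ι] (w : ι → Fin d → ℝ) (a b : ι → ℝ) :
    SW7444 w a - SW7444 w b = SW7444 w (fun i => a i - b i) := by
  unfold SW7444
  rw [← Finset.sum_sub_distrib]
  exact Finset.sum_congr rfl fun i _ => (sub_smul _ _ _).symm

theorem SW7444_smul {d : ℕ} {ι : Type*} [Fintype ι] (w : ι → Fin d → ℝ) (c : ℝ) (a : ι → ℝ) :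
    c • SW7444 w a = SW7444 w (fun i => c * a i) := by
  unfold SW7444
  rw [Finset.smul_sum]
  exact Finset.sum_congr rfl fun i _ => smul_smul _ _ _

theorem SW7444_trace {d : ℕ} {ι : Type*} [Fintype ι] (w : ι → Fin d → ℝ) (a : ι → ℝ) :
    (SW7444 w a).trace = ∑ i, a i * (w i ⬝ᵥ w i) := by
  unfold SW7444
  rw [Matrix.trace_sum]
  refine Finset.sum_congr rfl fun i _ => ?_
  rw [Matrix.trace_smul, Matrix.trace_vecMulVec, smul_eq_mul]

theorem SW7444_trace_mul {d : ℕ} {ι : Type*} [Fintype ι] (w : ι → Fin d → ℝ) (a b : ι → ℝ) :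
    (SW7444 w a * SW7444 w b).trace = ∑ i, ∑ j, a i * b j * (w i ⬝ᵥ w j) ^ 2 := by
  unfold SW7444
  rw [Finset.sum_mul, Matrix.trace_sum]
  refine Finset.sum_congr rfl fun i _ => ?_
  rw [Finset.mul_sum, Matrix.trace_sum]
  refine Finset.sum_congr rfl fun j _ => ?_
  rw [Matrix.smul_mul, Matrix.mul_smul, Matrix.vecMulVec_mul_vecMulVec, Matrix.trace_smul,
    Matrix.trace_smul, Matrix.trace_vecMulVec]
  simp only [smul_eq_mul, dotProduct_smul]
  ring

theorem SW7444_psd {d : ℕ} {ι : Type*} [Fintype ι] (w : ι → Fin d → ℝ) (a : ι → ℝ)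
    (ha : ∀ i, 0 ≤ a i) : (SW7444 w a).PosSemidef := by
  unfold SW7444
  refine Matrix.posSemidef_sum _ fun i _ => ?_
  refine Matrix.PosSemidef.smul ?_ (ha i)
  have := Matrix.posSemidef_vecMulVec_self_star (w i)
  simpa using this

theorem SW7444_pd {d : ℕ} {ι : Type*} [Fintype ι] (w : ι → Fin d → ℝ)
    (hI : SW7444 w (fun _ => 1) = 1) (a : ι → ℝ)
    (ha : ∀ i, 0 < a i) : (SW7444 w a).PosDef := by
  obtain ⟨L, hL, hLa⟩ : ∃ L : ℝ, 0 < L ∧ ∀ i, L ≤ a i := by
    rcases isEmpty_or_nonempty ι with h | h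
    · exact ⟨1, one_pos, fun i => h.elim i⟩
    · obtain ⟨i0, hi0⟩ := Finite.exists_min a
      exact ⟨a i0, ha i0, hi0⟩
  have h1 : SW7444 w a = SW7444 w (fun i => a i - L) + L • (1 : Matrix (Fin d) (Fin d) ℝ) := by
    rw [← hI, SW7444_smul, SW7444_add]
    congr 1
    funext i; ring
  rw [h1]
  refine Matrix.PosDef.posSemidef_add (SW7444_psd w _ fun i => sub_nonneg.2 (hLa i)) ?_
  exact Matrix.PosDef.smul Matrix.PosDef.one hL

theorem KK7444_top (s x : ℝ) (hs : 0 ≤ s) (hx : 0 ≤ x) :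
    KK (s + x) - KK x = s - (1 - Real.exp (-s)) * Real.exp (-x) := by
  unfold KK
  rw [abs_of_nonneg (by linarith), abs_of_nonneg hx]
  have : Real.exp (-(s + x)) = Real.exp (-s) * Real.exp (-x) := by
    rw [← Real.exp_add]; ring_nf
  rw [this]; ring

theorem KK7444_neg (x : ℝ) : KK (-x) = KK x := by
  unfold KK; rw [abs_neg]

theorem K_ineq {d : ℕ}
    (hstep : ∀ Q C Y : Matrix (Fin d) (Fin d) ℝ, Q.PosSemidef → C.PosSemidef → Q + C = 1 →
      Y.PosSemidef → (C - Y).PosSemidef → (Q + Y).PosDef → ∀ s : ℝ, 0 ≤ s →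
      s * (Q.trace + (Q * C).trace) - (1 - Real.exp (-s)) * (Q * Y).trace ≤
        Real.log (Real.exp s • Q + Y).det - Real.log (Q + Y).det)
    {ι : Type*} [Fintype ι] (w : ι → Fin d → ℝ)
    (hI : ∑ i, vecMulVec (w i) (w i) = 1) (t : ι → ℝ) :
    ∑ i, (w i ⬝ᵥ w i) * t i + (1 / 2) * ∑ i, ∑ j, (w i ⬝ᵥ w j) ^ 2 * KK (t i - t j) ≤
      Real.log (∑ i, Real.exp (t i) • vecMulVec (w i) (w i)).det := by
  classical
  have hI' : SW7444 w (fun _ => 1) = 1 := by
    unfold SW7444; simpa using hI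
  show _ ≤ Real.log (SW7444 w (fun i => Real.exp (t i))).det
  induction hn : (Finset.univ.image t).card using Nat.strong_induction_on generalizing t with
  | _ n ih =>
  by_cases hall : ∃ τ, ∀ i, t i = τ
  · obtain ⟨τ, hτ⟩ := hall
    have e1 : SW7444 w (fun i => Real.exp (t i)) = Real.exp τ • (1 : Matrix (Fin d) (Fin d) ℝ) := by
      rw [← hI', SW7444_smul]
      congr 1
      funext i; rw [hτ, mul_one]
    have e2 : ∑ i, (w i ⬝ᵥ w i) = d := by
      have := SW7444_trace w (fun _ => 1)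
      rw [hI', Matrix.trace_one, Fintype.card_fin] at this
      simpa using this.symm
    rw [e1, Matrix.det_smul, Matrix.det_one, mul_one, Fintype.card_fin, Real.log_pow, Real.log_exp]
    simp only [hτ, sub_self]
    rw [← Finset.sum_mul, e2]
    simp [KK]
  · push Not at hall
    haveI hne : Nonempty ι := by
      obtain ⟨i, _⟩ := hall 0
      exact ⟨i⟩
    obtain ⟨i0, hi0⟩ := Finite.exists_max t
    set M := t i0 with hM
    have hF : (Finset.univ.filter (fun i => t i ≠ M)).Nonempty := by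
      obtain ⟨i, hi⟩ := hall M
      exact ⟨i, by simp [hi]⟩
    obtain ⟨i1, hi1, hmax⟩ := Finset.exists_max_image _ t hF
    set m2 := t i1 with hm2
    have hi1' : t i1 ≠ M := by simpa using hi1
    have hlt : m2 < M := lt_of_le_of_ne (hi0 i1) hi1'
    have hle : ∀ i, t i ≠ M → t i ≤ m2 := fun i hi => hmax i (by simp [hi])
    set s := M - m2 with hs
    have hs0 : 0 ≤ s := by linarith
    set t2 : ι → ℝ := fun i => if t i = M then m2 else t i with ht2
    set χ : ι → ℝ := fun i => if t i = M then 1 else 0 with hχ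
    have hcard : (Finset.univ.image t2).card < n := by
      rw [← hn]
      apply Finset.card_lt_card
      refine ⟨?_, ?_⟩
      · intro x hx
        obtain ⟨i, _, rfl⟩ := Finset.mem_image.1 hx
        simp only [ht2]
        split_ifs
        · exact Finset.mem_image_of_mem _ (Finset.mem_univ _)
        · exact Finset.mem_image_of_mem _ (Finset.mem_univ _)
      · intro hsub
        have : M ∈ Finset.univ.image t2 := hsub (Finset.mem_image_of_mem _ (Finset.mem_univ i0))
        obtain ⟨i, _, hi⟩ := Finset.mem_image.1 this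
        simp only [ht2] at hi
        split_ifs at hi with h
        · exact hlt.ne hi
        · exact h hi
    have IH := ih _ hcard t2 rfl
    -- the pieces
    set y : ι → ℝ := fun i => (1 - χ i) * Real.exp (t i - m2) with hy
    have hχ0 : ∀ i, 0 ≤ χ i ∧ 0 ≤ 1 - χ i := by
      intro i; simp only [hχ]; split_ifs <;> simp
    have hQ := SW7444_psd w χ (fun i => (hχ0 i).1)
    have hC := SW7444_psd w (fun i => 1 - χ i) (fun i => (hχ0 i).2)
    have hQC : SW7444 w χ + SW7444 w (fun i => 1 - χ i) = 1 := by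
      rw [SW7444_add, ← hI']; congr 1; funext i; ring
    have hY := SW7444_psd w y (fun i => mul_nonneg (hχ0 i).2 (Real.exp_pos _).le)
    have hCY : (SW7444 w (fun i => 1 - χ i) - SW7444 w y).PosSemidef := by
      rw [SW7444_sub]
      apply SW7444_psd
      intro i
      simp only [hy, hχ]
      split_ifs with h
      · simp
      · have : Real.exp (t i - m2) ≤ 1 := by
          rw [Real.exp_le_one_iff]; linarith [hle i h]
        simp only [sub_zero, one_mul]
        linarith
    have hQY : (SW7444 w χ + SW7444 w y).PosDef := by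
      rw [SW7444_add]
      apply SW7444_pd w hI'
      intro i
      simp only [hy, hχ]
      split_ifs with h
      · simp
      · simp only [sub_zero, one_mul, zero_add]; exact Real.exp_pos _
    have hst := hstep _ _ _ hQ hC hQC hY hCY hQY s hs0
    -- relation of determinants
    have hE1 : SW7444 w (fun i => Real.exp (t i)) = Real.exp m2 • (Real.exp s • SW7444 w χ + SW7444 w y) := by
      rw [SW7444_smul, SW7444_add, SW7444_smul]
      congr 1
      funext i
      simp only [hy, hχ]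
      split_ifs with h
      · rw [h, mul_one, sub_self, zero_mul, add_zero, ← Real.exp_add]; congr 1; rw [hs]; ring
      · rw [mul_zero, zero_add, sub_zero, one_mul, ← Real.exp_add]; congr 1; ring
    have hE2 : SW7444 w (fun i => Real.exp (t2 i)) = Real.exp m2 • (SW7444 w χ + SW7444 w y) := by
      rw [SW7444_add, SW7444_smul]
      congr 1
      funext i
      simp only [hy, hχ, ht2]
      split_ifs with h
      · simp
      · rw [zero_add, sub_zero, one_mul, ← Real.exp_add]; congr 1; ring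
    have hpd1 : (Real.exp s • SW7444 w χ + SW7444 w y).PosDef := by
      rw [SW7444_smul, SW7444_add]
      apply SW7444_pd w hI'
      intro i
      simp only [hy, hχ]
      split_ifs with h
      · simp [Real.exp_pos]
      · simp only [sub_zero, one_mul, mul_zero, zero_add]; exact Real.exp_pos _
    have hlog : ∀ N : Matrix (Fin d) (Fin d) ℝ, N.PosDef → Real.log (Real.exp m2 • N).det = d * m2 + Real.log N.det := by
      intro N hN
      rw [Matrix.det_smul, Fintype.card_fin, Real.log_mul (by positivity) hN.det_pos.ne', Real.log_pow, Real.log_exp]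
    rw [hE1, hlog _ hpd1]
    rw [hE2, hlog _ hQY] at IH
    -- traces
    have htQ := SW7444_trace w χ
    have htQC := SW7444_trace_mul w χ (fun i => 1 - χ i)
    have htQY := SW7444_trace_mul w χ y
    -- first sum
    have hsum1 : ∑ i, (w i ⬝ᵥ w i) * t i = ∑ i, (w i ⬝ᵥ w i) * t2 i + s * (SW7444 w χ).trace := by
      rw [htQ, Finset.mul_sum, ← Finset.sum_add_distrib]
      refine Finset.sum_congr rfl fun i _ => ?_
      simp only [hχ, ht2]
      split_ifs with h
      · rw [h, hs]; ring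
      · ring
    -- second sum
    set F : ι → ι → ℝ := fun i j => χ i * (1 - χ j) * (s - (1 - Real.exp (-s)) * Real.exp (t j - m2)) with hF'
    have hK : ∀ i j, KK (t i - t j) = KK (t2 i - t2 j) + (F i j + F j i) := by
      intro i j
      simp only [hF', hχ, ht2]
      split_ifs with h1 h2 h2
      · rw [h1, h2]; simp
      · have h3 : 0 ≤ m2 - t j := by linarith [hle j h2]
        have h4 := KK7444_top s (m2 - t j) hs0 h3
        have h5 : s + (m2 - t j) = t i - t j := by rw [h1, hs]; ring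
        rw [h5] at h4
        have h6 : -(m2 - t j) = t j - m2 := by ring
        rw [h6] at h4
        linarith
      · have h3 : 0 ≤ m2 - t i := by linarith [hle i h1]
        have h4 := KK7444_top s (m2 - t i) hs0 h3
        have h5 : s + (m2 - t i) = -(t i - t j) := by rw [h2, hs]; ring
        rw [h5, KK7444_neg] at h4
        have h6 : -(m2 - t i) = t i - m2 := by ring
        rw [h6] at h4
        have h7 : KK (m2 - t i) = KK (t i - m2) := by rw [← h6, KK7444_neg]
        rw [h7] at h4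
        linarith
      · ring
    have hsum2 : ∑ i, ∑ j, (w i ⬝ᵥ w j) ^ 2 * KK (t i - t j) =
        ∑ i, ∑ j, (w i ⬝ᵥ w j) ^ 2 * KK (t2 i - t2 j) + 2 * ∑ i, ∑ j, (w i ⬝ᵥ w j) ^ 2 * F i j := by
      have hsymm : ∑ i, ∑ j, (w i ⬝ᵥ w j) ^ 2 * F j i = ∑ i, ∑ j, (w i ⬝ᵥ w j) ^ 2 * F i j := by
        rw [Finset.sum_comm]
        refine Finset.sum_congr rfl fun i _ => Finset.sum_congr rfl fun j _ => ?_
        rw [dotProduct_comm]
      have : ∑ i, ∑ j, (w i ⬝ᵥ w j) ^ 2 * KK (t i - t j) = ∑ i, ∑ j, (w i ⬝ᵥ w j) ^ 2 * KK (t2 i - t2 j) +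
          (∑ i, ∑ j, (w i ⬝ᵥ w j) ^ 2 * F i j + ∑ i, ∑ j, (w i ⬝ᵥ w j) ^ 2 * F j i) := by
        simp only [← Finset.sum_add_distrib]
        refine Finset.sum_congr rfl fun i _ => Finset.sum_congr rfl fun j _ => ?_
        rw [hK]; ring
      rw [this, hsymm]; ring
    have hFsum : ∑ i, ∑ j, (w i ⬝ᵥ w j) ^ 2 * F i j =
        s * (SW7444 w χ * SW7444 w (fun i => 1 - χ i)).trace - (1 - Real.exp (-s)) * (SW7444 w χ * SW7444 w y).trace := by
      rw [htQC, htQY, Finset.mul_sum, Finset.mul_sum, ← Finset.sum_sub_distrib]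
      refine Finset.sum_congr rfl fun i _ => ?_
      rw [Finset.mul_sum, Finset.mul_sum, ← Finset.sum_sub_distrib]
      refine Finset.sum_congr rfl fun j _ => ?_
      simp only [hF', hy]
      ring
    rw [hsum1, hsum2, hFsum]
    linarith [IH, hst]

end J7444

namespace J7445

theorem K_det_pos {d : ℕ} {ι : Type*} [Fintype ι] (w : ι → Fin d → ℝ)
    (hI : ∑ i, vecMulVec (w i) (w i) = 1) (t : ι → ℝ) :
    (∑ i, Real.exp (t i) • vecMulVec (w i) (w i)).PosDef ∧
    0 < (∑ i, Real.exp (t i) • vecMulVec (w i) (w i)).det := by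
  have key : ∀ (i : ι) (x : Fin d → ℝ), x ⬝ᵥ (vecMulVec (w i) (w i) *ᵥ x) = (w i ⬝ᵥ x) ^ 2 := by
    intro i x
    rw [vecMulVec_mulVec]
    simp [dotProduct_smul, dotProduct_comm x (w i)]
    ring
  have hPD : (∑ i, Real.exp (t i) • vecMulVec (w i) (w i)).PosDef := by
    refine Matrix.PosDef.of_dotProduct_mulVec_pos ?_ ?_
    · unfold Matrix.IsHermitian
      rw [conjTranspose_sum]
      refine Finset.sum_congr rfl fun i _ => ?_
      rw [conjTranspose_smul, conjTranspose_vecMulVec]
      simp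
    · intro x hx
      have e1 : star x ⬝ᵥ ((∑ i, Real.exp (t i) • vecMulVec (w i) (w i)) *ᵥ x)
          = ∑ i, Real.exp (t i) * (w i ⬝ᵥ x) ^ 2 := by
        rw [Matrix.sum_mulVec, dotProduct_sum]
        refine Finset.sum_congr rfl fun i _ => ?_
        rw [smul_mulVec, dotProduct_smul, smul_eq_mul]
        simp only [star_trivial]
        rw [key]
      have e2 : x ⬝ᵥ x = ∑ i, (w i ⬝ᵥ x) ^ 2 := by
        have : x ⬝ᵥ ((∑ i, vecMulVec (w i) (w i)) *ᵥ x) = x ⬝ᵥ x := by
          rw [hI, one_mulVec]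
        rw [← this, Matrix.sum_mulVec, dotProduct_sum]
        exact Finset.sum_congr rfl fun i _ => key i x
      rw [e1]
      have hxx : 0 < x ⬝ᵥ x := by
        have := dotProduct_self_eq_zero (v := x)
        have h0 : 0 ≤ x ⬝ᵥ x := by
          unfold dotProduct
          exact Finset.sum_nonneg fun i _ => mul_self_nonneg _
        exact lt_of_le_of_ne h0 fun h => hx (this.1 h.symm)
      rw [e2] at hxx
      obtain ⟨i, hi, hpos⟩ : ∃ i ∈ Finset.univ, 0 < (w i ⬝ᵥ x) ^ 2 :=
        Finset.exists_lt_of_sum_lt (by simpa using hxx)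
      exact Finset.sum_pos' (fun j _ => by positivity) ⟨i, hi, by positivity⟩
  exact ⟨hPD, hPD.det_pos⟩

end J7445

end Pool.Agent.Helper7.Simplex
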