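import Pool.Agent.Helper7.Simplex.Defs

open MeasureTheory ProbabilityTheory Matrix
open scoped ENNReal

namespace Pool.Agent.Helper7.Simplex

namespace J7436

theorem P_law_one (c : ℝ) : ∫ x, Complex.exp (((c * x : ℝ) : ℂ) * Complex.I) ∂(gaussianReal 0 1)
    = Complex.exp ((-(c ^ 2 / 2) : ℝ) : ℂ) := by
  have h1 := charFun_gaussianReal (μ := 0) (v := 1) c
  rw [charFun_apply_real] at h1
  have h2 : ∀ x : ℝ, Complex.exp (((c * x : ℝ) : ℂ) * Complex.I)
      = Complex.exp ((c : ℂ) * x * Complex.I) := by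
    intro x; push_cast; rfl
  simp_rw [h2]
  rw [h1]
  congr 1
  push_cast
  simp

theorem P_law_pi {d : ℕ} (c : Fin d → ℝ) :
    ∫ y, Complex.exp (((c ⬝ᵥ y : ℝ) : ℂ) * Complex.I)
      ∂(Measure.pi (fun _ : Fin d => gaussianReal 0 1))
    = Complex.exp ((-(c ⬝ᵥ c / 2) : ℝ) : ℂ) := by
  have h1 : ∀ y : Fin d → ℝ, Complex.exp (((c ⬝ᵥ y : ℝ) : ℂ) * Complex.I)
      = ∏ i, Complex.exp (((c i * y i : ℝ) : ℂ) * Complex.I) := by
    intro y
    rw [← Complex.exp_sum, ← Finset.sum_mul, ← Complex.ofReal_sum]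
    rfl
  simp_rw [h1]
  rw [integral_fintype_prod_eq_prod (𝕜 := ℂ)
    (fun (i : Fin d) (x : ℝ) => Complex.exp (((c i * x : ℝ) : ℂ) * Complex.I))]
  simp_rw [P_law_one]
  rw [← Complex.exp_sum, ← Complex.ofReal_sum]
  congr 2
  rw [Finset.sum_neg_distrib, ← Finset.sum_div]
  congr 2
  refine Finset.sum_congr rfl fun i _ => by ring

theorem P_law_prod (s t : ℝ) :
    ∫ p : ℝ × ℝ, Complex.exp (((s * p.1 + t * p.2 : ℝ) : ℂ) * Complex.I)
      ∂((gaussianReal 0 1).prod (gaussianReal 0 1))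
    = Complex.exp ((-((s ^ 2 + t ^ 2) / 2) : ℝ) : ℂ) := by
  have h1 : ∀ p : ℝ × ℝ, Complex.exp (((s * p.1 + t * p.2 : ℝ) : ℂ) * Complex.I)
      = Complex.exp (((s * p.1 : ℝ) : ℂ) * Complex.I)
        * Complex.exp (((t * p.2 : ℝ) : ℂ) * Complex.I) := by
    intro p
    rw [← Complex.exp_add, Complex.ofReal_add, add_mul]
  simp_rw [h1]
  rw [integral_prod_mul (fun x : ℝ => Complex.exp (((s * x : ℝ) : ℂ) * Complex.I))
    (fun x : ℝ => Complex.exp (((t * x : ℝ) : ℂ) * Complex.I)), P_law_one, P_law_one,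
    ← Complex.exp_add, ← Complex.ofReal_add]
  congr 2
  ring

theorem P_law {d : ℕ} (a b : Fin d → ℝ) (ha : a ⬝ᵥ a = 1) (hb : b ⬝ᵥ b = 1) :
    (Measure.pi (fun _ : Fin d => gaussianReal 0 1)).map (fun y => (a ⬝ᵥ y, b ⬝ᵥ y)) =
      ((gaussianReal 0 1).prod (gaussianReal 0 1)).map (fun p : ℝ × ℝ =>
        (√((1 + a ⬝ᵥ b) / 2) * p.1 + √((1 - a ⬝ᵥ b) / 2) * p.2,
         √((1 + a ⬝ᵥ b) / 2) * p.1 - √((1 - a ⬝ᵥ b) / 2) * p.2)) := by
  have hm1 : Measurable (fun y : Fin d → ℝ => (a ⬝ᵥ y, b ⬝ᵥ y)) := by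
    unfold dotProduct
    fun_prop
  have hm2 : Measurable (fun p : ℝ × ℝ =>
        (√((1 + a ⬝ᵥ b) / 2) * p.1 + √((1 - a ⬝ᵥ b) / 2) * p.2,
         √((1 + a ⬝ᵥ b) / 2) * p.1 - √((1 - a ⬝ᵥ b) / 2) * p.2)) := by fun_prop
  have hpos : ∀ c : Fin d → ℝ, 0 ≤ c ⬝ᵥ c := by
    intro c
    unfold dotProduct
    exact Finset.sum_nonneg fun i _ => mul_self_nonneg _
  have h1 : 0 ≤ 1 + a ⬝ᵥ b := by
    have := hpos (a + b)
    rw [add_dotProduct, dotProduct_add, dotProduct_add, ha, hb, dotProduct_comm b a] at this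
    linarith
  have h2 : 0 ≤ 1 - a ⬝ᵥ b := by
    have := hpos (a - b)
    rw [sub_dotProduct, dotProduct_sub, dotProduct_sub, ha, hb, dotProduct_comm b a] at this
    linarith
  have hc : √((1 + a ⬝ᵥ b) / 2) ^ 2 = (1 + a ⬝ᵥ b) / 2 := Real.sq_sqrt (by linarith)
  have he : √((1 - a ⬝ᵥ b) / 2) ^ 2 = (1 - a ⬝ᵥ b) / 2 := Real.sq_sqrt (by linarith)
  have : IsProbabilityMeasure ((Measure.pi (fun _ : Fin d => gaussianReal 0 1)).map
      (fun y => (a ⬝ᵥ y, b ⬝ᵥ y))) := Measure.isProbabilityMeasure_map hm1.aemeasurable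
  have : IsProbabilityMeasure (((gaussianReal 0 1).prod (gaussianReal 0 1)).map
      (fun p : ℝ × ℝ =>
        (√((1 + a ⬝ᵥ b) / 2) * p.1 + √((1 - a ⬝ᵥ b) / 2) * p.2,
         √((1 + a ⬝ᵥ b) / 2) * p.1 - √((1 - a ⬝ᵥ b) / 2) * p.2))) :=
    Measure.isProbabilityMeasure_map hm2.aemeasurable
  apply Measure.ext_of_charFunDual
  ext L
  have hL : ∀ s t : ℝ, L (s, t) = L (1, 0) * s + L (0, 1) * t := by
    intro s t
    have h3 : ((s, t) : ℝ × ℝ) = s • (1, 0) + t • (0, 1) := by simp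
    rw [h3, map_add, map_smul, map_smul, smul_eq_mul, smul_eq_mul]
    ring
  have hcont : Continuous (fun v : ℝ × ℝ => Complex.exp ((L v : ℂ) * Complex.I)) := by fun_prop
  rw [charFunDual_apply, charFunDual_apply,
    integral_map hm1.aemeasurable hcont.aestronglyMeasurable,
    integral_map hm2.aemeasurable hcont.aestronglyMeasurable]
  generalize √((1 + a ⬝ᵥ b) / 2) = c at hc ⊢
  generalize √((1 - a ⬝ᵥ b) / 2) = e at he ⊢
  have hl : ∀ y : Fin d → ℝ, L (a ⬝ᵥ y, b ⬝ᵥ y) = (L (1, 0) • a + L (0, 1) • b) ⬝ᵥ y := by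
    intro y
    rw [hL, add_dotProduct, smul_dotProduct, smul_dotProduct, smul_eq_mul, smul_eq_mul]
  have hr : ∀ p : ℝ × ℝ, L (c * p.1 + e * p.2, c * p.1 - e * p.2)
      = ((L (1, 0) + L (0, 1)) * c) * p.1 + ((L (1, 0) - L (0, 1)) * e) * p.2 := by
    intro p
    rw [hL]
    ring
  simp_rw [hl, hr]
  rw [P_law_pi, P_law_prod]
  congr 3
  rw [add_dotProduct, dotProduct_add, dotProduct_add, smul_dotProduct, smul_dotProduct,
    smul_dotProduct, smul_dotProduct, dotProduct_smul, dotProduct_smul, dotProduct_smul,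
    dotProduct_smul, ha, hb, dotProduct_comm b a]
  simp only [smul_eq_mul]
  rw [mul_pow, mul_pow, hc, he]
  ring

end J7436

namespace J7437

theorem KK_nonneg7437 (x : ℝ) : 0 ≤ KK x := by
  unfold KK; have := Real.add_one_le_exp (-|x|); linarith

theorem KK_le7437 (x : ℝ) : KK x ≤ |x| := by
  unfold KK; have := Real.exp_le_one_iff.mpr (neg_nonpos.mpr (abs_nonneg x)); linarith

theorem KK_neg7437 (x : ℝ) : KK (-x) = KK x := by unfold KK; rw [abs_neg]

theorem KK_cont7437 : Continuous KK := by unfold KK; fun_prop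

theorem gg_mono7437 {a b : ℝ} (ha : 0 ≤ a) (hab : a ≤ b) :
    Real.exp (-a) - 1 + a ≤ Real.exp (-b) - 1 + b := by
  have h1 : Real.exp (-b) = Real.exp (-a) * Real.exp (-(b - a)) := by
    rw [← Real.exp_add]; ring_nf
  have h2 : Real.exp (-a) ≤ 1 := Real.exp_le_one_iff.mpr (by linarith)
  have h3 : Real.exp (-(b - a)) ≤ 1 := Real.exp_le_one_iff.mpr (by linarith)
  have h4 := Real.add_one_le_exp (-(b - a))
  have h5 := Real.exp_pos (-a)
  rw [h1]
  nlinarith [mul_nonneg (sub_nonneg.mpr h2) (sub_nonneg.mpr h3)]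

theorem KK_mono7437 {x y : ℝ} (h : |x| ≤ |y|) : KK x ≤ KK y := gg_mono7437 (abs_nonneg x) h

theorem KK_convex7437 : ConvexOn ℝ Set.univ KK := by
  refine ⟨convex_univ, fun x _ y _ a b ha hb hab => ?_⟩
  simp only [smul_eq_mul]
  have h1 : |a * x + b * y| ≤ a * |x| + b * |y| := by
    calc _ ≤ |a * x| + |b * y| := abs_add_le _ _
      _ = _ := by rw [abs_mul, abs_mul, abs_of_nonneg ha, abs_of_nonneg hb]
  have h2 := gg_mono7437 (abs_nonneg _) h1
  have h3 := convexOn_exp.2 (Set.mem_univ (-|x|)) (Set.mem_univ (-|y|)) ha hb hab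
  simp only [smul_eq_mul] at h3
  have e : a * -|x| + b * -|y| = -(a * |x| + b * |y|) := by ring
  rw [e] at h3
  unfold KK
  have hb' : b = 1 - a := by linarith
  subst hb'
  linarith

theorem KK_mid7437 (x y : ℝ) : KK x ≤ (KK (x + y) + KK (x - y)) / 2 := by
  have h := KK_convex7437.2 (Set.mem_univ (x + y)) (Set.mem_univ (x - y))
    (by norm_num : (0 : ℝ) ≤ 1 / 2) (by norm_num : (0 : ℝ) ≤ 1 / 2) (by norm_num)
  simp only [smul_eq_mul] at h
  have e : (1 / 2 : ℝ) * (x + y) + 1 / 2 * (x - y) = x := by ring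
  rw [e] at h
  linarith

theorem gauss_symm7437 (h : ℝ → ℝ) :
    ∫ s, h (-s) ∂(gaussianReal 0 1) = ∫ s, h s ∂(gaussianReal 0 1) := by
  have h1 : (gaussianReal 0 1).map (fun x : ℝ => -x) = gaussianReal 0 1 := by
    rw [gaussianReal_map_neg, neg_zero]
  have h2 : MeasurableEmbedding (fun x : ℝ => -x) := (MeasurableEquiv.neg ℝ).measurableEmbedding
  conv_rhs => rw [← h1]
  rw [h2.integral_map]

theorem int_sq7437 : Integrable (fun s : ℝ => s ^ 2) (gaussianReal 0 1) := by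
  have h : MemLp (id : ℝ → ℝ) 2 (gaussianReal 0 1) := memLp_id_gaussianReal' 2 (by norm_num)
  exact (memLp_two_iff_integrable_sq h.1).mp h

theorem P_two (f : ℝ → ℝ) (hf : Continuous f) (C : ℝ) (hC : ∀ u, |f u| ≤ C * (1 + u ^ 2))
    (m : ℝ) (hm : 0 ≤ m)
    (hmono : ∀ x y, y ≤ x → m * (x - y) ≤ (f x - f (-x)) - (f y - f (-y)))
    (c e δ : ℝ) (hc : 0 ≤ c) (he : 0 ≤ e) :
    Integrable (fun p : ℝ × ℝ => KK (δ + f (c * p.1 + e * p.2) - f (c * p.1 - e * p.2)))
      ((gaussianReal 0 1).prod (gaussianReal 0 1)) ∧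
    ∫ t, KK (m * e * t) ∂(gaussianReal 0 1) ≤
      ∫ p : ℝ × ℝ, KK (δ + f (c * p.1 + e * p.2) - f (c * p.1 - e * p.2))
        ∂((gaussianReal 0 1).prod (gaussianReal 0 1)) := by
  set μ : Measure ℝ := gaussianReal 0 1 with hμ
  set F : ℝ × ℝ → ℝ := fun p => δ + f (c * p.1 + e * p.2) - f (c * p.1 - e * p.2) with hF
  have hFc : Continuous F := by
    simp only [hF]; fun_prop
  have hC0 : 0 ≤ C := by
    have := hC 0
    have h2 := abs_nonneg (f 0)
    simp at this; linarith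
  have hFb : ∀ p, |F p| ≤ |δ| + 2 * C + 2 * C * (c ^ 2 * p.1 ^ 2 + e ^ 2 * p.2 ^ 2) := by
    intro p
    simp only [hF]
    calc |δ + f (c * p.1 + e * p.2) - f (c * p.1 - e * p.2)|
        ≤ |δ| + |f (c * p.1 + e * p.2)| + |f (c * p.1 - e * p.2)| :=
          (abs_sub _ _).trans (add_le_add_left (abs_add_le _ _) _)
      _ ≤ |δ| + C * (1 + (c * p.1 + e * p.2) ^ 2) + C * (1 + (c * p.1 - e * p.2) ^ 2) := by
          gcongr <;> exact hC _
      _ = _ := by ring
  have hsqm := int_sq7437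
  have hBi : Integrable (fun p : ℝ × ℝ => |δ| + 2 * C + 2 * C * (c ^ 2 * p.1 ^ 2 + e ^ 2 * p.2 ^ 2))
      (μ.prod μ) := by
    have h1 : Integrable (fun p : ℝ × ℝ => p.1 ^ 2) (μ.prod μ) := hsqm.comp_fst μ
    have h2 : Integrable (fun p : ℝ × ℝ => p.2 ^ 2) (μ.prod μ) := hsqm.comp_snd μ
    exact (integrable_const _).add (((h1.const_mul _).add (h2.const_mul _)).const_mul _)
  have hFi : Integrable F (μ.prod μ) := by
    refine hBi.mono' hFc.aestronglyMeasurable (Filter.Eventually.of_forall fun p => ?_)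
    rw [Real.norm_eq_abs]; exact hFb p
  have hKi : Integrable (fun p => KK (F p)) (μ.prod μ) := by
    refine hFi.mono (KK_cont7437.comp hFc).aestronglyMeasurable (Filter.Eventually.of_forall fun p => ?_)
    rw [Real.norm_eq_abs, Real.norm_eq_abs, abs_of_nonneg (KK_nonneg7437 _)]
    exact KK_le7437 _
  refine ⟨hKi, ?_⟩
  -- integrability of one-variable functions
  have hgi : ∀ t : ℝ, Integrable (fun s => f (c * s + e * t)) μ := by
    intro t
    have hb : Integrable (fun s : ℝ => C * (1 + 2 * (c ^ 2 * s ^ 2 + (e * t) ^ 2))) μ :=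
      ((integrable_const _).add (((hsqm.const_mul _).add (integrable_const _)).const_mul _)).const_mul _
    refine hb.mono' (by fun_prop : Continuous fun s => f (c * s + e * t)).aestronglyMeasurable
      (Filter.Eventually.of_forall fun s => ?_)
    rw [Real.norm_eq_abs]
    refine (hC _).trans ?_
    gcongr
    nlinarith [sq_nonneg (c * s - e * t)]
  have hgi' : ∀ t : ℝ, Integrable (fun s => f (c * s - e * t)) μ := by
    intro t
    have := hgi (-t)
    simpa [sub_eq_add_neg] using this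
  set D : ℝ → ℝ := fun t => ∫ s, (f (c * s + e * t) - f (c * s - e * t)) ∂μ with hD
  have hDF : ∀ t, ∫ s, F (s, t) ∂μ = δ + D t := by
    intro t
    have e1 : (fun s => F (s, t)) = fun s => δ + (f (c * s + e * t) - f (c * s - e * t)) := by
      funext s; simp only [hF]; ring
    have hi : Integrable (fun s => f (c * s + e * t) - f (c * s - e * t)) μ :=
      (hgi t).sub (hgi' t)
    rw [e1, integral_add (integrable_const _) hi]
    simp [hD, hμ]
  have hDodd : ∀ t, D (-t) = - D t := by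
    intro t
    simp only [hD]
    rw [← integral_neg]
    congr 1
    funext s
    have e1 : c * s + e * -t = c * s - e * t := by ring
    have e2 : c * s - e * -t = c * s + e * t := by ring
    rw [e1, e2]; ring
  have hDpos : ∀ t, 0 ≤ t → m * e * t ≤ D t := by
    intro t ht
    have h1 : D t = ∫ s, (f (-(c * s - e * t)) - f (-(c * s + e * t))) ∂μ := by
      simp only [hD, hμ]
      rw [← gauss_symm7437]
      congr 1
      funext s
      have e1 : c * -s + e * t = -(c * s - e * t) := by ring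
      have e2 : c * -s - e * t = -(c * s + e * t) := by ring
      rw [e1, e2]
    have hi1 : Integrable (fun s => f (c * s + e * t) - f (c * s - e * t)) μ := (hgi t).sub (hgi' t)
    have hi2 : Integrable (fun s => f (-(c * s - e * t)) - f (-(c * s + e * t))) μ := by
      have g1 : Integrable (fun s => f (-(c * s - e * t))) μ := by
        have := (hgi t)
        have hb : Integrable (fun s : ℝ => C * (1 + 2 * (c ^ 2 * s ^ 2 + (e * t) ^ 2))) μ :=
          ((integrable_const _).add (((hsqm.const_mul _).add (integrable_const _)).const_mul _)).const_mul _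
        refine hb.mono' (by fun_prop : Continuous fun s => f (-(c * s - e * t))).aestronglyMeasurable
          (Filter.Eventually.of_forall fun s => ?_)
        rw [Real.norm_eq_abs]
        refine (hC _).trans ?_
        gcongr
        nlinarith [sq_nonneg (c * s + e * t)]
      have g2 : Integrable (fun s => f (-(c * s + e * t))) μ := by
        have hb : Integrable (fun s : ℝ => C * (1 + 2 * (c ^ 2 * s ^ 2 + (e * t) ^ 2))) μ :=
          ((integrable_const _).add (((hsqm.const_mul _).add (integrable_const _)).const_mul _)).const_mul _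
        refine hb.mono' (by fun_prop : Continuous fun s => f (-(c * s + e * t))).aestronglyMeasurable
          (Filter.Eventually.of_forall fun s => ?_)
        rw [Real.norm_eq_abs]
        refine (hC _).trans ?_
        gcongr
        nlinarith [sq_nonneg (c * s - e * t)]
      exact g1.sub g2
    have h2 : 2 * (m * e * t) ≤ D t + D t := by
      conv_rhs => rw [h1]
      have h1' : ∫ s, (f (-(c * s - e * t)) - f (-(c * s + e * t))) ∂μ = D t := h1.symm
      have h3 : (∫ s, (f (c * s + e * t) - f (c * s - e * t)) ∂μ) +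
          ∫ s, (f (-(c * s - e * t)) - f (-(c * s + e * t))) ∂μ =
          ∫ s, ((f (c * s + e * t) - f (c * s - e * t)) +
            (f (-(c * s - e * t)) - f (-(c * s + e * t)))) ∂μ := (integral_add hi1 hi2).symm
      have h4 : D t + D t = ∫ s, ((f (c * s + e * t) - f (c * s - e * t)) +
            (f (-(c * s - e * t)) - f (-(c * s + e * t)))) ∂μ := by
        rw [← h3, h1']
      rw [← h1, h4]
      have h5 : ∫ _s : ℝ, (2 * (m * e * t)) ∂μ = 2 * (m * e * t) := by simp [hμ]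
      rw [← h5]
      apply integral_mono (integrable_const _) (hi1.add hi2)
      intro s
      have h6 := hmono (c * s + e * t) (c * s - e * t) (by nlinarith [mul_nonneg he ht])
      simp only
      have h7 : (c * s + e * t) - (c * s - e * t) = 2 * (e * t) := by ring
      rw [h7] at h6
      show 2 * (m * e * t) ≤ (f (c * s + e * t) - f (c * s - e * t)) +
            (f (-(c * s - e * t)) - f (-(c * s + e * t)))
      linarith
    linarith
  have hDabs : ∀ t, |m * e * t| ≤ |D t| := by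
    intro t
    rcases le_total 0 t with ht | ht
    · rw [abs_of_nonneg (by positivity)]
      exact (hDpos t ht).trans (le_abs_self _)
    · have h1 := hDpos (-t) (by linarith)
      rw [hDodd] at h1
      have h2 : |m * e * t| = m * e * -t := by
        rw [abs_of_nonpos]
        · ring
        · exact mul_nonpos_of_nonneg_of_nonpos (by positivity) ht
      rw [h2]
      exact h1.trans (neg_le_abs _)
  -- integrability of D
  have hDi0 : Integrable (fun t => δ + D t) μ := by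
    have := hFi.integral_prod_right
    refine this.congr (Filter.Eventually.of_forall fun t => ?_)
    exact hDF t
  have hDi : Integrable D μ := by
    have := hDi0.sub (integrable_const δ)
    refine this.congr (Filter.Eventually.of_forall fun t => ?_)
    simp
  have hK1 : Integrable (fun t => KK (D t + δ)) μ := by
    have h1 : Integrable (fun t => D t + δ) μ := hDi.add (integrable_const δ)
    refine h1.mono (KK_cont7437.comp_aestronglyMeasurable h1.1) (Filter.Eventually.of_forall fun p => ?_)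
    rw [Real.norm_eq_abs, Real.norm_eq_abs, abs_of_nonneg (KK_nonneg7437 _)]
    exact KK_le7437 _
  have hK2 : Integrable (fun t => KK (D t - δ)) μ := by
    have h1 : Integrable (fun t => D t - δ) μ := hDi.sub (integrable_const δ)
    refine h1.mono (KK_cont7437.comp_aestronglyMeasurable h1.1) (Filter.Eventually.of_forall fun p => ?_)
    rw [Real.norm_eq_abs, Real.norm_eq_abs, abs_of_nonneg (KK_nonneg7437 _)]
    exact KK_le7437 _
  have hsym : ∫ t, KK (D t - δ) ∂μ = ∫ t, KK (D t + δ) ∂μ := by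
    simp only [hμ]
    rw [← gauss_symm7437]
    congr 1
    funext t
    rw [hDodd, ← KK_neg7437]
    congr 1; ring
  have hstep1 : ∫ t, KK (m * e * t) ∂μ ≤ ∫ t, KK (D t + δ) ∂μ := by
    calc ∫ t, KK (m * e * t) ∂μ ≤ ∫ t, (KK (D t + δ) + KK (D t - δ)) / 2 ∂μ := by
          apply integral_mono_of_nonneg (Filter.Eventually.of_forall fun t => KK_nonneg7437 _)
            ((hK1.add hK2).div_const 2) (Filter.Eventually.of_forall fun t => ?_)
          exact (KK_mono7437 (hDabs t)).trans (KK_mid7437 _ _)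
      _ = (∫ t, KK (D t + δ) ∂μ + ∫ t, KK (D t - δ) ∂μ) / 2 := by
          rw [integral_div, integral_add hK1 hK2]
      _ = ∫ t, KK (D t + δ) ∂μ := by rw [hsym]; ring
  refine hstep1.trans ?_
  rw [integral_prod_symm _ hKi]
  have hKr := hKi.integral_prod_right
  apply integral_mono_ae hK1 hKr
  have hae1 := hKi.prod_left_ae
  filter_upwards [hae1] with t ht
  have hFt : Integrable (fun s => F (s, t)) μ := by
    have : (fun s => F (s, t)) = fun s => δ + (f (c * s + e * t) - f (c * s - e * t)) := by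
      funext s; simp only [hF]; ring
    rw [this]
    exact (integrable_const _).add ((hgi t).sub (hgi' t))
  have hj := KK_convex7437.map_integral_le (μ := μ) KK_cont7437.continuousOn isClosed_univ
    (Filter.Eventually.of_forall fun s => Set.mem_univ (F (s, t))) hFt ht
  rw [hDF, add_comm] at hj
  exact hj

end J7437

namespace J7438

theorem nonneg_of_deriv (f f' : ℝ → ℝ) (hf : ∀ x, HasDerivAt f (f' x) x) (h0 : f 0 = 0)
    (hf' : ∀ x, 0 ≤ x → 0 ≤ f' x) (x : ℝ) (hx : 0 ≤ x) : 0 ≤ f x := by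
  have hmono : MonotoneOn f (Set.Ici 0) := by
    apply monotoneOn_of_deriv_nonneg (convex_Ici 0)
    · exact fun y _ => (hf y).continuousAt.continuousWithinAt
    · exact fun y _ => (hf y).differentiableAt.differentiableWithinAt
    · intro y hy
      rw [interior_Ici] at hy
      rw [(hf y).deriv]
      exact hf' y (le_of_lt hy)
  have := hmono (Set.mem_Ici.mpr le_rfl) (Set.mem_Ici.mpr hx) hx
  rwa [h0] at this

theorem exp_neg_bound (r : ℝ) (hr : 0 ≤ r) :
    r ^ 2 / 2 - r ^ 3 / 6 + r ^ 4 / 24 - r ^ 5 / 120 ≤ Real.exp (-r) - 1 + r := by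
  have he : ∀ x : ℝ, HasDerivAt (fun y : ℝ => Real.exp (-y)) (-Real.exp (-x)) x := by
    intro x
    have := (hasDerivAt_id x).neg.exp
    simpa using this
  have g0 : ∀ x : ℝ, 0 ≤ x → 0 ≤ 1 - Real.exp (-x) := by
    intro x hx
    have : Real.exp (-x) ≤ 1 := Real.exp_le_one_iff.mpr (by linarith)
    linarith
  have g1 : ∀ x : ℝ, 0 ≤ x → 0 ≤ Real.exp (-x) - (1 - x) := by
    intro x hx
    refine nonneg_of_deriv (fun x => Real.exp (-x) - (1 - x)) (fun x => 1 - Real.exp (-x)) ?_ (by simp) g0 x hx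
    intro y
    have : HasDerivAt (fun x => Real.exp (-x) - (1 - x)) _ y := (he y).sub ((hasDerivAt_id y).const_sub 1)
    exact this.congr_deriv (by ring)
  have g2 : ∀ x : ℝ, 0 ≤ x → 0 ≤ (1 - x + x ^ 2 / 2) - Real.exp (-x) := by
    intro x hx
    refine nonneg_of_deriv (fun x => (1 - x + x ^ 2 / 2) - Real.exp (-x)) (fun x => Real.exp (-x) - (1 - x)) ?_ (by simp) g1 x hx
    intro y
    have : HasDerivAt (fun x => (1 - x + x ^ 2 / 2) - Real.exp (-x)) _ y :=
      ((((hasDerivAt_id y).const_sub 1).add ((hasDerivAt_pow 2 y).div_const 2))).sub (he y)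
    exact this.congr_deriv (by push_cast; ring)
  have g3 : ∀ x : ℝ, 0 ≤ x → 0 ≤ Real.exp (-x) - (1 - x + x ^ 2 / 2 - x ^ 3 / 6) := by
    intro x hx
    refine nonneg_of_deriv (fun x => Real.exp (-x) - (1 - x + x ^ 2 / 2 - x ^ 3 / 6))
      (fun x => (1 - x + x ^ 2 / 2) - Real.exp (-x)) ?_ (by simp) g2 x hx
    intro y
    have : HasDerivAt (fun x => Real.exp (-x) - (1 - x + x ^ 2 / 2 - x ^ 3 / 6)) _ y :=
      (he y).sub ((((hasDerivAt_id y).const_sub 1).add ((hasDerivAt_pow 2 y).div_const 2)).sub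
      ((hasDerivAt_pow 3 y).div_const 6))
    exact this.congr_deriv (by push_cast; ring)
  have g4 : ∀ x : ℝ, 0 ≤ x → 0 ≤ (1 - x + x ^ 2 / 2 - x ^ 3 / 6 + x ^ 4 / 24) - Real.exp (-x) := by
    intro x hx
    refine nonneg_of_deriv (fun x => (1 - x + x ^ 2 / 2 - x ^ 3 / 6 + x ^ 4 / 24) - Real.exp (-x))
      (fun x => Real.exp (-x) - (1 - x + x ^ 2 / 2 - x ^ 3 / 6)) ?_ (by simp) g3 x hx
    intro y
    have : HasDerivAt (fun x => (1 - x + x ^ 2 / 2 - x ^ 3 / 6 + x ^ 4 / 24) - Real.exp (-x)) _ y :=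
      (((((hasDerivAt_id y).const_sub 1).add ((hasDerivAt_pow 2 y).div_const 2)).sub
      ((hasDerivAt_pow 3 y).div_const 6)).add ((hasDerivAt_pow 4 y).div_const 24)).sub (he y)
    exact this.congr_deriv (by push_cast; ring)
  have g5 : ∀ x : ℝ, 0 ≤ x → 0 ≤ Real.exp (-x) - (1 - x + x ^ 2 / 2 - x ^ 3 / 6 + x ^ 4 / 24 - x ^ 5 / 120) := by
    intro x hx
    refine nonneg_of_deriv (fun x => Real.exp (-x) - (1 - x + x ^ 2 / 2 - x ^ 3 / 6 + x ^ 4 / 24 - x ^ 5 / 120))
      (fun x => (1 - x + x ^ 2 / 2 - x ^ 3 / 6 + x ^ 4 / 24) - Real.exp (-x)) ?_ (by simp) g4 x hx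
    intro y
    have : HasDerivAt (fun x => Real.exp (-x) - (1 - x + x ^ 2 / 2 - x ^ 3 / 6 + x ^ 4 / 24 - x ^ 5 / 120)) _ y :=
      (he y).sub ((((((hasDerivAt_id y).const_sub 1).add ((hasDerivAt_pow 2 y).div_const 2)).sub
      ((hasDerivAt_pow 3 y).div_const 6)).add ((hasDerivAt_pow 4 y).div_const 24)).sub ((hasDerivAt_pow 5 y).div_const 120))
    exact this.congr_deriv (by push_cast; ring)
  have := g5 r hr
  linarith

theorem absmom (k : ℕ) : ∫ t, |t| ^ k ∂(gaussianReal 0 1) =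
    2 * ((√(2 * Real.pi))⁻¹ * ((1 / 2 : ℝ) ^ (-((k : ℝ) + 1) / 2) * (1 / 2) * Real.Gamma (((k : ℝ) + 1) / 2))) := by
  rw [integral_gaussianReal_eq_integral_smul (by norm_num)]
  have e1 : (fun x : ℝ => gaussianPDFReal 0 1 x • |x| ^ k) =
      fun x : ℝ => (fun y : ℝ => (√(2 * Real.pi))⁻¹ * (y ^ (k : ℝ) * Real.exp (-(1 / 2) * y ^ (2 : ℝ)))) |x| := by
    funext x
    simp only [gaussianPDFReal, NNReal.coe_one, mul_one, sub_zero, smul_eq_mul, Real.rpow_natCast]
    rw [show (2 : ℝ) = ((2 : ℕ) : ℝ) by norm_num, Real.rpow_natCast, sq_abs]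
    push_cast
    rw [mul_assoc, mul_comm (Real.exp _)]
    congr 3
    ring
  have e2 := integral_comp_abs (f := fun y : ℝ => (√(2 * Real.pi))⁻¹ * (y ^ (k : ℝ) * Real.exp (-(1 / 2) * y ^ (2 : ℝ))))
  rw [e1, e2, MeasureTheory.integral_const_mul]
  rw [integral_rpow_mul_exp_neg_mul_rpow (by norm_num) (by have : (0:ℝ) ≤ k := Nat.cast_nonneg k; linarith) (by norm_num)]

theorem two_half : (1 / 2 : ℝ) ^ (-(1 / 2) : ℝ) = √2 := by
  rw [one_div, Real.inv_rpow (by norm_num), Real.rpow_neg (by norm_num), inv_inv, Real.sqrt_eq_rpow]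
  norm_num

theorem hs2 : √2 * √2 = (2 : ℝ) := Real.mul_self_sqrt (by norm_num)

theorem mom2 : ∫ t, |t| ^ 2 ∂(gaussianReal 0 1) = 1 := by
  rw [absmom]
  have h1 : (1 / 2 : ℝ) ^ (-(((2 : ℕ) : ℝ) + 1) / 2) = 2 * √2 := by
    have : (-(((2 : ℕ) : ℝ) + 1) / 2) = (-1 : ℝ) + (-(1 / 2)) := by norm_num
    rw [this, Real.rpow_add (by norm_num), two_half, Real.rpow_neg_one]; norm_num
  have h2 : Real.Gamma ((((2 : ℕ) : ℝ) + 1) / 2) = 1 / 2 * √Real.pi := by
    have : ((((2 : ℕ) : ℝ) + 1) / 2) = 1 / 2 + 1 := by norm_num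
    rw [this, Real.Gamma_add_one (by norm_num), Real.Gamma_one_half_eq]
  rw [h1, h2, Real.sqrt_mul (by norm_num)]
  have hp : 0 < √Real.pi := Real.sqrt_pos.mpr Real.pi_pos
  have h3 : 0 < √(2 : ℝ) := Real.sqrt_pos.mpr (by norm_num)
  field_simp

theorem mom3 : ∫ t, |t| ^ 3 ∂(gaussianReal 0 1) = 2 * √(2 / Real.pi) := by
  rw [absmom]
  have h1 : (1 / 2 : ℝ) ^ (-(((3 : ℕ) : ℝ) + 1) / 2) = 4 := by
    have : (-(((3 : ℕ) : ℝ) + 1) / 2) = ((-2 : ℤ) : ℝ) := by norm_num
    rw [this, Real.rpow_intCast]; norm_num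
  have h2 : Real.Gamma ((((3 : ℕ) : ℝ) + 1) / 2) = 1 := by
    have : ((((3 : ℕ) : ℝ) + 1) / 2) = 2 := by norm_num
    rw [this, Real.Gamma_two]
  rw [h1, h2, Real.sqrt_mul (by norm_num), Real.sqrt_div (by norm_num)]
  have hp : 0 < √Real.pi := Real.sqrt_pos.mpr Real.pi_pos
  have h3 : 0 < √(2 : ℝ) := Real.sqrt_pos.mpr (by norm_num)
  have := hs2
  field_simp
  nlinarith

theorem mom4 : ∫ t, |t| ^ 4 ∂(gaussianReal 0 1) = 3 := by
  rw [absmom]
  have h1 : (1 / 2 : ℝ) ^ (-(((4 : ℕ) : ℝ) + 1) / 2) = 4 * √2 := by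
    have : (-(((4 : ℕ) : ℝ) + 1) / 2) = ((-2 : ℤ) : ℝ) + (-(1 / 2)) := by norm_num
    rw [this, Real.rpow_add (by norm_num), two_half, Real.rpow_intCast]; norm_num
  have h2 : Real.Gamma ((((4 : ℕ) : ℝ) + 1) / 2) = 3 / 4 * √Real.pi := by
    have : ((((4 : ℕ) : ℝ) + 1) / 2) = (1 / 2 + 1) + 1 := by norm_num
    rw [this, Real.Gamma_add_one (by norm_num), Real.Gamma_add_one (by norm_num), Real.Gamma_one_half_eq]
    ring
  rw [h1, h2, Real.sqrt_mul (by norm_num)]
  have hp : 0 < √Real.pi := Real.sqrt_pos.mpr Real.pi_pos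
  have h3 : 0 < √(2 : ℝ) := Real.sqrt_pos.mpr (by norm_num)
  field_simp

theorem mom5 : ∫ t, |t| ^ 5 ∂(gaussianReal 0 1) = 8 * √(2 / Real.pi) := by
  rw [absmom]
  have h1 : (1 / 2 : ℝ) ^ (-(((5 : ℕ) : ℝ) + 1) / 2) = 8 := by
    have : (-(((5 : ℕ) : ℝ) + 1) / 2) = ((-3 : ℤ) : ℝ) := by norm_num
    rw [this, Real.rpow_intCast]; norm_num
  have h2 : Real.Gamma ((((5 : ℕ) : ℝ) + 1) / 2) = 2 := by
    have : ((((5 : ℕ) : ℝ) + 1) / 2) = 2 + 1 := by norm_num
    rw [this, Real.Gamma_add_one (by norm_num), Real.Gamma_two]; norm_num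
  rw [h1, h2, Real.sqrt_mul (by norm_num), Real.sqrt_div (by norm_num)]
  have hp : 0 < √Real.pi := Real.sqrt_pos.mpr Real.pi_pos
  have h3 : 0 < √(2 : ℝ) := Real.sqrt_pos.mpr (by norm_num)
  have := hs2
  field_simp
  nlinarith

theorem int_abs (k : ℕ) : Integrable (fun t : ℝ => |t| ^ k) (gaussianReal 0 1) := by
  have h := (memLp_id_gaussianReal (μ := 0) (v := 1) (k : NNReal))
  have h2 := MemLp.integrable_norm_pow' (p := k) (by simpa using h)
  simpa using h2

theorem P_mom (κ : ℝ) (hκ : 0 ≤ κ) :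
    κ ^ 2 / 2 - √(2 / Real.pi) / 3 * κ ^ 3 + κ ^ 4 / 8 - √(2 / Real.pi) / 15 * κ ^ 5 ≤
      ∫ t, KK (κ * t) ∂(gaussianReal 0 1) := by
  have hint : Integrable (fun t : ℝ => KK (κ * t)) (gaussianReal 0 1) := by
    have h1 := (int_abs 1).const_mul κ
    refine Integrable.mono' h1 ?_ ?_
    · have : Continuous fun t : ℝ => KK (κ * t) := by unfold KK; fun_prop
      exact this.aestronglyMeasurable
    · refine Filter.Eventually.of_forall (fun t => ?_)
      unfold KK
      have h2 : Real.exp (-|κ * t|) ≤ 1 := Real.exp_le_one_iff.mpr (by have := abs_nonneg (κ * t); linarith)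
      have h3 := Real.add_one_le_exp (-|κ * t|)
      rw [Real.norm_eq_abs, abs_of_nonneg (by linarith), abs_mul, abs_of_nonneg hκ, pow_one]
      rw [abs_mul, abs_of_nonneg hκ] at h2
      linarith
  have hpoly : ∫ t, (κ ^ 2 / 2 * |t| ^ 2 - κ ^ 3 / 6 * |t| ^ 3 + κ ^ 4 / 24 * |t| ^ 4 - κ ^ 5 / 120 * |t| ^ 5) ∂(gaussianReal 0 1)
      = κ ^ 2 / 2 - √(2 / Real.pi) / 3 * κ ^ 3 + κ ^ 4 / 8 - √(2 / Real.pi) / 15 * κ ^ 5 := by
    rw [integral_sub, integral_add, integral_sub, integral_const_mul, integral_const_mul, integral_const_mul,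
      integral_const_mul, mom2, mom3, mom4, mom5]
    · ring
    · exact (int_abs 2).const_mul _
    · exact (int_abs 3).const_mul _
    · exact ((int_abs 2).const_mul _).sub ((int_abs 3).const_mul _)
    · exact (int_abs 4).const_mul _
    · exact (((int_abs 2).const_mul _).sub ((int_abs 3).const_mul _)).add ((int_abs 4).const_mul _)
    · exact (int_abs 5).const_mul _
  rw [← hpoly]
  refine integral_mono ?_ hint ?_
  · exact ((((int_abs 2).const_mul _).sub ((int_abs 3).const_mul _)).add ((int_abs 4).const_mul _)).sub ((int_abs 5).const_mul _)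
  · intro t
    have h := exp_neg_bound |κ * t| (abs_nonneg _)
    have e : |κ * t| = κ * |t| := by rw [abs_mul, abs_of_nonneg hκ]
    simp only [KK]
    rw [e] at h ⊢
    refine le_trans (le_of_eq ?_) h
    ring

end J7438

namespace J7837

theorem P_pair
    (hlaw : ∀ {d : ℕ} (a b : Fin d → ℝ), a ⬝ᵥ a = 1 → b ⬝ᵥ b = 1 →
      (Measure.pi (fun _ : Fin d => gaussianReal 0 1)).map (fun y => (a ⬝ᵥ y, b ⬝ᵥ y)) =
      ((gaussianReal 0 1).prod (gaussianReal 0 1)).map (fun p : ℝ × ℝ =>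
        (√((1 + a ⬝ᵥ b) / 2) * p.1 + √((1 - a ⬝ᵥ b) / 2) * p.2,
         √((1 + a ⬝ᵥ b) / 2) * p.1 - √((1 - a ⬝ᵥ b) / 2) * p.2)))
    (htwo : ∀ (f : ℝ → ℝ), Continuous f → ∀ C : ℝ, (∀ u, |f u| ≤ C * (1 + u ^ 2)) →
      ∀ m : ℝ, 0 ≤ m → (∀ x y, y ≤ x → m * (x - y) ≤ (f x - f (-x)) - (f y - f (-y))) →
      ∀ c e δ : ℝ, 0 ≤ c → 0 ≤ e →
      Integrable (fun p : ℝ × ℝ => KK (δ + f (c * p.1 + e * p.2) - f (c * p.1 - e * p.2)))
        ((gaussianReal 0 1).prod (gaussianReal 0 1)) ∧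
      ∫ t, KK (m * e * t) ∂(gaussianReal 0 1) ≤
        ∫ p : ℝ × ℝ, KK (δ + f (c * p.1 + e * p.2) - f (c * p.1 - e * p.2))
          ∂((gaussianReal 0 1).prod (gaussianReal 0 1)))
    (hmom : ∀ κ : ℝ, 0 ≤ κ →
      κ ^ 2 / 2 - √(2 / Real.pi) / 3 * κ ^ 3 + κ ^ 4 / 8 - √(2 / Real.pi) / 15 * κ ^ 5 ≤
        ∫ t, KK (κ * t) ∂(gaussianReal 0 1))
    (hmono : ∀ x y, y ≤ x → 2 * √(2 / Real.pi) * (x - y) ≤ (ell x - ell (-x)) - (ell y - ell (-y)))
    (hgrow : Continuous ell ∧ ∃ C : ℝ, 0 ≤ C ∧ ∀ u, |ell u| ≤ C * (1 + u ^ 2))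
    {d : ℕ} (a b : Fin d → ℝ) (ha : a ⬝ᵥ a = 1) (hb : b ⬝ᵥ b = 1) (δ : ℝ) :
    Integrable (fun y => KK (δ + ell (a ⬝ᵥ y) - ell (b ⬝ᵥ y)))
      (Measure.pi (fun _ : Fin d => gaussianReal 0 1)) ∧
    Pol (√(1 - a ⬝ᵥ b)) ≤ ∫ y, KK (δ + ell (a ⬝ᵥ y) - ell (b ⬝ᵥ y))
      ∂(Measure.pi (fun _ : Fin d => gaussianReal 0 1)) := by
  obtain ⟨hcont, C, hC0, hC⟩ := hgrow
  obtain ⟨ρ, hρ⟩ : ∃ ρ, ρ = a ⬝ᵥ b := ⟨_, rfl⟩
  have hba : b ⬝ᵥ a = a ⬝ᵥ b := dotProduct_comm b a
  have hρ1 : ρ ≤ 1 := by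
    have h1 : 0 ≤ (a - b) ⬝ᵥ (a - b) := by
      simp only [dotProduct]
      exact Finset.sum_nonneg fun i _ => mul_self_nonneg _
    rw [sub_dotProduct, dotProduct_sub, dotProduct_sub, ha, hb, hba, ← hρ] at h1
    linarith
  have hρ2 : -1 ≤ ρ := by
    have h1 : 0 ≤ (a + b) ⬝ᵥ (a + b) := by
      simp only [dotProduct]
      exact Finset.sum_nonneg fun i _ => mul_self_nonneg _
    rw [add_dotProduct, dotProduct_add, dotProduct_add, ha, hb, hba, ← hρ] at h1
    linarith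
  have hlaw' := hlaw a b ha hb
  rw [← hρ] at hlaw' ⊢
  obtain ⟨F, hF⟩ : ∃ F : ℝ × ℝ → ℝ, F = fun p => KK (δ + ell p.1 - ell p.2) := ⟨_, rfl⟩
  have hKKc : Continuous KK := by
    unfold KK
    fun_prop
  have hFc : Continuous F := by
    rw [hF]
    exact hKKc.comp ((continuous_const.add (hcont.comp continuous_fst)).sub
      (hcont.comp continuous_snd))
  have hg1 : Measurable (fun y : Fin d → ℝ => (a ⬝ᵥ y, b ⬝ᵥ y)) := by
    simp only [dotProduct]
    fun_prop
  have hg2 : Measurable (fun p : ℝ × ℝ =>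
        (√((1 + ρ) / 2) * p.1 + √((1 - ρ) / 2) * p.2,
         √((1 + ρ) / 2) * p.1 - √((1 - ρ) / 2) * p.2)) := by
    fun_prop
  obtain ⟨hint, hle⟩ := htwo ell hcont C hC (2 * √(2 / Real.pi)) (by positivity) hmono
    (√((1 + ρ) / 2)) (√((1 - ρ) / 2)) δ (Real.sqrt_nonneg _) (Real.sqrt_nonneg _)
  have hmom' := hmom (2 * √(2 / Real.pi) * √((1 - ρ) / 2)) (by positivity)
  have e1 : (fun y : Fin d → ℝ => KK (δ + ell (a ⬝ᵥ y) - ell (b ⬝ᵥ y))) =
      F ∘ (fun y : Fin d → ℝ => (a ⬝ᵥ y, b ⬝ᵥ y)) := by rw [hF]; rfl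
  have e2 : (fun p : ℝ × ℝ => KK (δ + ell (√((1 + ρ) / 2) * p.1 + √((1 - ρ) / 2) * p.2) -
      ell (√((1 + ρ) / 2) * p.1 - √((1 - ρ) / 2) * p.2))) =
      F ∘ (fun p : ℝ × ℝ =>
        (√((1 + ρ) / 2) * p.1 + √((1 - ρ) / 2) * p.2,
         √((1 + ρ) / 2) * p.1 - √((1 - ρ) / 2) * p.2)) := by rw [hF]; rfl
  rw [e2] at hint hle
  constructor
  · rw [e1, ← integrable_map_measure hFc.aestronglyMeasurable hg1.aemeasurable, hlaw',
      integrable_map_measure hFc.aestronglyMeasurable hg2.aemeasurable]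
    exact hint
  · have e3 : ∫ y, KK (δ + ell (a ⬝ᵥ y) - ell (b ⬝ᵥ y))
        ∂(Measure.pi (fun _ : Fin d => gaussianReal 0 1)) =
        ∫ p, F ((fun p : ℝ × ℝ =>
        (√((1 + ρ) / 2) * p.1 + √((1 - ρ) / 2) * p.2,
         √((1 + ρ) / 2) * p.1 - √((1 - ρ) / 2) * p.2)) p)
          ∂((gaussianReal 0 1).prod (gaussianReal 0 1)) := by
      rw [← integral_map hg2.aemeasurable hFc.aestronglyMeasurable, ← hlaw',
        integral_map hg1.aemeasurable hFc.aestronglyMeasurable, hF]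
    rw [e3]
    refine le_trans (le_trans (le_of_eq ?_) hmom') hle
    obtain ⟨P, hP⟩ : ∃ P, P = √Real.pi := ⟨_, rfl⟩
    have hP0 : 0 < P := by rw [hP]; exact Real.sqrt_pos.2 Real.pi_pos
    have hPP : Real.pi = P ^ 2 := by rw [hP, Real.sq_sqrt Real.pi_pos.le]
    have h2 : √(2 / Real.pi) = √2 / P := by rw [hP, Real.sqrt_div (by norm_num)]
    obtain ⟨s, hs⟩ : ∃ s, s = √(1 - ρ) := ⟨_, rfl⟩
    have h3 : √((1 - ρ) / 2) = s / √2 := by rw [hs, Real.sqrt_div (by linarith)]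
    have h4 : √2 ^ 2 = 2 := Real.sq_sqrt (by norm_num)
    have h5 : 0 < √2 := by positivity
    have hκ : 2 * √(2 / Real.pi) * √((1 - ρ) / 2) = 2 * s / P := by
      rw [h2, h3]
      field_simp
    rw [hκ, h2, ← hs]
    unfold Pol
    rw [hPP]
    field_simp
    ring

end J7837

end Pool.Agent.Helper7.Simplex
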