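import Pool.Agent.Helper7.Simplex.Defs

open MeasureTheory ProbabilityTheory Matrix
open scoped ENNReal

namespace Pool.Agent.Helper7.Simplex

namespace J7613

theorem Pol_coef : (0.6366 : ℝ) ≤ 2 / Real.pi ∧ 8 * √2 / (3 * Real.pi ^ 2) ≤ 0.3822 ∧
    0.2026 ≤ 2 / Real.pi ^ 2 ∧ 32 * √2 / (15 * Real.pi ^ 3) ≤ 0.0974 := by
  have hp1 := Real.pi_gt_d6
  have hp2 := Real.pi_lt_d6
  have hpos := Real.pi_pos
  have hs2 : √2 ≤ 1.41422 := by
    rw [Real.sqrt_le_left (by norm_num)]
    norm_num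
  have hp2' : (9.8696 : ℝ) ≤ Real.pi ^ 2 := by nlinarith
  have hp2'' : Real.pi ^ 2 ≤ 9.86961 := by nlinarith
  have hp3 : (31.0062 : ℝ) ≤ Real.pi ^ 3 := by
    have : Real.pi ^ 3 = Real.pi ^ 2 * Real.pi := by ring
    rw [this]; nlinarith
  refine ⟨?_, ?_, ?_, ?_⟩
  · rw [le_div_iff₀ hpos]; nlinarith
  · rw [div_le_iff₀ (by positivity)]; nlinarith
  · rw [le_div_iff₀ (by positivity)]; nlinarith
  · rw [div_le_iff₀ (by positivity)]; nlinarith

theorem Pol_lower (s : ℝ) (hs : 0 ≤ s) :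
    s ^ 2 * (0.6366 - 0.3822 * s + 0.2026 * s ^ 2 - 0.0974 * s ^ 3) ≤ Pol s := by
  obtain ⟨h1, h2, h3, h4⟩ := Pol_coef
  unfold Pol
  have e2 : 0 ≤ s ^ 2 := by positivity
  have e3 : 0 ≤ s ^ 3 := by positivity
  have e4 : 0 ≤ s ^ 4 := by positivity
  have e5 : 0 ≤ s ^ 5 := by positivity
  have a1 := mul_le_mul_of_nonneg_right h1 e2
  have a2 := mul_le_mul_of_nonneg_right h2 e3
  have a3 := mul_le_mul_of_nonneg_right h3 e4
  have a4 := mul_le_mul_of_nonneg_right h4 e5
  have : s ^ 2 * (0.6366 - 0.3822 * s + 0.2026 * s ^ 2 - 0.0974 * s ^ 3) =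
    0.6366 * s ^ 2 - 0.3822 * s ^ 3 + 0.2026 * s ^ 4 - 0.0974 * s ^ 5 := by ring
  rw [this]
  linarith

theorem Pol_two (r : ℝ) (h1 : -1 ≤ r) (h2 : r ≤ 1) :
    0.2 * (1 - r) + 0.14 * (1 - r ^ 2) ≤ Pol (√(1 - r)) := by
  set s := √(1 - r) with hs
  have hs0 : 0 ≤ s := Real.sqrt_nonneg _
  have hss : s ^ 2 = 1 - r := Real.sq_sqrt (by linarith)
  have hs2 : s ≤ 1.41422 := by
    rw [hs, Real.sqrt_le_left (by norm_num)]
    norm_num; linarith
  have hr : r = 1 - s ^ 2 := by linarith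
  refine le_trans ?_ (Pol_lower s hs0)
  rw [hr]
  have key : 0 ≤ 0.6366 - 0.3822 * s + 0.2026 * s ^ 2 - 0.0974 * s ^ 3 - 0.2 - 0.14 * (2 - s ^ 2) := by
    nlinarith [mul_nonneg hs0 (sq_nonneg (s - 1)), mul_nonneg (sub_nonneg.2 hs2) (sq_nonneg (s - 0.911)), mul_nonneg (sub_nonneg.2 hs2) (sq_nonneg s), mul_nonneg hs0 (sub_nonneg.2 hs2), mul_nonneg hs0 (sq_nonneg (s - 1.41422))]
  have := mul_nonneg (sq_nonneg s) key
  nlinarith

theorem Pol_three (r : ℝ) (h1 : -1 ≤ r) (h2 : r ≤ 1) :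
    0.2622 * (1 - r ^ 2) ≤ Pol (√(1 - r)) := by
  set s := √(1 - r) with hs
  have hs0 : 0 ≤ s := Real.sqrt_nonneg _
  have hss : s ^ 2 = 1 - r := Real.sq_sqrt (by linarith)
  have hs2 : s ≤ 1.41422 := by
    rw [hs, Real.sqrt_le_left (by norm_num)]
    norm_num; linarith
  have hr : r = 1 - s ^ 2 := by linarith
  refine le_trans ?_ (Pol_lower s hs0)
  rw [hr]
  have key : 0 ≤ 0.6366 - 0.3822 * s + 0.2026 * s ^ 2 - 0.0974 * s ^ 3 - 0.2622 * (2 - s ^ 2) := by
    nlinarith [mul_nonneg hs0 (sq_nonneg (s - 1)), mul_nonneg (sub_nonneg.2 hs2) (sq_nonneg (s - 0.485)), mul_nonneg (sub_nonneg.2 hs2) (sq_nonneg s), mul_nonneg hs0 (sub_nonneg.2 hs2), mul_nonneg hs0 (sq_nonneg (s - 1.41422))]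
  have := mul_nonneg (sq_nonneg s) key
  nlinarith

end J7613

namespace J7614

theorem scal_two (c : ℝ) (h1 : 1 / 2 ≤ c) (h2 : c ≤ 1) :
    -(c * Real.log c) - (1 - c) * Real.log 2 ≤ 0.34 * ((1 - c) * (2 * c - 1) / c) := by
  have hc : 0 < c := by linarith
  have hl1 := Real.log_two_gt_d9
  have hl2 := Real.log_two_lt_d9
  rcases le_or_gt c 0.63 with hs | hs
  · have e1 : Real.log (2 * c) = Real.log 2 + Real.log c := Real.log_mul (by norm_num) hc.ne'
    have e2 : 1 - (2 * c)⁻¹ ≤ Real.log (2 * c) := Real.one_sub_inv_le_log_of_pos (by positivity)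
    have e3 : c - 1 / 2 ≤ c * Real.log (2 * c) := by
      have := mul_le_mul_of_nonneg_left e2 hc.le
      have e4 : c * (1 - (2 * c)⁻¹) = c - 1 / 2 := by field_simp
      linarith
    have e5 : -(c * Real.log c) - (1 - c) * Real.log 2 ≤ (2 * c - 1) * (Real.log 2 - 1 / 2) := by
      rw [e1] at e3
      nlinarith
    refine e5.trans ?_
    have e6 : 0.34 * ((1 - c) * (2 * c - 1) / c) = (2 * c - 1) * (0.34 * (1 - c) / c) := by
      field_simp
    rw [e6]
    apply mul_le_mul_of_nonneg_left _ (by linarith)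
    rw [le_div_iff₀ hc]
    nlinarith
  · have e1 : -Real.log c ≤ Real.sinh (-Real.log c) :=
      Real.self_le_sinh_iff.mpr (by
        have := Real.log_nonpos hc.le h2
        linarith)
    rw [Real.sinh_eq, neg_neg, Real.exp_neg, Real.exp_log hc] at e1
    have e2 : -(c * Real.log c) ≤ (1 - c ^ 2) / 2 := by
      have := mul_le_mul_of_nonneg_left e1 hc.le
      have e4 : c * ((c⁻¹ - c) / 2) = (1 - c ^ 2) / 2 := by field_simp
      linarith
    have e3 : -(c * Real.log c) - (1 - c) * Real.log 2 ≤ (1 - c) * ((1 + c) / 2 - 0.6931471803) := by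
      nlinarith
    refine e3.trans ?_
    have e6 : 0.34 * ((1 - c) * (2 * c - 1) / c) = (1 - c) * (0.34 * (2 * c - 1) / c) := by
      field_simp
    rw [e6]
    apply mul_le_mul_of_nonneg_left _ (by linarith)
    rw [le_div_iff₀ hc]
    nlinarith

end J7614

namespace J7616

theorem Fmono_7616 (a x y : ℝ) (hx : 0 < x) (hxy : x ≤ y)
    (h : ∀ t, x < t → t < y → 0 ≤ (t - 1) * (1 - a * (t + 1))) :
    Real.log x + (1 - a) * x⁻¹ - a * x ≤ Real.log y + (1 - a) * y⁻¹ - a * y := by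
  have hd : ∀ t : ℝ, 0 < t → HasDerivAt (fun t : ℝ => Real.log t + (1 - a) * t⁻¹ - a * t)
      ((t - 1) * (1 - a * (t + 1)) / t ^ 2) t := by
    intro t ht
    have h1 := ((Real.hasDerivAt_log ht.ne').add ((hasDerivAt_inv ht.ne').const_mul (1 - a))).sub
      ((hasDerivAt_id t).const_mul a)
    refine h1.congr_deriv ?_
    field_simp
    ring
  have hm : MonotoneOn (fun t : ℝ => Real.log t + (1 - a) * t⁻¹ - a * t) (Set.Icc x y) := by
    refine monotoneOn_of_deriv_nonneg (convex_Icc x y) ?_ ?_ ?_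
    · intro t ht
      exact (hd t (lt_of_lt_of_le hx ht.1)).continuousAt.continuousWithinAt
    · intro t ht
      rw [interior_Icc] at ht
      exact (hd t (hx.trans ht.1)).differentiableAt.differentiableWithinAt
    · intro t ht
      rw [interior_Icc] at ht
      rw [(hd t (hx.trans ht.1)).deriv]
      have := h t ht.1 ht.2
      positivity
  exact hm (Set.left_mem_Icc.2 hxy) (Set.right_mem_Icc.2 hxy) hxy

theorem Fanti_7616 (a x y : ℝ) (hx : 0 < x) (hxy : x ≤ y)
    (h : ∀ t, x < t → t < y → (t - 1) * (1 - a * (t + 1)) ≤ 0) :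
    Real.log y + (1 - a) * y⁻¹ - a * y ≤ Real.log x + (1 - a) * x⁻¹ - a * x := by
  have hd : ∀ t : ℝ, 0 < t → HasDerivAt (fun t : ℝ => Real.log t + (1 - a) * t⁻¹ - a * t)
      ((t - 1) * (1 - a * (t + 1)) / t ^ 2) t := by
    intro t ht
    have h1 := ((Real.hasDerivAt_log ht.ne').add ((hasDerivAt_inv ht.ne').const_mul (1 - a))).sub
      ((hasDerivAt_id t).const_mul a)
    refine h1.congr_deriv ?_
    field_simp
    ring
  have hm : AntitoneOn (fun t : ℝ => Real.log t + (1 - a) * t⁻¹ - a * t) (Set.Icc x y) := by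
    refine antitoneOn_of_deriv_nonpos (convex_Icc x y) ?_ ?_ ?_
    · intro t ht
      exact (hd t (lt_of_lt_of_le hx ht.1)).continuousAt.continuousWithinAt
    · intro t ht
      rw [interior_Icc] at ht
      exact (hd t (hx.trans ht.1)).differentiableAt.differentiableWithinAt
    · intro t ht
      rw [interior_Icc] at ht
      rw [(hd t (hx.trans ht.1)).deriv]
      have := h t ht.1 ht.2
      exact div_nonpos_of_nonpos_of_nonneg this (by positivity)
  exact hm (Set.left_mem_Icc.2 hxy) (Set.right_mem_Icc.2 hxy) hxy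

/-- the one variable inequality below the turning point -/
theorem g_low_7616 (a C : ℝ) (ha0 : 0 ≤ a) (ha : a ≤ 1 / 2) (hC : 0 < C) (h1 : a * (C + 1) ≤ 1) :
    1 - 2 * a ≤ Real.log C + (1 - a) * C⁻¹ - a * C := by
  have e : Real.log 1 + (1 - a) * (1 : ℝ)⁻¹ - a * 1 = 1 - 2 * a := by
    rw [Real.log_one]; ring
  rcases le_total C 1 with h | h
  · rw [← e]
    refine Fanti_7616 a C 1 hC h ?_
    intro t ht1 ht2
    have h3 : 0 ≤ 1 - a * (t + 1) := by nlinarith
    exact mul_nonpos_of_nonpos_of_nonneg (by linarith) h3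
  · rw [← e]
    refine Fmono_7616 a 1 C one_pos h ?_
    intro t ht1 ht2
    have h3 : 0 ≤ 1 - a * (t + 1) := by nlinarith
    exact mul_nonneg (by linarith) h3

theorem log32_7616 : 0.405 ≤ Real.log 1.5 ∧ Real.log 1.5 ≤ 0.4055 := by
  constructor
  · rw [Real.le_log_iff_exp_le (by norm_num)]
    have h := Real.exp_bound' (x := 0.405) (by norm_num) (by norm_num) (n := 5) (by norm_num)
    refine h.trans ?_
    simp only [Finset.sum_range_succ, Finset.sum_range_zero, Nat.factorial]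
    norm_num
  · rw [Real.log_le_iff_le_exp (by norm_num)]
    have h := Real.sum_le_exp_of_nonneg (x := 0.4055) (by norm_num) 6
    refine le_trans ?_ h
    simp only [Finset.sum_range_succ, Finset.sum_range_zero, Nat.factorial]
    norm_num

theorem log43_7616 : 0.27 ≤ Real.log (4 / 3) ∧ Real.log (4 / 3) ≤ 0.31 := by
  constructor
  · rw [Real.le_log_iff_exp_le (by norm_num)]
    have h := Real.exp_bound' (x := 0.27) (by norm_num) (by norm_num) (n := 3) (by norm_num)
    refine h.trans ?_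
    simp only [Finset.sum_range_succ, Finset.sum_range_zero, Nat.factorial]
    norm_num
  · rw [Real.log_le_iff_le_exp (by norm_num)]
    have h := Real.sum_le_exp_of_nonneg (x := 0.31) (by norm_num) 4
    refine le_trans ?_ h
    simp only [Finset.sum_range_succ, Finset.sum_range_zero, Nat.factorial]
    norm_num

theorem Ab_lower_7616 (b : ℕ) (hb : 3 ≤ b) : 1 / (b : ℝ) ≤ Ab b := by
  have hb' : (3 : ℝ) ≤ b := by exact_mod_cast hb
  unfold Ab
  have h1 := Real.one_sub_inv_le_log_of_pos (x := (b : ℝ) / (b - 1)) (by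
    apply div_pos <;> linarith)
  refine le_trans (le_of_eq ?_) h1
  have h2 : (b : ℝ) - 1 ≠ 0 := by linarith
  have h3 : (b : ℝ) ≠ 0 := by linarith
  field_simp
  ring

theorem Ab_upper_7616 (b : ℕ) (hb : 3 ≤ b) : Ab b ≤ 1 / ((b : ℝ) - 1) := by
  have hb' : (3 : ℝ) ≤ b := by exact_mod_cast hb
  unfold Ab
  have h1 := Real.log_le_sub_one_of_pos (x := (b : ℝ) / (b - 1)) (by
    apply div_pos <;> linarith)
  refine h1.trans (le_of_eq ?_)
  have h2 : (b : ℝ) - 1 ≠ 0 := by linarith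
  field_simp
  ring

theorem Bb_eq_7616 (b : ℕ) (hb : 3 ≤ b) :
    Bb b = Real.log ((b : ℝ) - 1) - ((b : ℝ) - 1) * Ab b := by
  have hb' : (3 : ℝ) ≤ b := by exact_mod_cast hb
  unfold Ab Bb
  rw [Real.log_div (by linarith) (by linarith)]
  ring

theorem Bb_eq'_7616 (b : ℕ) (hb : 3 ≤ b) :
    Bb b = Real.log (b : ℝ) - (b : ℝ) * Ab b := by
  have hb' : (3 : ℝ) ≤ b := by exact_mod_cast hb
  unfold Ab Bb
  rw [Real.log_div (by linarith) (by linarith)]
  ring

theorem log_sub_le_7616 {x y : ℝ} (hx : 0 < x) (hy : 0 < y) :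
    Real.log x - Real.log y ≤ (x - y) / y := by
  rw [← Real.log_div hx.ne' hy.ne']
  have := Real.log_le_sub_one_of_pos (div_pos hx hy)
  refine this.trans (le_of_eq ?_)
  field_simp

theorem line_7616 (b : ℕ) (hb : 3 ≤ b) (m : ℕ) (hm : 1 ≤ m) :
    Real.log (m : ℝ) ≤ Ab b * m + Bb b := by
  have hb' : (3 : ℝ) ≤ b := by exact_mod_cast hb
  have hm' : (1 : ℝ) ≤ m := by exact_mod_cast hm
  have hA1 := Ab_lower_7616 b hb
  have hA2 := Ab_upper_7616 b hb
  rcases lt_or_ge m b with h | h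
  · have h1 : (m : ℝ) ≤ (b : ℝ) - 1 := by
      have : (m : ℝ) + 1 ≤ b := by exact_mod_cast h
      linarith
    rw [Bb_eq_7616 b hb]
    have h2 := log_sub_le_7616 (x := (m : ℝ)) (y := (b : ℝ) - 1) (by linarith) (by linarith)
    have h3 : ((m : ℝ) - ((b : ℝ) - 1)) / ((b : ℝ) - 1) ≤ Ab b * ((m : ℝ) - ((b : ℝ) - 1)) := by
      rw [div_eq_mul_one_div, mul_comm]
      have h4 : 0 ≤ ((b : ℝ) - 1) - m := by linarith
      nlinarith
    linarith
  · have h1 : (b : ℝ) ≤ m := by exact_mod_cast h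
    rw [Bb_eq'_7616 b hb]
    have h2 := log_sub_le_7616 (x := (m : ℝ)) (y := (b : ℝ)) (by linarith) (by linarith)
    have h3 : ((m : ℝ) - (b : ℝ)) / (b : ℝ) ≤ Ab b * ((m : ℝ) - (b : ℝ)) := by
      rw [div_eq_mul_one_div, mul_comm]
      have h4 : 0 ≤ (m : ℝ) - b := by linarith
      nlinarith
    linarith

theorem jensen_7616 {ι : Type} (Y : Finset ι) (c : ι → ℝ) (hY : Y.Nonempty)
    (hc : ∀ i ∈ Y, 0 < c i) :
    ∑ i ∈ Y, -(c i * Real.log (c i)) ≤
      (∑ i ∈ Y, c i) * Real.log (Y.card : ℝ) - (∑ i ∈ Y, c i) * Real.log (∑ i ∈ Y, c i) := by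
  set S := ∑ i ∈ Y, c i with hS
  have hSpos : 0 < S := Finset.sum_pos hc hY
  have hK : (0 : ℝ) < (Y.card : ℝ) := by exact_mod_cast hY.card_pos
  have h1 : ∀ i ∈ Y, -(c i * Real.log (c i)) ≤ S / Y.card - c i -
      c i * (Real.log S - Real.log (Y.card : ℝ)) := by
    intro i hi
    have hci := hc i hi
    have h2 := Real.log_le_sub_one_of_pos (x := (S / Y.card) / c i) (by positivity)
    rw [Real.log_div (by positivity) hci.ne', Real.log_div hSpos.ne' hK.ne'] at h2
    have h3 := mul_le_mul_of_nonneg_left h2 hci.le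
    have h4 : c i * (S / Y.card / c i - 1) = S / Y.card - c i := by
      field_simp
    rw [h4] at h3
    linarith
  refine (Finset.sum_le_sum h1).trans (le_of_eq ?_)
  rw [Finset.sum_sub_distrib, Finset.sum_sub_distrib, Finset.sum_const, ← Finset.sum_mul, ← hS,
    nsmul_eq_mul]
  field_simp
  ring

theorem core_7616 (b : ℕ) (hb : 3 ≤ b) (a : ℝ) (ha0 : 0 ≤ a) (ha1 : a ≤ 1)
    (hslope : 1 + a / ((b : ℝ) - 1) ≤ Ab b * b)
    (hg : ∀ C : ℝ, 0 < C → C ≤ (b : ℝ) / (b - 1) →
      1 - 2 * a ≤ Real.log C + (1 - a) * C⁻¹ - a * C)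
    {ι : Type} (Y : Finset ι) (c : ι → ℝ) (hc1 : ∀ i ∈ Y, 1 / (b : ℝ) ≤ c i)
    (hc2 : ∀ i ∈ Y, c i ≤ 1 / ((b : ℝ) - 1)) :
    ∑ i ∈ Y, (-(c i * Real.log (c i)) - Ab b - Bb b * c i) ≤
      (Ab b * (Y.card : ℝ) - 1) * (∑ i ∈ Y, c i - 1) - a * (∑ i ∈ Y, c i - 1) ^ 2 := by
  have hb' : (3 : ℝ) ≤ b := by exact_mod_cast hb
  rcases Y.eq_empty_or_nonempty with rfl | hY
  · simp
    linarith
  have hcpos : ∀ i ∈ Y, 0 < c i := fun i hi => lt_of_lt_of_le (by positivity) (hc1 i hi)
  have hj := jensen_7616 Y c hY hcpos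
  have hK1 : 1 ≤ Y.card := hY.card_pos
  have hKpos : (0 : ℝ) < (Y.card : ℝ) := by exact_mod_cast hK1
  have hline := line_7616 b hb Y.card hK1
  have hCK : ∑ i ∈ Y, c i ≤ (Y.card : ℝ) * (1 / ((b : ℝ) - 1)) := by
    have := Finset.sum_le_card_nsmul Y c _ hc2
    rwa [nsmul_eq_mul] at this
  have hsplit : ∑ i ∈ Y, (-(c i * Real.log (c i)) - Ab b - Bb b * c i) =
      ∑ i ∈ Y, -(c i * Real.log (c i)) - (Y.card : ℝ) * Ab b - Bb b * ∑ i ∈ Y, c i := by
    rw [Finset.sum_sub_distrib, Finset.sum_sub_distrib, Finset.sum_const, nsmul_eq_mul,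
      Finset.mul_sum]
  rw [hsplit]
  have hCpos : 0 < ∑ i ∈ Y, c i := Finset.sum_pos hcpos hY
  generalize ∑ i ∈ Y, -(c i * Real.log (c i)) = J at hj
  generalize ∑ i ∈ Y, c i = S at hj hCK hCpos
  generalize (Y.card : ℝ) = k at hj hKpos hline hCK
  -- enough
  suffices hs : S * (Real.log k - Ab b * k - Bb b) ≤ S * Real.log S - S + 1 - a * (S - 1) ^ 2 by
    nlinarith
  rcases le_total S ((b : ℝ) / (b - 1)) with hS | hS
  · have h1 : S * (Real.log k - Ab b * k - Bb b) ≤ 0 :=
      mul_nonpos_of_nonneg_of_nonpos hCpos.le (by linarith)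
    have h2 := mul_le_mul_of_nonneg_left (hg S hCpos hS) hCpos.le
    have h3 : S * (Real.log S + (1 - a) * S⁻¹ - a * S) =
        S * Real.log S + (1 - a) - a * S ^ 2 := by
      field_simp
    rw [h3] at h2
    nlinarith
  · have hb1 : (0 : ℝ) < (b : ℝ) - 1 := by linarith
    have hA1 := Ab_lower_7616 b hb
    set y := ((b : ℝ) - 1) * S with hy
    have hyb : (b : ℝ) ≤ y := by
      rw [div_le_iff₀ hb1] at hS
      rw [hy]; linarith
    have hyk : y ≤ k := by
      rw [mul_one_div, le_div_iff₀ hb1] at hCK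
      rw [hy]; linarith
    have hy0 : 0 < y := by linarith
    have h1 := log_sub_le_7616 (x := k) (y := y) hKpos hy0
    have h2 : (k - y) / y ≤ Ab b * (k - y) := by
      rw [div_eq_mul_one_div, mul_comm]
      have h4 : 0 ≤ k - y := by linarith
      have h5 : 1 / y ≤ 1 / (b : ℝ) := one_div_le_one_div_of_le (by linarith) hyb
      nlinarith
    have h3 : Real.log k - Ab b * k ≤ Real.log y - Ab b * y := by linarith
    have h4 : Real.log y = Real.log ((b : ℝ) - 1) + Real.log S := by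
      rw [hy, Real.log_mul hb1.ne' hCpos.ne']
    have h5 : S * (Real.log k - Ab b * k - Bb b) ≤
        S * (Real.log S - Ab b * ((b : ℝ) - 1) * (S - 1)) := by
      refine mul_le_mul_of_nonneg_left ?_ hCpos.le
      rw [Bb_eq_7616 b hb]
      rw [h4, hy] at h3
      linarith
    refine h5.trans ?_
    -- (S-1)(A(b-1)S - 1 - a(S-1)) ≥ 0
    have hSm : 1 / ((b : ℝ) - 1) ≤ S - 1 := by
      have : (b : ℝ) / (b - 1) = 1 + 1 / ((b : ℝ) - 1) := by
        field_simp
        ring
      linarith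
    have hu0 : 0 < 1 / ((b : ℝ) - 1) := by positivity
    have hslope2 : 0 ≤ Ab b * ((b : ℝ) - 1) - a := by
      have e1 : Ab b * b * (b - 1) ≥ ((b : ℝ) - 1) + a := by
        have := mul_le_mul_of_nonneg_right hslope hb1.le
        have e2 : (1 + a / ((b : ℝ) - 1)) * ((b : ℝ) - 1) = ((b : ℝ) - 1) + a := by
          field_simp
        rw [e2] at this
        exact this
      have e3 : 0 ≤ (b : ℝ) * (Ab b * ((b : ℝ) - 1) - a) := by
        nlinarith
      exact (mul_nonneg_iff_of_pos_left (by linarith)).1 e3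
    have hlin : 0 ≤ Ab b * ((b : ℝ) - 1) * S - 1 - a * (S - 1) := by
      have e1 : Ab b * ((b : ℝ) - 1) * S - 1 - a * (S - 1) =
          (Ab b * ((b : ℝ) - 1) - a) * (S - 1 - 1 / ((b : ℝ) - 1)) +
            (Ab b * b - (1 + a / ((b : ℝ) - 1))) := by
        field_simp
        ring
      rw [e1]
      have e2 : 0 ≤ (Ab b * ((b : ℝ) - 1) - a) * (S - 1 - 1 / ((b : ℝ) - 1)) :=
        mul_nonneg hslope2 (by linarith)
      linarith
    have hfin : 0 ≤ (S - 1) * (Ab b * ((b : ℝ) - 1) * S - 1 - a * (S - 1)) :=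
      mul_nonneg (by linarith) hlin
    nlinarith

/-- the log-linear interpolation through `b - 1, b` dominates `log` at all positive integers, with
the quantified form needed below -/
theorem D_set (b : ℕ) (hb : 3 ≤ b) :
    ∃ a : ℝ, 0 ≤ a ∧ a ≤ 1 ∧ Ab b - a / b ≤ 0.2622 ∧
      ∀ {ι : Type} (Y : Finset ι) (c : ι → ℝ), (∀ i ∈ Y, 1 / (b : ℝ) ≤ c i) →
        (∀ i ∈ Y, c i ≤ 1 / ((b : ℝ) - 1)) →
        ∑ i ∈ Y, (-(c i * Real.log (c i)) - Ab b - Bb b * c i) ≤
          (Ab b * (Y.card : ℝ) - 1) * (∑ i ∈ Y, c i - 1) - a * (∑ i ∈ Y, c i - 1) ^ 2 := by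
  have hcases : b = 3 ∨ b = 4 ∨ 5 ≤ b := by omega
  rcases hcases with rfl | rfl | hb5
  · obtain ⟨hl1, hl2⟩ := log32_7616
    have hA : Ab 3 = Real.log 1.5 := by
      unfold Ab; norm_num
    refine ⟨0.43, by norm_num, by norm_num, ?_, ?_⟩
    · rw [hA]
      push_cast
      linarith
    · intro ι Y c h1 h2
      refine core_7616 3 le_rfl 0.43 (by norm_num) (by norm_num) ?_ ?_ Y c h1 h2
      · rw [hA]
        push_cast
        linarith
      · intro C hC hC2
        norm_num at hC2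
        rcases le_total (0.43 * (C + 1)) 1 with h | h
        · exact g_low_7616 0.43 C (by norm_num) (by norm_num) hC h
        · have h3 := Fanti_7616 0.43 C 1.5 hC (by linarith) (by
            intro t ht1 ht2
            have h4 : 1 - 0.43 * (t + 1) ≤ 0 := by linarith
            have h5 : 0 ≤ t - 1 := by linarith
            exact mul_nonpos_of_nonneg_of_nonpos h5 h4)
          refine le_trans ?_ h3
          have e1 : (1.5 : ℝ)⁻¹ = 2 / 3 := by norm_num
          rw [e1]
          linarith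
  · obtain ⟨hl1, hl2⟩ := log43_7616
    have hA : Ab 4 = Real.log (4 / 3) := by
      unfold Ab; norm_num
    refine ⟨0.2, by norm_num, by norm_num, ?_, ?_⟩
    · rw [hA]
      push_cast
      linarith
    · intro ι Y c h1 h2
      refine core_7616 4 (by norm_num) 0.2 (by norm_num) (by norm_num) ?_ ?_ Y c h1 h2
      · rw [hA]
        push_cast
        linarith
      · intro C hC hC2
        norm_num at hC2
        exact g_low_7616 0.2 C (by norm_num) (by norm_num) hC (by linarith)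
  · have hb' : (5 : ℝ) ≤ b := by exact_mod_cast hb5
    refine ⟨0, le_rfl, zero_le_one, ?_, ?_⟩
    · have h1 := Ab_upper_7616 b hb
      have h2 : 1 / ((b : ℝ) - 1) ≤ 1 / 4 := one_div_le_one_div_of_le (by norm_num) (by linarith)
      rw [zero_div, sub_zero]
      linarith
    · intro ι Y c h1 h2
      refine core_7616 b hb 0 le_rfl zero_le_one ?_ ?_ Y c h1 h2
      · have h3 := Ab_lower_7616 b hb
        rw [div_le_iff₀ (by linarith)] at h3
        rw [zero_div, add_zero]
        exact h3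
      · intro C hC hC2
        exact g_low_7616 0 C le_rfl (by norm_num) hC (by linarith)

end J7616

namespace J7617

noncomputable def G_7617 {ι : Type*} [Fintype ι] (A a : ℝ) (c f p : ι → ℝ) : ℝ :=
  (A * ∑ i, p i - 1) * (∑ i, c i * p i - 1) + A * ∑ i, c i * p i * (1 - p i) -
    a * ((∑ i, c i * p i - 1) ^ 2 + ∑ i, (c i) ^ 2 * p i * (1 - p i)) - ∑ i, p i * f i

theorem sum_update_7617 {ι : Type*} [Fintype ι] [DecidableEq ι] (g : ι → ℝ → ℝ) (p : ι → ℝ)
    (j : ι) (t : ℝ) : ∑ i, g i (Function.update p j t i) =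
      g j t + ∑ i ∈ Finset.univ.erase j, g i (p i) := by
  rw [← Finset.add_sum_erase Finset.univ _ (Finset.mem_univ j), Function.update_self]
  congr 1
  apply Finset.sum_congr rfl
  intro i hi
  rw [Function.update_of_ne (Finset.ne_of_mem_erase hi)]

theorem G_update_7617 {ι : Type*} [Fintype ι] [DecidableEq ι] (A a : ℝ) (c f p : ι → ℝ)
    (j : ι) (t : ℝ) : G_7617 A a c f (Function.update p j t) =
      (A * (t + ∑ i ∈ Finset.univ.erase j, p i) - 1) *
        (c j * t + ∑ i ∈ Finset.univ.erase j, c i * p i - 1) +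
      A * (c j * t * (1 - t) + ∑ i ∈ Finset.univ.erase j, c i * p i * (1 - p i)) -
      a * ((c j * t + ∑ i ∈ Finset.univ.erase j, c i * p i - 1) ^ 2 +
        ((c j) ^ 2 * t * (1 - t) + ∑ i ∈ Finset.univ.erase j, (c i) ^ 2 * p i * (1 - p i))) -
      (t * f j + ∑ i ∈ Finset.univ.erase j, p i * f i) := by
  unfold G_7617
  rw [sum_update_7617 (fun _ x => x), sum_update_7617 (fun i x => c i * x),
    sum_update_7617 (fun i x => c i * x * (1 - x)),
    sum_update_7617 (fun i x => (c i) ^ 2 * x * (1 - x)),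
    sum_update_7617 (fun i x => x * f i)]

theorem G_aff_7617 {ι : Type*} [Fintype ι] [DecidableEq ι] (A a : ℝ) (c f p : ι → ℝ) (j : ι) :
    G_7617 A a c f p = (1 - p j) * G_7617 A a c f (Function.update p j 0) +
      p j * G_7617 A a c f (Function.update p j 1) := by
  have h := G_update_7617 A a c f p j (p j)
  rw [Function.update_eq_self] at h
  rw [h, G_update_7617, G_update_7617]
  ring

theorem G_nonneg_7617 {ι : Type*} [Fintype ι] [DecidableEq ι] (A a : ℝ) (c f : ι → ℝ)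
    (hset : ∀ Y : Finset ι, ∑ i ∈ Y, f i ≤
      (A * (Y.card : ℝ) - 1) * (∑ i ∈ Y, c i - 1) - a * (∑ i ∈ Y, c i - 1) ^ 2)
    (s : Finset ι) :
    ∀ p : ι → ℝ, (∀ i, 0 ≤ p i) → (∀ i, p i ≤ 1) → (∀ i, i ∉ s → p i = 0 ∨ p i = 1) →
      0 ≤ G_7617 A a c f p := by
  induction s using Finset.induction_on with
  | empty =>
    intro p _ _ hv
    have hv' : ∀ i, p i = 0 ∨ p i = 1 := fun i => hv i (Finset.notMem_empty i)
    have h := hset (Finset.univ.filter fun i => p i = 1)
    have e : ∀ g : ι → ℝ, ∑ i ∈ Finset.univ.filter (fun i => p i = 1), g i =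
        ∑ i, g i * p i := by
      intro g
      rw [Finset.sum_filter]
      apply Finset.sum_congr rfl
      intro i _
      rcases hv' i with h0 | h1
      · rw [h0]; simp
      · rw [h1]; simp
    have ecard : ((Finset.univ.filter fun i => p i = 1).card : ℝ) = ∑ i, p i := by
      have := e (fun _ => (1 : ℝ))
      simpa using this
    have z1 : ∑ i, c i * p i * (1 - p i) = 0 := by
      apply Finset.sum_eq_zero
      intro i _
      rcases hv' i with h0 | h1
      · rw [h0]; ring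
      · rw [h1]; ring
    have z2 : ∑ i, (c i) ^ 2 * p i * (1 - p i) = 0 := by
      apply Finset.sum_eq_zero
      intro i _
      rcases hv' i with h0 | h1
      · rw [h0]; ring
      · rw [h1]; ring
    have e3 : ∑ i, p i * f i = ∑ i, f i * p i := by
      apply Finset.sum_congr rfl
      intro i _
      ring
    rw [ecard, e f, e c] at h
    unfold G_7617
    rw [z1, z2, e3]
    linarith
  | insert j s hj ih =>
    intro p h0 h1 hv
    rw [G_aff_7617 A a c f p j]
    have key : ∀ t : ℝ, (t = 0 ∨ t = 1) → 0 ≤ G_7617 A a c f (Function.update p j t) := by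
      intro t ht
      apply ih
      · intro i
        by_cases hij : i = j
        · subst hij
          rw [Function.update_self]
          rcases ht with rfl | rfl <;> norm_num
        · rw [Function.update_of_ne hij]; exact h0 i
      · intro i
        by_cases hij : i = j
        · subst hij
          rw [Function.update_self]
          rcases ht with rfl | rfl <;> norm_num
        · rw [Function.update_of_ne hij]; exact h1 i
      · intro i his
        by_cases hij : i = j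
        · subst hij
          rw [Function.update_self]
          exact ht
        · rw [Function.update_of_ne hij]
          exact hv i (by rw [Finset.mem_insert]; push Not; exact ⟨hij, his⟩)
    have k0 := key 0 (Or.inl rfl)
    have k1 := key 1 (Or.inr rfl)
    have hp0 := h0 j
    have hp1 := h1 j
    have : 0 ≤ 1 - p j := by linarith
    positivity

theorem D_bern {ι : Type*} [Fintype ι] (A a : ℝ) (c f : ι → ℝ)
    (hset : ∀ Y : Finset ι, ∑ i ∈ Y, f i ≤
      (A * (Y.card : ℝ) - 1) * (∑ i ∈ Y, c i - 1) - a * (∑ i ∈ Y, c i - 1) ^ 2)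
    (p : ι → ℝ) (hp0 : ∀ i, 0 ≤ p i) (hp1 : ∀ i, p i ≤ 1) (hcp : ∑ i, c i * p i = 1) :
    ∑ i, p i * f i ≤ A * ∑ i, c i * p i * (1 - p i) - a * ∑ i, (c i) ^ 2 * p i * (1 - p i) := by
  classical
  have h := G_nonneg_7617 A a c f hset Finset.univ p hp0 hp1
    (fun i hi => absurd (Finset.mem_univ i) hi)
  unfold G_7617 at h
  rw [hcp] at h
  linarith

end J7617

end Pool.Agent.Helper7.Simplex
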