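import Pool.Agent.Helper7.Simplex.Defs

open MeasureTheory ProbabilityTheory Matrix
open scoped ENNReal

namespace Pool.Agent.Helper7.Simplex

namespace J7439

theorem T_fderiv {d : ℕ} {ι : Type*} [Fintype ι] (w : ι → Fin d → ℝ)
    (S : Matrix (Fin d) (Fin d) ℝ) (φ φ' : ι → ℝ → ℝ)
    (hφ : ∀ i s, HasDerivAt (φ i) (φ' i s) s) (y : Fin d → ℝ) :
    ∃ L : (Fin d → ℝ) →L[ℝ] (Fin d → ℝ),
      HasFDerivAt (fun y : Fin d → ℝ => ∑ i, φ i (w i ⬝ᵥ y) • (S *ᵥ w i)) L y ∧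
      L.det = S.det * (∑ i, φ' i (w i ⬝ᵥ y) • vecMulVec (w i) (w i)).det := by
  let ℓ : ι → ((Fin d → ℝ) →L[ℝ] ℝ) := fun i => ∑ j, w i j • ContinuousLinearMap.proj j
  have hℓ : ∀ i v, ℓ i v = w i ⬝ᵥ v := by
    intro i v
    simp [ℓ, dotProduct]
  let M : Matrix (Fin d) (Fin d) ℝ := S * ∑ i, φ' i (w i ⬝ᵥ y) • vecMulVec (w i) (w i)
  refine ⟨LinearMap.toContinuousLinearMap (Matrix.toLin' M), ?_, ?_⟩
  · have h1 : ∀ i ∈ (Finset.univ : Finset ι), HasFDerivAt (fun y : Fin d → ℝ => φ i (w i ⬝ᵥ y) • (S *ᵥ w i))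
        ((φ' i (w i ⬝ᵥ y) • ℓ i).smulRight (S *ᵥ w i)) y := by
      intro i _
      have h2 : HasFDerivAt (fun y : Fin d → ℝ => ℓ i y) (ℓ i) y := (ℓ i).hasFDerivAt
      have h3 := (hφ i (ℓ i y)).comp_hasFDerivAt y h2
      rw [hℓ] at h3
      have h4 := h3.smul_const (S *ᵥ w i)
      refine h4.congr_of_eventuallyEq ?_
      filter_upwards with z
      simp only [Function.comp, hℓ]
    have h5 := HasFDerivAt.fun_sum h1
    refine h5.congr_fderiv ?_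
    ext v : 1
    rw [LinearMap.coe_toContinuousLinearMap', Matrix.toLin'_apply]
    simp only [M]
    rw [← Matrix.mulVec_mulVec, Matrix.sum_mulVec, Matrix.mulVec_sum, ContinuousLinearMap.sum_apply]
    apply Finset.sum_congr rfl
    intro i _
    rw [Matrix.smul_mulVec, Matrix.mulVec_smul, Matrix.vecMulVec_mulVec]
    simp [hℓ, Matrix.mulVec_smul, smul_smul]
  · rw [ContinuousLinearMap.det, LinearMap.coe_toContinuousLinearMap, LinearMap.det_toLin', Matrix.det_mul]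

end J7439

namespace J7440

theorem T_transport {d : ℕ} {ι : Type*} [Fintype ι] (w : ι → Fin d → ℝ)
    (hspan : ∀ y : Fin d → ℝ, y ≠ 0 → ∃ i, w i ⬝ᵥ y ≠ 0)
    (S : Matrix (Fin d) (Fin d) ℝ) (hS : S.det ≠ 0) (h : Fin d → ℝ) (hh : ∀ i, h ⬝ᵥ (S *ᵥ w i) = 1)
    (φ φ' : ι → ℝ → ℝ) (hφ : ∀ i s, HasDerivAt (φ i) (φ' i s) s) (hφ' : ∀ i s, 0 < φ' i s)
    (hφ0 : ∀ i s, 0 < φ i s)
    (hT : ∀ y : Fin d → ℝ, ∃ L : (Fin d → ℝ) →L[ℝ] (Fin d → ℝ),
      HasFDerivAt (fun y : Fin d → ℝ => ∑ i, φ i (w i ⬝ᵥ y) • (S *ᵥ w i)) L y ∧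
      L.det = S.det * (∑ i, φ' i (w i ⬝ᵥ y) • vecMulVec (w i) (w i)).det) :
    ∫⁻ y : Fin d → ℝ, ENNReal.ofReal (Real.exp (-∑ i, φ i (w i ⬝ᵥ y)) * |S.det| *
      (∑ i, φ' i (w i ⬝ᵥ y) • vecMulVec (w i) (w i)).det) ≤ Vexp (fun i => S *ᵥ w i) h := by
  classical
  choose L hL1 hL2 using hT
  set T : (Fin d → ℝ) → (Fin d → ℝ) := fun y => ∑ i, φ i (w i ⬝ᵥ y) • (S *ᵥ w i) with hTdef
  have hmono : ∀ i, StrictMono (φ i) := by
    intro i
    apply strictMono_of_deriv_pos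
    intro s
    rw [(hφ i s).deriv]
    exact hφ' i s
  have hTS : ∀ y, T y = S *ᵥ (∑ i, φ i (w i ⬝ᵥ y) • w i) := by
    intro y
    rw [hTdef, Matrix.mulVec_sum]
    refine Finset.sum_congr rfl fun i _ => ?_
    rw [Matrix.mulVec_smul]
  have hinj : Function.Injective T := by
    intro y y2 hy
    rw [hTS, hTS] at hy
    have hSu : Function.Injective S.mulVec := Matrix.mulVec_injective_iff_isUnit.mpr
      ((Matrix.isUnit_iff_isUnit_det S).mpr (isUnit_iff_ne_zero.mpr hS))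
    have h1 := hSu hy
    by_contra hne
    have hne' : y - y2 ≠ 0 := sub_ne_zero.mpr hne
    obtain ⟨j, hj⟩ := hspan _ hne'
    have h2 : ∑ i, (φ i (w i ⬝ᵥ y) - φ i (w i ⬝ᵥ y2)) * (w i ⬝ᵥ (y - y2)) = 0 := by
      have h3 : (∑ i, φ i (w i ⬝ᵥ y) • w i - ∑ i, φ i (w i ⬝ᵥ y2) • w i) ⬝ᵥ (y - y2) = 0 := by
        rw [h1, sub_self, zero_dotProduct]
      rw [← Finset.sum_sub_distrib, sum_dotProduct] at h3
      rw [← h3]
      refine Finset.sum_congr rfl fun i _ => ?_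
      rw [← sub_smul, smul_dotProduct, smul_eq_mul]
    have h4 : ∀ i, 0 ≤ (φ i (w i ⬝ᵥ y) - φ i (w i ⬝ᵥ y2)) * (w i ⬝ᵥ (y - y2)) := by
      intro i
      rw [dotProduct_sub]
      rcases le_total (w i ⬝ᵥ y) (w i ⬝ᵥ y2) with h5 | h5
      · have h6 := (hmono i).monotone h5
        exact mul_nonneg_of_nonpos_of_nonpos (by linarith) (by linarith)
      · have h6 := (hmono i).monotone h5
        exact mul_nonneg (by linarith) (by linarith)
    have h7 := (Finset.sum_eq_zero_iff_of_nonneg (fun i _ => h4 i)).mp h2 j (Finset.mem_univ j)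
    rcases mul_eq_zero.mp h7 with h8 | h8
    · have h9 := (hmono j).injective (sub_eq_zero.mp h8)
      apply hj
      rw [dotProduct_sub, h9, sub_self]
    · exact hj h8
  have hcone : T '' Set.univ ⊆ Cone (fun i => S *ᵥ w i) := by
    rintro _ ⟨y, _, rfl⟩
    exact ⟨fun i => φ i (w i ⬝ᵥ y), fun i => (hφ0 i _).le, rfl⟩
  have hhT : ∀ y, h ⬝ᵥ T y = ∑ i, φ i (w i ⬝ᵥ y) := by
    intro y
    rw [hTdef, dotProduct_sum]
    refine Finset.sum_congr rfl fun i _ => ?_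
    rw [dotProduct_smul, hh, smul_eq_mul, mul_one]
  have hdet : ∀ y, 0 ≤ (∑ i, φ' i (w i ⬝ᵥ y) • vecMulVec (w i) (w i)).det := by
    intro y
    apply Matrix.PosSemidef.det_nonneg
    apply Matrix.posSemidef_sum
    intro i _
    have h1 : (vecMulVec (w i) (w i)).PosSemidef := by
      have := Matrix.posSemidef_vecMulVec_self_star (w i)
      rwa [star_trivial] at this
    exact h1.smul (hφ' i _).le
  have hcv := lintegral_image_eq_lintegral_abs_det_fderiv_mul (volume : Measure (Fin d → ℝ))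
    (MeasurableSet.univ) (f := T) (f' := L)
    (fun y _ => (hL1 y).hasFDerivWithinAt) (hinj.injOn)
    (fun x => ENNReal.ofReal (Real.exp (-(h ⬝ᵥ x))))
  unfold Vexp
  calc ∫⁻ y : Fin d → ℝ, ENNReal.ofReal (Real.exp (-∑ i, φ i (w i ⬝ᵥ y)) * |S.det| *
      (∑ i, φ' i (w i ⬝ᵥ y) • vecMulVec (w i) (w i)).det)
      = ∫⁻ y in Set.univ, ENNReal.ofReal |(L y).det| *
          ENNReal.ofReal (Real.exp (-(h ⬝ᵥ T y))) := by
        rw [setLIntegral_univ]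
        refine lintegral_congr fun y => ?_
        rw [← ENNReal.ofReal_mul (abs_nonneg _), hL2, abs_mul, abs_of_nonneg (hdet y), hhT]
        congr 1
        ring
    _ = ∫⁻ x in T '' Set.univ, ENNReal.ofReal (Real.exp (-(h ⬝ᵥ x))) := hcv.symm
    _ ≤ _ := lintegral_mono_set hcone

end J7440

end Pool.Agent.Helper7.Simplex
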