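import Pool.Agent.Helper7.Simplex.Defs

open MeasureTheory ProbabilityTheory Matrix
open scoped ENNReal

namespace Pool.Agent.Helper7.Simplex

namespace J7759

theorem mem_hull_fam {k : ℕ} {ι : Type*} [Fintype ι] (x : ι → Fin k → ℝ) (y : Fin k → ℝ) :
    y ∈ convexHull ℝ (Set.range x) ↔
      ∃ θ : ι → ℝ, (∀ i, 0 ≤ θ i) ∧ ∑ i, θ i = 1 ∧ y = ∑ i, θ i • x i := by
  classical
  constructor
  · intro hy
    have hsub : convexHull ℝ (Set.range x) ⊆
        {y | ∃ θ : ι → ℝ, (∀ i, 0 ≤ θ i) ∧ ∑ i, θ i = 1 ∧ y = ∑ i, θ i • x i} := by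
      refine convexHull_min ?_ ?_
      · rintro _ ⟨i, rfl⟩
        refine ⟨fun j => if j = i then 1 else 0, fun j => ?_, ?_, ?_⟩
        · show (0:ℝ) ≤ if j = i then 1 else 0
          split_ifs <;> norm_num
        · simp
        · simp
      · rintro _ ⟨θ, h1, h2, rfl⟩ _ ⟨φ, h3, h4, rfl⟩ a b ha hb hab
        refine ⟨fun i => a * θ i + b * φ i, fun i => ?_, ?_, ?_⟩
        · exact add_nonneg (mul_nonneg ha (h1 i)) (mul_nonneg hb (h3 i))
        · rw [Finset.sum_add_distrib, ← Finset.mul_sum, ← Finset.mul_sum, h2, h4]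
          linarith
        · rw [Finset.smul_sum, Finset.smul_sum, ← Finset.sum_add_distrib]
          refine Finset.sum_congr rfl fun i _ => ?_
          rw [add_smul, mul_smul, mul_smul]
    exact hsub hy
  · rintro ⟨θ, h1, h2, rfl⟩
    exact (convex_convexHull ℝ _).sum_mem (fun i _ => h1 i) h2
      (fun i _ => subset_convexHull ℝ _ ⟨i, rfl⟩)

theorem mem_Cone_cons {k : ℕ} {ι : Type*} [Fintype ι] (x : ι → Fin k → ℝ) (t : ℝ) (y : Fin k → ℝ) :
    (Matrix.vecCons t y : Fin (k + 1) → ℝ) ∈ Cone (fun i => (Matrix.vecCons 1 (x i) : Fin (k + 1) → ℝ)) ↔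
      ∃ θ : ι → ℝ, (∀ i, 0 ≤ θ i) ∧ t = ∑ i, θ i ∧ y = ∑ i, θ i • x i := by
  unfold Cone
  constructor
  · rintro ⟨θ, h1, h2⟩
    refine ⟨θ, h1, ?_, ?_⟩
    · have h3 := congrFun h2 0
      rw [Finset.sum_apply] at h3
      simpa using h3
    · funext j
      have h3 := congrFun h2 j.succ
      rw [Finset.sum_apply] at h3
      rw [Finset.sum_apply]
      simpa using h3
  · rintro ⟨θ, h1, h2, h3⟩
    refine ⟨θ, h1, ?_⟩
    funext j
    rw [Finset.sum_apply]
    refine Fin.cases ?_ (fun j => ?_) j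
    · simp [h2]
    · rw [h3]
      simp [Finset.sum_apply]

theorem mem_Cone_pos {k : ℕ} {ι : Type*} [Fintype ι] (x : ι → Fin k → ℝ) (t : ℝ) (ht : 0 < t)
    (y : Fin k → ℝ) :
    (Matrix.vecCons t y : Fin (k + 1) → ℝ) ∈ Cone (fun i => (Matrix.vecCons 1 (x i) : Fin (k + 1) → ℝ)) ↔
      t⁻¹ • y ∈ convexHull ℝ (Set.range x) := by
  rw [mem_Cone_cons, mem_hull_fam]
  constructor
  · rintro ⟨θ, h1, h2, h3⟩
    refine ⟨fun i => t⁻¹ * θ i, fun i => mul_nonneg (inv_nonneg.mpr ht.le) (h1 i), ?_, ?_⟩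
    · rw [← Finset.mul_sum, ← h2, inv_mul_cancel₀ ht.ne']
    · rw [h3, Finset.smul_sum]
      exact Finset.sum_congr rfl fun i _ => by rw [mul_smul]
  · rintro ⟨θ, h1, h2, h3⟩
    refine ⟨fun i => t * θ i, fun i => mul_nonneg ht.le (h1 i), ?_, ?_⟩
    · rw [← Finset.mul_sum, h2, mul_one]
    · have h4 : y = t • (t⁻¹ • y) := by rw [smul_smul, mul_inv_cancel₀ ht.ne', one_smul]
      rw [h4, h3, Finset.smul_sum]
      exact Finset.sum_congr rfl fun i _ => by rw [mul_smul]

theorem mem_Cone_neg {k : ℕ} {ι : Type*} [Fintype ι] (x : ι → Fin k → ℝ) (t : ℝ) (ht : t < 0)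
    (y : Fin k → ℝ) :
    (Matrix.vecCons t y : Fin (k + 1) → ℝ) ∉ Cone (fun i => (Matrix.vecCons 1 (x i) : Fin (k + 1) → ℝ)) := by
  rw [mem_Cone_cons]
  rintro ⟨θ, h1, h2, _⟩
  have := Finset.sum_nonneg (s := Finset.univ) fun i _ => h1 i
  linarith

theorem gsymm_eq {k : ℕ} (p : ℝ × (Fin k → ℝ)) :
    (MeasurableEquiv.piFinSuccAbove (fun _ : Fin (k + 1) => ℝ) 0).symm p =
      (Matrix.vecCons p.1 p.2 : Fin (k + 1) → ℝ) := by
  funext j
  refine Fin.cases ?_ (fun j => ?_) j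
  · simp [MeasurableEquiv.piFinSuccAbove]
  · simp [MeasurableEquiv.piFinSuccAbove]

theorem gamma_lint (k : ℕ) :
    ∫⁻ t in Set.Ioi (0:ℝ), ENNReal.ofReal (Real.exp (-t)) * ENNReal.ofReal (t ^ k) =
      (k.factorial : ℝ≥0∞) := by
  have hk : (0:ℝ) < (k:ℝ) + 1 := by positivity
  have h1 := Real.Gamma_eq_integral hk
  have h2 := Real.GammaIntegral_convergent hk
  rw [Real.Gamma_nat_eq_factorial] at h1
  have h3 : ∫⁻ t in Set.Ioi (0:ℝ), ENNReal.ofReal (Real.exp (-t)) * ENNReal.ofReal (t ^ k) =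
      ∫⁻ t in Set.Ioi (0:ℝ), ENNReal.ofReal (Real.exp (-t) * t ^ ((k:ℝ) + 1 - 1)) := by
    refine setLIntegral_congr_fun measurableSet_Ioi fun t ht => ?_
    show ENNReal.ofReal (Real.exp (-t)) * ENNReal.ofReal (t ^ k) =
      ENNReal.ofReal (Real.exp (-t) * t ^ ((k:ℝ) + 1 - 1))
    rw [add_sub_cancel_right, Real.rpow_natCast, ENNReal.ofReal_mul (Real.exp_pos _).le]
  rw [h3, ← ofReal_integral_eq_lintegral_ofReal h2, ← h1, ENNReal.ofReal_natCast]
  refine (ae_restrict_iff' measurableSet_Ioi).mpr (Filter.Eventually.of_forall fun t ht => ?_)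
  have ht' : (0:ℝ) < t := ht
  show (0:ℝ) ≤ Real.exp (-t) * t ^ ((k:ℝ) + 1 - 1)
  exact mul_nonneg (Real.exp_pos _).le (Real.rpow_nonneg ht'.le _)

theorem V_vol {k : ℕ} {ι : Type*} [Fintype ι] [Nonempty ι] (x : ι → Fin k → ℝ) :
    Vexp (fun i => (Matrix.vecCons 1 (x i) : Fin (k + 1) → ℝ)) (Pi.single 0 1) =
      (k.factorial : ℝ≥0∞) * volume (convexHull ℝ (Set.range x)) := by
  obtain ⟨P, hP⟩ : ∃ P : Set (Fin k → ℝ), P = convexHull ℝ (Set.range x) := ⟨_, rfl⟩
  have hPc : IsCompact P := by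
    rw [hP]
    exact Set.Finite.isCompact_convexHull ℝ (Set.finite_range x)
  have hPm : MeasurableSet P := hPc.isClosed.measurableSet
  obtain ⟨C', hC'⟩ : ∃ C' : Set (ℝ × (Fin k → ℝ)), C' = {p | 0 < p.1 ∧ p.1⁻¹ • p.2 ∈ P} := ⟨_, rfl⟩
  have hC'm : MeasurableSet C' := by
    rw [hC']
    refine (measurableSet_lt measurable_const measurable_fst).inter ?_
    exact (measurable_fst.inv.smul measurable_snd) hPm
  have hmp := (MeasureTheory.volume_preserving_piFinSuccAbove (fun _ : Fin (k + 1) => ℝ) 0).symm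
  unfold Vexp
  rw [← hmp.setLIntegral_comp_preimage_emb (MeasurableEquiv.measurableEmbedding _)]
  have hae : (MeasurableEquiv.piFinSuccAbove (fun _ : Fin (k + 1) => ℝ) 0).symm ⁻¹'
      (Cone (fun i => (Matrix.vecCons 1 (x i) : Fin (k + 1) → ℝ))) =ᵐ[volume] C' := by
    have hne : ∀ᵐ p : ℝ × (Fin k → ℝ) ∂volume, p.1 ≠ 0 := by
      have h1 : (volume : Measure (ℝ × (Fin k → ℝ))) {p | p.1 = 0} = 0 := by
        have h2 : {p : ℝ × (Fin k → ℝ) | p.1 = 0} = ({0} : Set ℝ) ×ˢ (Set.univ : Set (Fin k → ℝ)) := by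
          ext p; simp
        rw [h2, Measure.volume_eq_prod, Measure.prod_prod, Real.volume_singleton, zero_mul]
      have h2 := measure_eq_zero_iff_ae_notMem.mp h1
      filter_upwards [h2] with p hp h0
      exact hp h0
    filter_upwards [hne] with p hp
    refine propext ?_
    show ((MeasurableEquiv.piFinSuccAbove (fun _ : Fin (k + 1) => ℝ) 0).symm p ∈
      Cone (fun i => (Matrix.vecCons 1 (x i) : Fin (k + 1) → ℝ))) ↔ p ∈ C'
    rw [gsymm_eq, hC', hP]
    rcases lt_or_gt_of_ne hp with h | h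
    · constructor
      · intro hh
        exact absurd hh (mem_Cone_neg x p.1 h p.2)
      · rintro ⟨hh, _⟩
        exact absurd h (not_lt.mpr (le_of_lt hh))
    · rw [mem_Cone_pos x p.1 h p.2]
      exact ⟨fun hh => ⟨h, hh⟩, fun hh => hh.2⟩
  rw [setLIntegral_congr hae]
  have hfun : ∀ p : ℝ × (Fin k → ℝ), ENNReal.ofReal (Real.exp (-(Pi.single (0 : Fin (k + 1)) (1:ℝ) ⬝ᵥ
      ((MeasurableEquiv.piFinSuccAbove (fun _ : Fin (k + 1) => ℝ) 0).symm p)))) =
      ENNReal.ofReal (Real.exp (-p.1)) := by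
    intro p
    rw [gsymm_eq]
    congr 2
    simp
  rw [lintegral_congr hfun, ← lintegral_indicator hC'm, Measure.volume_eq_prod, lintegral_prod]
  · have hin : ∀ t : ℝ, ∫⁻ y : Fin k → ℝ, C'.indicator (fun p => ENNReal.ofReal (Real.exp (-p.1))) (t, y) =
        (Set.Ioi (0:ℝ)).indicator (fun t => ENNReal.ofReal (Real.exp (-t)) * ENNReal.ofReal (t ^ k) *
          volume P) t := by
      intro t
      by_cases ht : 0 < t
      · rw [Set.indicator_of_mem (show t ∈ Set.Ioi (0:ℝ) from ht)]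
        have h1 : ∀ y : Fin k → ℝ, C'.indicator (fun p => ENNReal.ofReal (Real.exp (-p.1))) (t, y) =
            ((t⁻¹ • ·) ⁻¹' P).indicator (fun _ => ENNReal.ofReal (Real.exp (-t))) y := by
          intro y
          by_cases hy : t⁻¹ • y ∈ P
          · have hm : (t, y) ∈ C' := by rw [hC']; exact ⟨ht, hy⟩
            rw [Set.indicator_of_mem hm, Set.indicator_of_mem (show y ∈ (t⁻¹ • ·) ⁻¹' P from hy)]
          · have hm : (t, y) ∉ C' := by
              rw [hC']; exact fun h => hy h.2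
            rw [Set.indicator_of_notMem hm,
              Set.indicator_of_notMem (show y ∉ (t⁻¹ • ·) ⁻¹' P from hy)]
        have hms : MeasurableSet ((t⁻¹ • · : (Fin k → ℝ) → (Fin k → ℝ)) ⁻¹' P) :=
          (measurable_const_smul t⁻¹) hPm
        rw [lintegral_congr h1, lintegral_indicator_const hms,
          Measure.addHaar_preimage_smul volume (inv_ne_zero ht.ne') P, Module.finrank_fin_fun,
          inv_pow, inv_inv, abs_of_pos (pow_pos ht k), mul_assoc]
      · rw [Set.indicator_of_notMem (show t ∉ Set.Ioi (0:ℝ) from ht)]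
        have h1 : ∀ y : Fin k → ℝ, C'.indicator (fun p => ENNReal.ofReal (Real.exp (-p.1))) (t, y) = 0 := by
          intro y
          have hm : (t, y) ∉ C' := by
            rw [hC']; exact fun h => ht h.1
          rw [Set.indicator_of_notMem hm]
        rw [lintegral_congr h1, lintegral_zero]
    rw [lintegral_congr hin, lintegral_indicator measurableSet_Ioi, lintegral_mul_const, gamma_lint, hP]
    exact ((ENNReal.measurable_ofReal.comp (by fun_prop)).mul (ENNReal.measurable_ofReal.comp (by fun_prop)))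
  · refine Measurable.aemeasurable (Measurable.indicator ?_ hC'm)
    exact ENNReal.measurable_ofReal.comp (by fun_prop)

end J7759

namespace J7760

theorem orthant_lint (d : ℕ) : ∫⁻ θ in (Set.univ.pi fun _ : Fin d => Set.Ici (0:ℝ)),
    ENNReal.ofReal (Real.exp (-(∑ i, θ i))) = 1 := by
  have e1 : ∀ θ : Fin d → ℝ, Real.exp (-(∑ i, θ i)) = ∏ i, Real.exp (-(θ i)) := by
    intro θ
    rw [← Real.exp_sum, Finset.sum_neg_distrib]
  simp_rw [e1]
  rw [MeasureTheory.volume_pi, Measure.restrict_pi_pi]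
  have hi : ∀ i : Fin d, Integrable (fun x : ℝ => Real.exp (-x)) (volume.restrict (Set.Ici (0:ℝ))) := by
    intro i
    have := integrableOn_exp_neg_Ioi (0:ℝ)
    rwa [← integrableOn_Ici_iff_integrableOn_Ioi] at this
  rw [← ofReal_integral_eq_lintegral_ofReal (Integrable.fintype_prod_dep (f := fun _ x => Real.exp (-x)) hi)
    (Filter.Eventually.of_forall fun x => Finset.prod_nonneg fun i _ => (Real.exp_pos _).le)]
  have := integral_fintype_prod_eq_prod (𝕜 := ℝ) (ι := Fin d) (E := fun _ => ℝ) (fun _ x => Real.exp (-x))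
    (μ := fun _ => volume.restrict (Set.Ici (0:ℝ)))
  rw [this]
  simp only [integral_Ici_eq_integral_Ioi, integral_exp_neg_Ioi_zero, Finset.prod_const_one,
    ENNReal.ofReal_one]

theorem V_simplex {d : ℕ} (w : Fin d → Fin d → ℝ) (h : Fin d → ℝ) (hh : ∀ i, h ⬝ᵥ w i = 1) :
    Vexp w h = ENNReal.ofReal |(Matrix.of w).det| := by
  set T : (Fin d → ℝ) →ₗ[ℝ] (Fin d → ℝ) := Matrix.toLin' (Matrix.of w)ᵀ with hT
  have hTa : ∀ θ : Fin d → ℝ, T θ = ∑ i, θ i • w i := by
    intro θ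
    ext j
    simp [hT, Matrix.toLin'_apply, Matrix.mulVec, dotProduct, Finset.sum_apply, mul_comm]
  have hdet : LinearMap.det T = (Matrix.of w).det := by
    rw [hT, LinearMap.det_toLin', Matrix.det_transpose]
  have hcone : Cone w = T '' (Set.univ.pi fun _ : Fin d => Set.Ici (0:ℝ)) := by
    ext x
    constructor
    · rintro ⟨θ, h0, rfl⟩
      exact ⟨θ, fun i _ => h0 i, hTa θ⟩
    · rintro ⟨θ, h0, rfl⟩
      exact ⟨θ, fun i => h0 i trivial, hTa θ⟩
  have hhT : ∀ θ : Fin d → ℝ, h ⬝ᵥ T θ = ∑ i, θ i := by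
    intro θ
    rw [hTa, dotProduct_sum]
    refine Finset.sum_congr rfl fun i _ => ?_
    rw [dotProduct_smul, hh, smul_eq_mul, mul_one]
  unfold Vexp
  by_cases hd : (Matrix.of w).det = 0
  · have hnt : LinearMap.range T ≠ ⊤ := by
      intro htop
      have : Function.Surjective T := LinearMap.range_eq_top.1 htop
      have hb : Function.Bijective T := ⟨LinearMap.injective_iff_surjective.2 this, this⟩
      have hu := (LinearEquiv.ofBijective T hb).isUnit_det'
      have : IsUnit (LinearMap.det T) := hu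
      rw [hdet, hd] at this
      exact not_isUnit_zero this
    have hz : volume (Cone w) = 0 := by
      refine measure_mono_null ?_ (Measure.addHaar_submodule volume _ hnt)
      rw [hcone]
      rintro _ ⟨θ, -, rfl⟩
      exact ⟨θ, rfl⟩
    rw [Measure.restrict_eq_zero.2 hz, hd]
    simp
  · have hinj : Function.Injective T := by
      have hu : IsUnit (LinearMap.det T) := by rw [hdet]; exact isUnit_iff_ne_zero.2 hd
      exact (LinearMap.equivOfDetNeZero T hu.ne_zero).injective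
    rw [hcone]
    have hTf : ∀ θ ∈ (Set.univ.pi fun _ : Fin d => Set.Ici (0:ℝ)), HasFDerivWithinAt (T : (Fin d → ℝ) → (Fin d → ℝ))
        (LinearMap.toContinuousLinearMap T) (Set.univ.pi fun _ : Fin d => Set.Ici (0:ℝ)) θ := by
      intro θ _
      exact (LinearMap.toContinuousLinearMap T).hasFDerivAt.hasFDerivWithinAt
    rw [lintegral_image_eq_lintegral_abs_det_fderiv_mul volume
      (MeasurableSet.univ_pi fun _ => measurableSet_Ici) hTf hinj.injOn]
    simp_rw [hhT]
    have hdet2 : (LinearMap.toContinuousLinearMap T).det = (Matrix.of w).det := by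
      rw [← hdet]; rfl
    rw [hdet2, lintegral_const_mul' _ _ ENNReal.ofReal_ne_top, orthant_lint, mul_one]

end J7760

end Pool.Agent.Helper7.Simplex
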