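import Pool.Agent.Helper7.Simplex.Gauss
import Pool.Agent.Helper7.Simplex.Pair
import Pool.Agent.Helper7.Simplex.Trans
import Pool.Agent.Helper7.Simplex.Mat
import Pool.Agent.Helper7.Simplex.Scal
import Pool.Agent.Helper7.Simplex.Frame
import Pool.Agent.Helper7.Simplex.Ext
import Pool.Agent.Helper7.Simplex.Vol
import Pool.Agent.Helper7.Simplex.Geo
import Pool.Agent.Helper7.Simplex.GeoV
import Pool.Agent.Helper7.Simplex.Main

open MeasureTheory ProbabilityTheory Matrix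
open scoped ENNReal

namespace Pool.Agent.Helper7.Simplex

theorem g_basic (u : ℝ) : 0 < gtail u ∧ gtail u < 1 ∧ gtail (-u) = 1 - gtail u ∧
    HasDerivAt gtail (-gpdf u) u := J7431.G_basic u

theorem g_mono {x y : ℝ} (hxy : y ≤ x) :
    2 * √(2 / Real.pi) * (x - y) ≤ (ell x - ell (-x)) - (ell y - ell (-y)) :=
  J7433.G_mono g_basic (fun v => J7432.G_disc g_basic v) hxy

theorem g_growth : Continuous ell ∧ ∃ C : ℝ, 0 ≤ C ∧ ∀ u, |ell u| ≤ C * (1 + u ^ 2) :=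
  J7434.G_growth g_basic

theorem p_pair {d : ℕ} (a b : Fin d → ℝ) (ha : a ⬝ᵥ a = 1) (hb : b ⬝ᵥ b = 1) (δ : ℝ) :
    Integrable (fun y => KK (δ + ell (a ⬝ᵥ y) - ell (b ⬝ᵥ y)))
      (Measure.pi (fun _ : Fin d => gaussianReal 0 1)) ∧
    Pol (√(1 - a ⬝ᵥ b)) ≤ ∫ y, KK (δ + ell (a ⬝ᵥ y) - ell (b ⬝ᵥ y))
      ∂(Measure.pi (fun _ : Fin d => gaussianReal 0 1)) :=
  J7837.P_pair (fun a b ha hb => J7436.P_law a b ha hb)
    (fun f hf C hC m hm hmono c e δ hc he => J7437.P_two f hf C hC m hm hmono c e δ hc he)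
    (fun κ hκ => J7438.P_mom κ hκ) (fun x y hxy => g_mono hxy) g_growth a b ha hb δ

theorem k_ineq {d : ℕ} {ι : Type*} [Fintype ι] (w : ι → Fin d → ℝ)
    (hI : ∑ i, vecMulVec (w i) (w i) = 1) (t : ι → ℝ) :
    ∑ i, (w i ⬝ᵥ w i) * t i + (1 / 2) * ∑ i, ∑ j, (w i ⬝ᵥ w j) ^ 2 * KK (t i - t j) ≤
      Real.log (∑ i, Real.exp (t i) • vecMulVec (w i) (w i)).det :=
  J7444.K_ineq (fun Q C Y hQ hC hQC hY hCY hpd s hs =>
    J7443.K_step (fun X Y hX hY => J7441.K_logdet X Y hX hY)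
      (fun B Q hB hB1 hQ => J7442.K_inv B Q hB hB1 hQ) Q C Y hQ hC hQC hY hCY hpd s hs) w hI t

theorem m_main {d : ℕ} {ι : Type*} [Fintype ι] (w : ι → Fin d → ℝ)
    (hI : ∑ i, vecMulVec (w i) (w i) = 1)
    (S : Matrix (Fin d) (Fin d) ℝ) (hS : S.det ≠ 0) (h : Fin d → ℝ)
    (hh : ∀ i, h ⬝ᵥ (S *ᵥ w i) = 1) :
    ENNReal.ofReal (|S.det| * Real.exp (Expo w / 2)) ≤ Vexp (fun i => S *ᵥ w i) h :=
  J7841.M_main g_basic g_growth (fun f hf => J7435.D_density f hf)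
    (fun a b ha hb δ => p_pair a b ha hb δ)
    (fun μ _ f hf => J7840.M_jensen μ f hf) w hI S hS h hh
    (fun c hc s => J7838.M_phi g_basic c hc s)
    (fun hc y => J7838.M_pointwise g_basic w hI
      (fun t => ⟨(J7445.K_det_pos w hI t).2, k_ineq w hI t⟩) hc y)
    (fun hspan φ φ' hφ hφ' hφ0 => J7440.T_transport w hspan S hS h hh φ φ' hφ hφ' hφ0
      (fun y => J7439.T_fderiv w S φ φ' hφ y))

theorem b_all {d : ℕ} {ι : Type} [Fintype ι] (w : ι → Fin d → ℝ)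
    (hI : ∑ i, vecMulVec (w i) (w i) = 1) (b : ℕ) (hb : 2 ≤ b)
    (hc : ∀ i, 1 / (b : ℝ) ≤ w i ⬝ᵥ w i) (hc' : ∀ i, w i ⬝ᵥ w i ≤ 1 / ((b : ℝ) - 1)) :
    -(Fintype.card ι * Ab b + d * Bb b) ≤ Expo w := by
  rcases Nat.eq_or_lt_of_le hb with h2 | h3
  · subst h2
    exact J7843.B_two (fun r h1 h2 => J7613.Pol_two r h1 h2)
      (fun c h1 h2 => J7614.scal_two c h1 h2) w hI (by simpa using hc)
      (fun hc => J7615.frame_two w hI hc)
  · exact J7843.B_three (fun r h1 h2 => J7613.Pol_three r h1 h2)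
      (fun b hb => J7616.D_set b hb) 
      (fun A a c f hset p hp0 hp1 hcp => J7617.D_bern A a c f hset p hp0 hp1 hcp)
      w hI b h3 hc hc'

theorem core {d : ℕ} {ι : Type*} [Fintype ι] (w : ι → Fin d → ℝ) (h : Fin d → ℝ)
    (hh : ∀ i, h ⬝ᵥ w i = 1) (b : ℕ) (hb : 2 ≤ b) (hN : Fintype.card ι ≤ b * d)
    (hdet : 0 < (∑ i, vecMulVec (w i) (w i)).det) :
    ENNReal.ofReal (√((∑ i, vecMulVec (w i) (w i)).det) *
      Real.exp (-(Fintype.card ι * Ab b + d * Bb b) / 2)) ≤ Vexp w h :=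
  J7758.E_core (fun _ w hdet => J7756.E_factor w hdet) w h hh b hb
    (fun A hA => J7757.E_extremal (fun G hG u => J7756.E_det G hG u) w b hb A hA hN hdet)
    (fun m w S hI hS hh hc hc' => by
      refine le_trans (ENNReal.ofReal_le_ofReal ?_) (m_main w hI S hS h hh)
      refine mul_le_mul_of_nonneg_left (Real.exp_le_exp.mpr ?_) (abs_nonneg _)
      have := b_all w hI b hb hc hc'
      rw [Fintype.card_fin] at this
      linarith)

end Pool.Agent.Helper7.Simplex
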