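import Mathlib

open MeasureTheory ProbabilityTheory Matrix
open scoped ENNReal

namespace Pool.Agent.Helper7.Simplex

noncomputable def gpdf (u : ℝ) : ℝ := (Real.sqrt (2 * Real.pi))⁻¹ * Real.exp (-u ^ 2 / 2)
noncomputable def gtail (u : ℝ) : ℝ := ∫ s in Set.Ioi u, gpdf s
noncomputable def lam (u : ℝ) : ℝ := gpdf u / gtail u
noncomputable def ell (u : ℝ) : ℝ := Real.log (lam u)

noncomputable def KK (x : ℝ) : ℝ := Real.exp (-|x|) - 1 + |x|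

noncomputable def Pol (s : ℝ) : ℝ :=
  2 / Real.pi * s ^ 2 - 8 * √2 / (3 * Real.pi ^ 2) * s ^ 3 + 2 / Real.pi ^ 2 * s ^ 4
    - 32 * √2 / (15 * Real.pi ^ 3) * s ^ 5

/-- closed cone generated by a family -/
def Cone {d : ℕ} {ι : Type*} [Fintype ι] (w : ι → Fin d → ℝ) : Set (Fin d → ℝ) :=
  {x | ∃ θ : ι → ℝ, (∀ i, 0 ≤ θ i) ∧ x = ∑ i, θ i • w i}

noncomputable def Vexp {d : ℕ} {ι : Type*} [Fintype ι] (w : ι → Fin d → ℝ) (h : Fin d → ℝ) : ℝ≥0∞ :=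
  ∫⁻ x in Cone w, ENNReal.ofReal (Real.exp (-(h ⬝ᵥ x)))

noncomputable def Ab (b : ℕ) : ℝ := Real.log (b / (b - 1))
noncomputable def Bb (b : ℕ) : ℝ := b * Real.log (b - 1) - (b - 1) * Real.log b

/-- exponent -/
noncomputable def Expo {d : ℕ} {ι : Type*} [Fintype ι] (w : ι → Fin d → ℝ) : ℝ :=
  ∑ i, (w i ⬝ᵥ w i) * Real.log (w i ⬝ᵥ w i) +
    ∑ i, ∑ j, (w i ⬝ᵥ w j) ^ 2 * Pol (√(1 - (w i ⬝ᵥ w j) / √((w i ⬝ᵥ w i) * (w j ⬝ᵥ w j))))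

end Pool.Agent.Helper7.Simplex
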