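import Pool.Agent.Helper7.Simplex.Defs

open MeasureTheory ProbabilityTheory Matrix
open scoped ENNReal

namespace Pool.Agent.Helper7.Simplex

namespace J7431

theorem gpdf_eq : gpdf = gaussianPDFReal 0 1 := by
  funext u
  simp [gpdf, gaussianPDFReal]

theorem gpdf_pos (u : ℝ) : 0 < gpdf u := by
  unfold gpdf
  have : 0 < Real.pi := Real.pi_pos
  positivity

theorem gpdf_int : Integrable gpdf := by
  rw [gpdf_eq]
  exact integrable_gaussianPDFReal 0 1

theorem gpdf_integral : ∫ s, gpdf s = 1 := by
  rw [gpdf_eq]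
  exact integral_gaussianPDFReal_eq_one 0 one_ne_zero

theorem gpdf_cont : Continuous gpdf := by
  unfold gpdf
  fun_prop

theorem gtail_pos (u : ℝ) : 0 < gtail u := by
  unfold gtail
  rw [setIntegral_pos_iff_support_of_nonneg_ae]
  · have hs : Function.support gpdf = Set.univ := by
      ext x
      simp [(gpdf_pos x).ne']
    rw [hs, Set.univ_inter, Real.volume_Ioi]
    exact ENNReal.zero_lt_top
  · exact Filter.Eventually.of_forall fun x => (gpdf_pos x).le
  · exact gpdf_int.integrableOn

theorem gtail_neg (u : ℝ) : gtail (-u) = 1 - gtail u := by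
  have h1 : gtail u = ∫ s in Set.Iic (-u), gpdf s := by
    unfold gtail
    have h2 := integral_comp_neg_Iic (-u) gpdf
    rw [neg_neg] at h2
    rw [← h2]
    refine setIntegral_congr_fun measurableSet_Iic fun s _ => ?_
    simp [gpdf]
  have h3 : (∫ s in Set.Iic (-u), gpdf s) + ∫ s in Set.Ioi (-u), gpdf s = ∫ s, gpdf s :=
    intervalIntegral.integral_Iic_add_Ioi gpdf_int.integrableOn gpdf_int.integrableOn
  rw [gpdf_integral, ← h1] at h3
  change gtail u + gtail (-u) = 1 at h3
  linarith

theorem gtail_deriv (u : ℝ) : HasDerivAt gtail (-gpdf u) u := by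
  have h1 : ∀ x, gtail x = gtail 0 - ∫ s in (0 : ℝ)..x, gpdf s := by
    intro x
    have h2 := intervalIntegral.integral_Iic_sub_Iic (a := (0 : ℝ)) (b := x) (f := gpdf) (μ := volume)
      gpdf_int.integrableOn gpdf_int.integrableOn
    have h3 : ∀ y : ℝ, (∫ s in Set.Iic y, gpdf s) + ∫ s in Set.Ioi y, gpdf s = ∫ s, gpdf s :=
      fun y => intervalIntegral.integral_Iic_add_Ioi gpdf_int.integrableOn gpdf_int.integrableOn
    have h4 := h3 0
    have h5 := h3 x
    unfold gtail
    linarith
  have h2 : HasDerivAt (fun x => gtail 0 - ∫ s in (0 : ℝ)..x, gpdf s) (-gpdf u) u := by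
    have := (intervalIntegral.integral_hasDerivAt_right (gpdf_int.intervalIntegrable (a := 0) (b := u))
      (gpdf_cont.stronglyMeasurableAtFilter _ _) gpdf_cont.continuousAt).const_sub (gtail 0)
    exact this
  exact h2.congr_of_eventuallyEq (Filter.Eventually.of_forall h1)

theorem G_basic (u : ℝ) : 0 < gtail u ∧ gtail u < 1 ∧ gtail (-u) = 1 - gtail u ∧
    HasDerivAt gtail (-gpdf u) u := by
  refine ⟨gtail_pos u, ?_, gtail_neg u, gtail_deriv u⟩
  have := gtail_pos (-u)
  rw [gtail_neg] at this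
  linarith

end J7431

namespace J7432

theorem gpdf_pos (u : ℝ) : 0 < gpdf u := by
  unfold gpdf
  have : 0 < Real.sqrt (2 * Real.pi) := Real.sqrt_pos.2 (by positivity)
  positivity

theorem gpdf_deriv (u : ℝ) : HasDerivAt gpdf (-u * gpdf u) u := by
  have h1 : HasDerivAt (fun u : ℝ => -u ^ 2 / 2) (-u) u := by
    have := ((hasDerivAt_pow 2 u).neg).div_const 2
    refine this.congr_deriv ?_
    push_cast
    ring
  have h2 := (h1.exp).const_mul (Real.sqrt (2 * Real.pi))⁻¹
  refine h2.congr_deriv ?_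
  unfold gpdf
  ring

theorem gpdf_cont : Continuous gpdf :=
  continuous_iff_continuousAt.2 fun u => (gpdf_deriv u).continuousAt

theorem gpdf_anti : AntitoneOn gpdf (Set.Ici 0) := by
  intro x hx y hy hxy
  have hx' : (0:ℝ) ≤ x := hx
  unfold gpdf
  have : 0 < Real.sqrt (2 * Real.pi) := Real.sqrt_pos.2 (by positivity)
  apply mul_le_mul_of_nonneg_left _ (by positivity)
  apply Real.exp_le_exp.2
  nlinarith

theorem gtail_lim
    (hb : ∀ u, 0 < gtail u ∧ gtail u < 1 ∧ gtail (-u) = 1 - gtail u ∧ HasDerivAt gtail (-gpdf u) u) :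
    Filter.Tendsto gtail Filter.atTop (nhds 0) := by
  have hint : IntegrableOn gpdf (Set.Ioi 0) := by
    by_contra hcon
    have h1 : gtail 0 = 0 := integral_undef hcon
    have h2 := (hb 0).1
    rw [h1] at h2
    exact lt_irrefl _ h2
  have h1 := intervalIntegral_tendsto_integral_Ioi 0 hint Filter.tendsto_id
  have h2 : ∀ w : ℝ, ∫ x in (0:ℝ)..w, gpdf x = gtail 0 - gtail w := by
    intro w
    have h3 : ∀ x ∈ Set.uIcc 0 w, HasDerivAt (fun u => -gtail u) (gpdf x) x := by
      intro x _
      have := (hb x).2.2.2.neg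
      rwa [neg_neg] at this
    have h4 := intervalIntegral.integral_eq_sub_of_hasDerivAt h3
      (gpdf_cont.intervalIntegrable 0 w)
    rw [h4]
    ring
  have h5 : Filter.Tendsto (fun w => gtail 0 - ∫ x in (0:ℝ)..w, gpdf x) Filter.atTop
      (nhds (gtail 0 - gtail 0)) := by
    exact tendsto_const_nhds.sub h1
  rw [sub_self] at h5
  refine h5.congr fun w => ?_
  rw [h2 w]
  ring

theorem G_disc_nonneg
    (hb : ∀ u, 0 < gtail u ∧ gtail u < 1 ∧ gtail (-u) = 1 - gtail u ∧ HasDerivAt gtail (-gpdf u) u)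
    (v : ℝ) (hv : 0 ≤ v) : 4 * gpdf 0 * (gtail v * gtail (-v)) ≤ gpdf v := by
  set G : ℝ → ℝ := fun v => 4 * gpdf 0 * (1 - 2 * gtail v) - v with hG
  set F : ℝ → ℝ := fun v => gpdf v - 4 * gpdf 0 * (gtail v * (1 - gtail v)) with hF
  have hGd : ∀ v, HasDerivAt G (8 * gpdf 0 * gpdf v - 1) v := by
    intro v
    have h1 := ((((hb v).2.2.2.const_mul 2).const_sub 1).const_mul (4 * gpdf 0)).sub
      (hasDerivAt_id v)
    refine h1.congr_deriv ?_
    ring
  have hFd : ∀ v, HasDerivAt F (gpdf v * G v) v := by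
    intro v
    have h0 := (hb v).2.2.2
    have h1 := (gpdf_deriv v).sub ((h0.mul (h0.const_sub 1)).const_mul (4 * gpdf 0))
    refine h1.congr_deriv ?_
    simp only [hG]
    ring
  have hT0 : gtail 0 = 1 / 2 := by
    have := (hb 0).2.2.1
    rw [neg_zero] at this
    linarith
  have hG0 : G 0 = 0 := by
    simp only [hG]
    rw [hT0]
    ring
  have hF0 : F 0 = 0 := by
    simp only [hF]
    rw [hT0]
    ring
  have hconc : ConcaveOn ℝ (Set.Ici (0:ℝ)) G := by
    apply AntitoneOn.concaveOn_of_deriv (convex_Ici 0)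
    · exact (continuous_iff_continuousAt.2 fun u => (hGd u).continuousAt).continuousOn
    · exact fun x _ => (hGd x).differentiableAt.differentiableWithinAt
    · intro x hx y hy hxy
      rw [interior_Ici] at hx hy
      rw [(hGd x).deriv, (hGd y).deriv]
      have h1 := gpdf_anti (Set.mem_Ici.2 (le_of_lt hx)) (Set.mem_Ici.2 (le_of_lt hy)) hxy
      have h2 := gpdf_pos 0
      nlinarith
  have hstar : ∀ x w : ℝ, 0 ≤ x → x ≤ w → 0 < w → (x / w) * G w ≤ G x := by
    intro x w hx hxw hw
    have h1 := hconc.2 (Set.mem_Ici.2 le_rfl) (Set.mem_Ici.2 hw.le)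
      (sub_nonneg.2 ((div_le_one hw).2 hxw)) (div_nonneg hx hw.le) (sub_add_cancel 1 (x / w))
    rw [hG0] at h1
    simp only [smul_eq_mul, mul_zero, zero_add] at h1
    rwa [div_mul_cancel₀ _ hw.ne'] at h1
  have hFc : Continuous F := continuous_iff_continuousAt.2 fun u => (hFd u).continuousAt
  have hgoal : 0 ≤ F v := by
    rcases hv.eq_or_lt with h0 | hvpos
    · rw [← h0, hF0]
    · rcases le_or_gt 0 (G v) with hGv | hGv
      · have hmono : MonotoneOn F (Set.Icc 0 v) := by
          apply monotoneOn_of_deriv_nonneg (convex_Icc 0 v) hFc.continuousOn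
          · exact fun x _ => (hFd x).differentiableAt.differentiableWithinAt
          · intro x hx
            rw [interior_Icc] at hx
            rw [(hFd x).deriv]
            have h1 := hstar x v hx.1.le hx.2.le hvpos
            have h2 : 0 ≤ (x / v) * G v := mul_nonneg (div_nonneg hx.1.le hvpos.le) hGv
            exact mul_nonneg (gpdf_pos x).le (by linarith)
        have := hmono (Set.left_mem_Icc.2 hv) (Set.right_mem_Icc.2 hv) hv
        rwa [hF0] at this
      · have hanti : AntitoneOn F (Set.Ici v) := by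
          apply antitoneOn_of_deriv_nonpos (convex_Ici v) hFc.continuousOn
          · exact fun x _ => (hFd x).differentiableAt.differentiableWithinAt
          · intro x hx
            rw [interior_Ici] at hx
            rw [(hFd x).deriv]
            have hx' : v < x := hx
            have h1 := hstar v x hv hx'.le (hvpos.trans hx')
            have h2 : G x ≤ 0 := by
              by_contra hcon
              push Not at hcon
              have : 0 < v / x * G x := mul_pos (div_pos hvpos (hvpos.trans hx')) hcon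
              linarith
            exact mul_nonpos_of_nonneg_of_nonpos (gpdf_pos x).le h2
        have hlow : ∀ w, v ≤ w → -(4 * gpdf 0 * gtail w) ≤ F v := by
          intro w hw
          have h1 := hanti (Set.mem_Ici.2 le_rfl) (Set.mem_Ici.2 hw) hw
          have h2 : -(4 * gpdf 0 * gtail w) ≤ F w := by
            simp only [hF]
            have p1 := gpdf_pos w
            have p2 := gpdf_pos 0
            have p3 := (hb w).1
            have p4 : 0 ≤ 4 * gpdf 0 * (gtail w * gtail w) := by positivity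
            linarith
          linarith
        have hlim : Filter.Tendsto (fun w => -(4 * gpdf 0 * gtail w)) Filter.atTop
            (nhds (-(4 * gpdf 0 * 0))) := ((gtail_lim hb).const_mul _).neg
        rw [mul_zero, neg_zero] at hlim
        exact le_of_tendsto hlim (Filter.eventually_atTop.2 ⟨v, hlow⟩)
  simp only [hF] at hgoal
  rw [(hb v).2.2.1]
  linarith

theorem G_disc
    (hb : ∀ u, 0 < gtail u ∧ gtail u < 1 ∧ gtail (-u) = 1 - gtail u ∧ HasDerivAt gtail (-gpdf u) u)
    (v : ℝ) : 4 * gpdf 0 * (gtail v * gtail (-v)) ≤ gpdf v := by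
  rcases le_total 0 v with hv | hv
  · exact G_disc_nonneg hb v hv
  · have h1 := G_disc_nonneg hb (-v) (by linarith)
    rw [neg_neg, mul_comm (gtail (-v))] at h1
    have h2 : gpdf (-v) = gpdf v := by
      unfold gpdf
      congr 2
      ring
    rwa [h2] at h1

end J7432

namespace J7433

theorem G_mono
    (hb : ∀ u, 0 < gtail u ∧ gtail u < 1 ∧ gtail (-u) = 1 - gtail u ∧ HasDerivAt gtail (-gpdf u) u)
    (hdisc : ∀ v, 4 * gpdf 0 * (gtail v * gtail (-v)) ≤ gpdf v)
    {x y : ℝ} (hxy : y ≤ x) :
    2 * √(2 / Real.pi) * (x - y) ≤ (ell x - ell (-x)) - (ell y - ell (-y)) := by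
  have hpos : ∀ u, 0 < gpdf u := by
    intro u
    unfold gpdf
    have := Real.pi_pos
    positivity
  have heven : ∀ u, gpdf (-u) = gpdf u := by
    intro u
    unfold gpdf
    rw [neg_sq]
  have hc : 2 * √(2 / Real.pi) = 4 * gpdf 0 := by
    unfold gpdf
    have hpi := Real.pi_pos
    have h1 : √(2 / Real.pi) = 2 * (√(2 * Real.pi))⁻¹ := by
      rw [Real.sqrt_eq_iff_mul_self_eq (by positivity) (by positivity)]
      have h2 : √(2 * Real.pi) * √(2 * Real.pi) = 2 * Real.pi :=
        Real.mul_self_sqrt (by positivity)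
      have h3 : √(2 * Real.pi) ≠ 0 := by positivity
      have h4 : 2 * (√(2 * Real.pi))⁻¹ * (2 * (√(2 * Real.pi))⁻¹)
          = 4 / (√(2 * Real.pi) * √(2 * Real.pi)) := by
        field_simp
        norm_num
      rw [h4, h2]
      field_simp
      norm_num
    rw [h1]
    norm_num
    ring
  have hell : ∀ u, ell u - ell (-u) = Real.log (gtail (-u)) - Real.log (gtail u) := by
    intro u
    unfold ell lam
    rw [Real.log_div (hpos u).ne' (hb u).1.ne', Real.log_div (hpos (-u)).ne' (hb (-u)).1.ne',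
      heven u]
    ring
  have hder : ∀ u, HasDerivAt (fun u => Real.log (gtail (-u)) - Real.log (gtail u)
      - 4 * gpdf 0 * u) (gpdf u / (gtail u * gtail (-u)) - 4 * gpdf 0) u := by
    intro u
    have h1 : HasDerivAt (fun u => Real.log (gtail u)) (-gpdf u / gtail u) u :=
      (hb u).2.2.2.log (hb u).1.ne'
    have h2 : HasDerivAt (fun u : ℝ => gtail (-u)) (-gpdf (-u) * (-1)) u := by
      have h := (hb (-u)).2.2.2
      exact HasDerivAt.comp u h (hasDerivAt_neg u)
    have h3 : HasDerivAt (fun u => Real.log (gtail (-u))) (-gpdf (-u) * (-1) / gtail (-u)) u :=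
      h2.log (hb (-u)).1.ne'
    have h4 : HasDerivAt (fun u : ℝ => 4 * gpdf 0 * u) (4 * gpdf 0 * 1) u :=
      (hasDerivAt_id u).const_mul _
    refine ((h3.sub h1).sub h4).congr_deriv ?_
    rw [heven u]
    have e1 := (hb u).1.ne'
    have e2 := (hb (-u)).1.ne'
    have e3 : gtail u + gtail (-u) = 1 := by rw [(hb u).2.2.1]; ring
    have e4 : -gpdf u * (-1) / gtail (-u) - -gpdf u / gtail u
        = gpdf u * (gtail u + gtail (-u)) / (gtail u * gtail (-u)) := by
      field_simp
      ring
    rw [e4, e3]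
    ring
  have hmono : Monotone (fun u => Real.log (gtail (-u)) - Real.log (gtail u)
      - 4 * gpdf 0 * u) := by
    apply monotone_of_hasDerivAt_nonneg hder
    intro u
    have h1 : 0 < gtail u * gtail (-u) := mul_pos (hb u).1 (hb (-u)).1
    have h2 : 4 * gpdf 0 ≤ gpdf u / (gtail u * gtail (-u)) := by
      rw [le_div_iff₀ h1]
      exact hdisc u
    simpa using h2
  have h := hmono hxy
  simp only at h
  rw [hell, hell, hc]
  linarith

end J7433

namespace J7434

theorem gpdf_pos_7434 (u : ℝ) : 0 < gpdf u := by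
  unfold gpdf
  have : 0 < 2 * Real.pi := by positivity
  positivity

theorem gpdf_cont_7434 : Continuous gpdf := by
  unfold gpdf
  fun_prop

theorem log_gpdf_7434 (u : ℝ) :
    Real.log (gpdf u) = -Real.log (Real.sqrt (2 * Real.pi)) - u ^ 2 / 2 := by
  unfold gpdf
  have h1 : 0 < Real.sqrt (2 * Real.pi) := Real.sqrt_pos.2 (by positivity)
  rw [Real.log_mul (inv_ne_zero h1.ne') (Real.exp_ne_zero _), Real.log_inv, Real.log_exp]
  ring

theorem log_sqrt_nonneg_7434 : 0 ≤ Real.log (Real.sqrt (2 * Real.pi)) := by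
  apply Real.log_nonneg
  rw [show (1 : ℝ) = Real.sqrt 1 by simp]
  apply Real.sqrt_le_sqrt
  have := Real.pi_gt_three
  linarith

theorem gpdf_anti_7434 {a b : ℝ} (ha : 0 ≤ a) (hab : a ≤ b) : gpdf b ≤ gpdf a := by
  unfold gpdf
  apply mul_le_mul_of_nonneg_left _ (by positivity)
  apply Real.exp_le_exp.2
  have : a ^ 2 ≤ b ^ 2 := pow_le_pow_left₀ ha hab 2
  linarith

theorem G_growth
    (hb : ∀ u, 0 < gtail u ∧ gtail u < 1 ∧ gtail (-u) = 1 - gtail u ∧ HasDerivAt gtail (-gpdf u) u) :
    Continuous ell ∧ ∃ C : ℝ, 0 ≤ C ∧ ∀ u, |ell u| ≤ C * (1 + u ^ 2) := by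
  have hcont : Continuous gtail := by
    rw [continuous_iff_continuousAt]
    exact fun u => (hb u).2.2.2.continuousAt
  have hell : ∀ u, ell u = Real.log (gpdf u) - Real.log (gtail u) := by
    intro u
    unfold ell lam
    rw [Real.log_div (gpdf_pos_7434 u).ne' (hb u).1.ne']
  constructor
  · have h1 : ell = fun u => Real.log (gpdf u) - Real.log (gtail u) := funext hell
    rw [h1]
    exact (gpdf_cont_7434.log fun u => (gpdf_pos_7434 u).ne').sub
      (hcont.log fun u => (hb u).1.ne')
  have hanti : Antitone gtail := by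
    apply antitone_of_deriv_nonpos
    · exact fun u => (hb u).2.2.2.differentiableAt
    · intro u
      rw [(hb u).2.2.2.deriv]
      have := gpdf_pos_7434 u
      linarith
  have hlow : ∀ u, 0 ≤ u → gpdf (u + 1) ≤ gtail u := by
    intro u hu
    obtain ⟨c, ⟨hc1, hc2⟩, hc⟩ := exists_hasDerivAt_eq_slope gtail (fun u => -gpdf u)
      (show u < u + 1 by linarith) hcont.continuousOn (fun x _ => (hb x).2.2.2)
    have h2 : u + 1 - u = 1 := by ring
    rw [h2, div_one] at hc
    have h3 := gpdf_anti_7434 (show 0 ≤ c by linarith) hc2.le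
    have h4 := (hb (u + 1)).1
    linarith
  have hL := log_sqrt_nonneg_7434
  refine ⟨2 * Real.log (Real.sqrt (2 * Real.pi)) + 2, by linarith, fun u => ?_⟩
  have h1 : gpdf (|u| + 1) ≤ gtail u := (hlow _ (abs_nonneg u)).trans (hanti (le_abs_self u))
  have h2 : Real.log (gpdf (|u| + 1)) ≤ Real.log (gtail u) :=
    Real.log_le_log (gpdf_pos_7434 _) h1
  have h3 : Real.log (gtail u) ≤ 0 := Real.log_nonpos (hb u).1.le (hb u).2.1.le
  rw [log_gpdf_7434] at h2
  rw [hell, log_gpdf_7434, abs_le]
  have h4 : |u| ^ 2 = u ^ 2 := sq_abs u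
  have h5 : 2 * |u| ≤ 1 + u ^ 2 := by
    have := sq_nonneg (|u| - 1)
    nlinarith
  have h6 : 0 ≤ u ^ 2 := sq_nonneg u
  have h7 : 0 ≤ Real.log (Real.sqrt (2 * Real.pi)) * u ^ 2 := mul_nonneg hL h6
  have h8 : (|u| + 1) ^ 2 = u ^ 2 + 2 * |u| + 1 := by rw [← h4]; ring
  rw [h8] at h2
  constructor <;> nlinarith

end J7434

namespace J7435

theorem dd_gpdf_eq (x : ℝ) : gpdf x = gaussianPDFReal 0 1 x := by
  unfold gpdf gaussianPDFReal
  simp

theorem dd_gpdf_nonneg (x : ℝ) : 0 ≤ gpdf x := by
  unfold gpdf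
  positivity

theorem dd_gpdf_cont : Continuous gpdf := by
  unfold gpdf
  fun_prop

theorem dd_gpdf_int : Integrable gpdf := by
  have : gpdf = gaussianPDFReal 0 1 := funext dd_gpdf_eq
  rw [this]
  exact integrable_gaussianPDFReal 0 1

theorem dd_pi {d : ℕ} : Measure.pi (fun _ : Fin d => gaussianReal 0 1) =
    (volume : Measure (Fin d → ℝ)).withDensity (fun y => ENNReal.ofReal (∏ i, gpdf (y i))) := by
  apply Measure.pi_eq
  intro s hs
  rw [withDensity_apply _ (MeasurableSet.univ_pi hs), volume_pi, Measure.restrict_pi_pi]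
  have hi : ∀ i : Fin d, Integrable gpdf ((volume : Measure ℝ).restrict (s i)) :=
    fun i => dd_gpdf_int.restrict
  have hint : Integrable (fun y : Fin d → ℝ => ∏ i, gpdf (y i))
      (Measure.pi (fun i : Fin d => (volume : Measure ℝ).restrict (s i))) :=
    Integrable.fintype_prod hi
  rw [← ofReal_integral_eq_lintegral_ofReal hint
    (Filter.Eventually.of_forall (fun y => Finset.prod_nonneg (fun i _ => dd_gpdf_nonneg _))),
    integral_fintype_prod_eq_prod (fun _ : Fin d => gpdf), ENNReal.ofReal_prod_of_nonneg]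
  · refine Finset.prod_congr rfl (fun i _ => ?_)
    rw [gaussianReal_apply_eq_integral 0 one_ne_zero]
    congr 1
    exact integral_congr_ae (Filter.Eventually.of_forall (fun x => dd_gpdf_eq x))
  · intro i _
    exact integral_nonneg (fun x => dd_gpdf_nonneg x)

theorem D_density {d : ℕ} (f : (Fin d → ℝ) → ℝ≥0∞) (hf : Measurable f) :
    ∫⁻ y, f y ∂(Measure.pi (fun _ : Fin d => gaussianReal 0 1)) =
      ∫⁻ y : Fin d → ℝ, f y * ENNReal.ofReal (∏ i, gpdf (y i)) := by
  have hm : Measurable (fun y : Fin d → ℝ => ENNReal.ofReal (∏ i, gpdf (y i))) := by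
    apply ENNReal.measurable_ofReal.comp
    apply Finset.measurable_prod
    intro i _
    exact dd_gpdf_cont.measurable.comp (measurable_pi_apply i)
  rw [dd_pi, lintegral_withDensity_eq_lintegral_mul _ hm hf]
  refine lintegral_congr (fun y => ?_)
  rw [Pi.mul_apply, mul_comm]

end J7435

end Pool.Agent.Helper7.Simplex
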